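import Pool.Agent.Work.MP_c13439_tree.Interface2

set_option autoImplicit false

namespace Pool.Agent.Work.MP_c13439_tree

open Finset Pool.Agent.Work.MP_c13439_an

namespace ADD

section

variable {𝕜 X Y : Type} [RCLike 𝕜] [NormedAddCommGroup X] [NormedSpace 𝕜 X]
  [NormedAddCommGroup Y] [NormedSpace 𝕜 Y]

theorem add_ent (S S' : X →L[𝕜] Y) (m n : ℕ) :
    entropyNumber (S + S') (m + n) ≤ entropyNumber S m + entropyNumber S' n := by
  refine le_of_forall_gt_imp_ge_of_dense fun r hr => ?_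
  obtain ⟨d, hd⟩ : ∃ d : ℝ, d = (r - (entropyNumber S m + entropyNumber S' n)) / 2 := ⟨_, rfl⟩
  have hd0 : 0 < d := by rw [hd]; linarith
  obtain ⟨w, hw⟩ := ent_lt S m (entropyNumber S m + d) (by linarith)
  obtain ⟨w', hw'⟩ := ent_lt S' n (entropyNumber S' n + d) (by linarith)
  have hr0 : 0 < r := lt_of_le_of_lt (add_nonneg (ent_nonneg S m) (ent_nonneg S' n)) hr
  have hcard : Fintype.card (Fin (2 ^ m) × Fin (2 ^ n)) ≤ 2 ^ (m + n) := by
    rw [Fintype.card_prod, Fintype.card_fin, Fintype.card_fin, pow_add]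
  obtain ⟨V, hV⟩ := reindex (2 ^ (m + n)) hcard (fun c => w c.1 + w' c.2)
  refine ent_le _ _ r hr0 V fun x hx => ?_
  obtain ⟨c, hc⟩ := hw x hx
  obtain ⟨c', hc'⟩ := hw' x hx
  obtain ⟨j, hj⟩ := hV (c, c')
  refine ⟨j, ?_⟩
  rw [hj]
  have h1 : (S + S') x - (w c + w' c') = (S x - w c) + (S' x - w' c') := by
    rw [ContinuousLinearMap.add_apply]
    abel
  rw [h1]
  have h2 := norm_add_le (S x - w c) (S' x - w' c')
  linarith

theorem ent_zero_le (S : X →L[𝕜] Y) (a : ℝ) (ha : ‖S‖ ≤ a) : entropyNumber S 0 ≤ a := by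
  refine le_of_forall_gt_imp_ge_of_dense fun r hr => ?_
  have hr0 : 0 < r := lt_of_le_of_lt ((norm_nonneg S).trans ha) hr
  refine ent_le _ _ r hr0 (fun _ => 0) fun x hx => ⟨⟨0, by positivity⟩, ?_⟩
  rw [sub_zero]
  have h1 := S.le_opNorm x
  have h2 : ‖S‖ * ‖x‖ ≤ ‖S‖ * 1 := mul_le_mul_of_nonneg_left hx (norm_nonneg _)
  linarith

theorem smul_le (S : X →L[𝕜] Y) (r : ℝ) (n : ℕ) (hr : 0 < r) :
    entropyNumber ((r : 𝕜) • S) n ≤ r * entropyNumber S n := by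
  have h0 : ∀ s : ℝ, entropyNumber S n < s → entropyNumber ((r : 𝕜) • S) n ≤ r * s := by
    intro s hs
    have hs0 : 0 < s := lt_of_le_of_lt (ent_nonneg S n) hs
    obtain ⟨w, hw⟩ := ent_lt S n s hs
    refine ent_le _ _ (r * s) (mul_pos hr hs0) (fun c => (r : 𝕜) • w c) fun x hx => ?_
    obtain ⟨c, hc⟩ := hw x hx
    refine ⟨c, ?_⟩
    have h1 : ((r : 𝕜) • S) x - (r : 𝕜) • w c = (r : 𝕜) • (S x - w c) := by
      rw [ContinuousLinearMap.smul_apply, smul_sub]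
    rw [h1, norm_smul, RCLike.norm_ofReal, abs_of_pos hr]
    exact mul_le_mul_of_nonneg_left hc hr.le
  have h2 : entropyNumber ((r : 𝕜) • S) n / r ≤ entropyNumber S n := by
    refine le_of_forall_gt_imp_ge_of_dense fun s hs => ?_
    rw [div_le_iff₀ hr, mul_comm]
    exact h0 s hs
  rw [div_le_iff₀ hr] at h2
  rw [mul_comm]
  exact h2

theorem smul_eq (S : X →L[𝕜] Y) (r : ℝ) (n : ℕ) (hr : 0 < r) :
    entropyNumber ((r : 𝕜) • S) n = r * entropyNumber S n := by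
  refine le_antisymm (smul_le S r n hr) ?_
  have h1 := smul_le ((r : 𝕜) • S) r⁻¹ n (inv_pos.mpr hr)
  have h2 : ((r⁻¹ : ℝ) : 𝕜) • ((r : 𝕜) • S) = S := by
    rw [smul_smul, ← RCLike.ofReal_mul, inv_mul_cancel₀ hr.ne', RCLike.ofReal_one, one_smul]
  rw [h2] at h1
  calc r * entropyNumber S n ≤ r * (r⁻¹ * entropyNumber ((r : 𝕜) • S) n) :=
        mul_le_mul_of_nonneg_left h1 hr.le
    _ = entropyNumber ((r : 𝕜) • S) n := by rw [← mul_assoc, mul_inv_cancel₀ hr.ne', one_mul]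

theorem adj_norm (T : X →L[𝕜] Y) : ‖adjointMap T‖ ≤ ‖T‖ := by
  refine ContinuousLinearMap.opNorm_le_bound _ (norm_nonneg _) fun f => ?_
  rw [mul_comm]
  exact ContinuousLinearMap.opNorm_comp_le f T

theorem adj_add (S S' : X →L[𝕜] Y) : adjointMap (S + S') = adjointMap S + adjointMap S' :=
  map_add (ContinuousLinearMap.compL 𝕜 X Y 𝕜).flip S S'

theorem adj_smul (S : X →L[𝕜] Y) (a : 𝕜) : adjointMap (a • S) = a • adjointMap S :=
  map_smul (ContinuousLinearMap.compL 𝕜 X Y 𝕜).flip a S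

end

end ADD

theorem blk_ADD : Stmt_ADD := by
  intro 𝕜 _ X Y _ _ _ _
  refine ⟨fun S S' m n => ⟨ADD.add_ent S S' m n, ?_⟩, fun S => ⟨ADD.ent_zero_le S _ le_rfl,
    ADD.ent_zero_le _ _ (ADD.adj_norm S)⟩, fun S r n hr => ⟨ADD.smul_eq S r n hr, ?_⟩⟩
  · rw [ADD.adj_add]
    exact ADD.add_ent _ _ m n
  · rw [ADD.adj_smul]
    exact ADD.smul_eq _ r n hr

end Pool.Agent.Work.MP_c13439_tree
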