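import Pool.Agent.Work.MP_c13439_tree.Interface

set_option autoImplicit false

/-!
# Block BAD: separation of two words by a valid set of nodes
-/

namespace Pool.Agent.Work.MP_c13439_tree.H11Bad

open Finset Pool.Agent.Work.MP_c13439_tree

variable {m : ℕ → ℕ} {T : ℕ} {F : Type}

theorem bb_self (m : ℕ → ℕ) (T : ℕ) : bb m T T = 1 := by
  unfold bb
  simp

theorem bb_step {m : ℕ → ℕ} {T t : ℕ} (h : t < T) : bb m T t = m t * bb m T (t + 1) := by
  unfold bb
  exact Finset.prod_eq_prod_Ico_succ_bot h _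

theorem bb_zero (m : ℕ → ℕ) (T : ℕ) : bb m T 0 = R m T := by
  unfold bb R
  rw [Finset.range_eq_Ico]

theorem R_succ (m : ℕ → ℕ) (t : ℕ) : R m (t + 1) = R m t * m t := by
  unfold R
  exact Finset.prod_range_succ _ _

theorem bb_pos {m : ℕ → ℕ} (hm : ∀ t, 0 < m t) (T t : ℕ) : 0 < bb m T t := by
  unfold bb
  exact Finset.prod_pos fun i _ => hm i

/-- the two words agree at the leaf `y` -/
def Eqy (u v : Wd m T F) (y : ℕ) : Prop := ∃ h : y < R m T, u ⟨y, h⟩ = v ⟨y, h⟩

open Classical in
/-- good nodes of level `t`, `n = T - t` -/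
def good (u v : Wd m T F) : ℕ → ℕ → ℕ → Prop
  | 0, _, ν => Eqy u v ν
  | n + 1, t, ν => m t < 2 * ((range (m t)).filter fun i => good u v n (t + 1) (ν * m t + i)).card

open Classical in
/-- number of agreements below the node `ν` of level `t` -/
noncomputable def cnt (u v : Wd m T F) (t ν : ℕ) : ℕ :=
  ((range (bb m T t)).filter fun j => Eqy u v (ν * bb m T t + j)).card

theorem cnt_step (u v : Wd m T F) {t : ℕ} (ht : t < T) (ν : ℕ) (hm : ∀ t, 0 < m t) :
    cnt u v t ν = ∑ i ∈ range (m t), cnt u v (t + 1) (ν * m t + i) := by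
  classical
  unfold cnt
  have hb := bb_pos hm T (t + 1)
  rw [← card_sigma]
  refine card_bij' (fun j _ => ⟨j / bb m T (t + 1), j % bb m T (t + 1)⟩)
    (fun p _ => p.1 * bb m T (t + 1) + p.2) ?_ ?_ ?_ ?_
  · intro j hj
    rw [mem_filter, mem_range, bb_step ht] at hj
    rw [mem_sigma, mem_range, mem_filter, mem_range]
    refine ⟨(Nat.div_lt_iff_lt_mul hb).2 hj.1, Nat.mod_lt _ hb, ?_⟩
    have e : (ν * m t + j / bb m T (t + 1)) * bb m T (t + 1) + j % bb m T (t + 1) =
        ν * (m t * bb m T (t + 1)) + j := by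
      have h := Nat.div_add_mod' j (bb m T (t + 1))
      calc (ν * m t + j / bb m T (t + 1)) * bb m T (t + 1) + j % bb m T (t + 1)
          = ν * (m t * bb m T (t + 1)) +
            (j / bb m T (t + 1) * bb m T (t + 1) + j % bb m T (t + 1)) := by ring
        _ = ν * (m t * bb m T (t + 1)) + j := by rw [h]
    simp only [e]
    exact hj.2
  · intro p hp
    rw [mem_sigma, mem_range, mem_filter, mem_range] at hp
    rw [mem_filter, mem_range, bb_step ht]
    obtain ⟨h1, h2, h3⟩ := hp
    constructor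
    · calc p.1 * bb m T (t + 1) + p.2 < p.1 * bb m T (t + 1) + bb m T (t + 1) :=
          Nat.add_lt_add_left h2 _
        _ = (p.1 + 1) * bb m T (t + 1) := by ring
        _ ≤ m t * bb m T (t + 1) := Nat.mul_le_mul_right _ h1
    · have e : ν * (m t * bb m T (t + 1)) + (p.1 * bb m T (t + 1) + p.2) =
          (ν * m t + p.1) * bb m T (t + 1) + p.2 := by ring
      rw [e]
      exact h3
  · intro j _
    exact Nat.div_add_mod' j _
  · intro p hp
    rw [mem_sigma, mem_range, mem_filter, mem_range] at hp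
    obtain ⟨p1, p2⟩ := p
    obtain ⟨h1, h2, h3⟩ := hp
    simp only at h2 ⊢
    have e1 : (p1 * bb m T (t + 1) + p2) / bb m T (t + 1) = p1 := by
      rw [Nat.add_comm, Nat.add_mul_div_right _ _ hb, Nat.div_eq_of_lt h2, Nat.zero_add]
    have e2 : (p1 * bb m T (t + 1) + p2) % bb m T (t + 1) = p2 := by
      rw [Nat.add_comm, Nat.add_mul_mod_self_right, Nat.mod_eq_of_lt h2]
    rw [e1, e2]

theorem good_cnt (u v : Wd m T F) (hm : ∀ t, 0 < m t) : ∀ (n t ν : ℕ), t + n = T →
    good u v n t ν → bb m T t ≤ 2 ^ n * cnt u v t ν := by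
  classical
  intro n
  induction n with
  | zero =>
    intro t ν ht hg
    have ht' : t = T := by omega
    subst ht'
    unfold cnt
    rw [bb_self, pow_zero, one_mul]
    refine card_pos.2 ⟨0, ?_⟩
    rw [mem_filter, mem_range]
    refine ⟨Nat.zero_lt_one, ?_⟩
    have hg0 : Eqy u v ν := hg
    rw [Nat.mul_one, Nat.add_zero]
    exact hg0
  | succ n ih =>
    intro t ν ht hg
    have htT : t < T := by omega
    rw [cnt_step u v htT ν hm, bb_step htT]
    have hg' : m t < 2 * ((range (m t)).filter fun i => good u v n (t + 1) (ν * m t + i)).card := hg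
    set G := (range (m t)).filter fun i => good u v n (t + 1) (ν * m t + i) with hG
    have h1 : ∑ i ∈ G, bb m T (t + 1) ≤ ∑ i ∈ G, 2 ^ n * cnt u v (t + 1) (ν * m t + i) := by
      refine sum_le_sum fun i hi => ?_
      exact ih (t + 1) _ (by omega) (mem_filter.1 hi).2
    have h2 : ∑ i ∈ G, 2 ^ n * cnt u v (t + 1) (ν * m t + i) ≤
        ∑ i ∈ range (m t), 2 ^ n * cnt u v (t + 1) (ν * m t + i) :=
      sum_le_sum_of_subset (filter_subset _ _)
    rw [sum_const, smul_eq_mul] at h1
    have e5 : ∑ i ∈ range (m t), 2 ^ n * cnt u v (t + 1) (ν * m t + i) =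
        2 ^ n * ∑ i ∈ range (m t), cnt u v (t + 1) (ν * m t + i) := (mul_sum _ _ _).symm
    rw [e5] at h2
    calc m t * bb m T (t + 1) ≤ 2 * G.card * bb m T (t + 1) := Nat.mul_le_mul_right _ hg'.le
      _ = 2 * (G.card * bb m T (t + 1)) := by ring
      _ ≤ 2 * (2 ^ n * ∑ i ∈ range (m t), cnt u v (t + 1) (ν * m t + i)) :=
          Nat.mul_le_mul_left _ (h1.trans h2)
      _ = 2 ^ (n + 1) * ∑ i ∈ range (m t), cnt u v (t + 1) (ν * m t + i) := by ring

/-- below a bad node there is a leaf where the words differ -/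
theorem bad_leaf (u v : Wd m T F) (hm : ∀ t, 0 < m t) : ∀ (n t ν : ℕ), t + n = T → ν < R m t →
    ¬ good u v n t ν → ∃ y : Fin (R m T), y.1 / bb m T t = ν ∧ u y ≠ v y := by
  classical
  intro n
  induction n with
  | zero =>
    intro t ν ht hν hg
    have ht' : t = T := by omega
    subst ht'
    refine ⟨⟨ν, hν⟩, ?_, ?_⟩
    · rw [bb_self, Nat.div_one]
    · intro h
      exact hg ⟨hν, h⟩
  | succ n ih =>
    intro t ν ht hν hg
    have htT : t < T := by omega
    have hg' : ¬ m t < 2 * ((range (m t)).filter fun i => good u v n (t + 1) (ν * m t + i)).card := hg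
    have hex : ∃ i ∈ range (m t), ¬ good u v n (t + 1) (ν * m t + i) := by
      by_contra hcon
      push Not at hcon
      have e : (range (m t)).filter (fun i => good u v n (t + 1) (ν * m t + i)) = range (m t) :=
        filter_true_of_mem hcon
      rw [e, card_range] at hg'
      have := hm t
      omega
    obtain ⟨i, hi, hbad⟩ := hex
    rw [mem_range] at hi
    have hlt : ν * m t + i < R m (t + 1) := by
      rw [R_succ]
      calc ν * m t + i < ν * m t + m t := Nat.add_lt_add_left hi _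
        _ = (ν + 1) * m t := by ring
        _ ≤ R m t * m t := Nat.mul_le_mul_right _ hν
    obtain ⟨y, hy1, hy2⟩ := ih (t + 1) _ (by omega) hlt hbad
    refine ⟨y, ?_, hy2⟩
    rw [bb_step htT, Nat.mul_comm, ← Nat.div_div_eq_div_mul, hy1, Nat.add_comm,
      Nat.add_mul_div_right _ _ (hm t), Nat.div_eq_of_lt hi, Nat.zero_add]

/-- the child number `i` of a node -/
def chi (m : ℕ → ℕ) (T : ℕ) (x : Nd m T) (hx : x.1.1 < T) (i : ℕ) (hi : i < m x.1.1) : Nd m T :=
  ⟨⟨x.1.1 + 1, by omega⟩, ⟨x.2.1 * m x.1.1 + i, by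
    have h := x.2.2
    show _ < R m (x.1.1 + 1)
    rw [R_succ]
    calc x.2.1 * m x.1.1 + i < x.2.1 * m x.1.1 + m x.1.1 := Nat.add_lt_add_left hi _
      _ = (x.2.1 + 1) * m x.1.1 := by ring
      _ ≤ R m x.1.1 * m x.1.1 := Nat.mul_le_mul_right _ h⟩⟩

open Classical in
/-- counting children with a property of the numbers -/
theorem card_Chd_filter (hm : ∀ t, 0 < m t) (x : Nd m T) (hx : x.1.1 < T)
    (P : ℕ → Prop) :
    ((Chd m T x).filter fun z => P z.2.1).card =
      ((range (m x.1.1)).filter fun i => P (x.2.1 * m x.1.1 + i)).card := by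
  refine (card_bij (fun i hi => chi m T x hx i (mem_range.1 (mem_filter.1 hi).1)) ?_ ?_ ?_).symm
  · intro i hi
    obtain ⟨h1, h2⟩ := mem_filter.1 hi
    rw [mem_filter]
    refine ⟨?_, h2⟩
    unfold Chd
    rw [mem_filter]
    refine ⟨mem_univ _, rfl, ?_⟩
    show (x.2.1 * m x.1.1 + i) / m x.1.1 = x.2.1
    rw [Nat.add_comm, Nat.add_mul_div_right _ _ (hm _), Nat.div_eq_of_lt (mem_range.1 h1),
      Nat.zero_add]
  · intro i hi j hj h
    unfold chi at h
    rw [Sigma.mk.injEq] at h
    have h2 := eq_of_heq h.2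
    rw [Fin.mk.injEq] at h2
    omega
  · intro z hz
    obtain ⟨h1, h2⟩ := mem_filter.1 hz
    unfold Chd at h1
    obtain ⟨-, h3, h4⟩ := mem_filter.1 h1
    obtain ⟨⟨t, ht⟩, ⟨κ, hκ⟩⟩ := z
    simp only at h2 h3 h4
    subst h3
    refine ⟨κ % m x.1.1, ?_, ?_⟩
    · rw [mem_filter, mem_range]
      refine ⟨Nat.mod_lt _ (hm _), ?_⟩
      have e : x.2.1 * m x.1.1 + κ % m x.1.1 = κ := by
        rw [← h4]
        exact Nat.div_add_mod' κ _
      rw [e]
      exact h2
    · unfold chi
      have e : x.2.1 * m x.1.1 + κ % m x.1.1 = κ := by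
        rw [← h4]
        exact Nat.div_add_mod' κ _
      simp only [e]

end Pool.Agent.Work.MP_c13439_tree.H11Bad

namespace Pool.Agent.Work.MP_c13439_tree

open Finset H11Bad

theorem blk_BAD : Stmt_BAD := by
  classical
  intro m T F _ hm u v huv
  refine ⟨univ.filter fun x => ¬ good u v (T - x.1.1) x.1.1 x.2.1, ?_, ?_, ?_⟩
  · refine ⟨⟨⟨0, by omega⟩, ⟨0, by unfold R; simp⟩⟩, ?_, rfl⟩
    rw [mem_filter]
    refine ⟨mem_univ _, ?_⟩
    intro hg
    have h1 := good_cnt u v hm T 0 0 (by omega) hg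
    have h2 : cnt u v 0 0 = (univ.filter fun y => u y = v y).card := by
      unfold cnt
      rw [bb_zero]
      refine card_bij' (fun j hj => ⟨j, mem_range.1 (mem_filter.1 hj).1⟩) (fun y _ => y.1) ?_ ?_ ?_ ?_
      · intro j hj
        obtain ⟨h1, h2⟩ := mem_filter.1 hj
        rw [Nat.zero_mul, Nat.zero_add] at h2
        obtain ⟨h3, h4⟩ := h2
        rw [mem_filter]
        exact ⟨mem_univ _, h4⟩
      · intro y hy
        rw [mem_filter, mem_range]
        refine ⟨y.2, ?_⟩
        rw [Nat.zero_mul, Nat.zero_add]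
        exact ⟨y.2, (mem_filter.1 hy).2⟩
      · intro j _
        rfl
      · intro y _
        rfl
    rw [h2, bb_zero] at h1
    omega
  · intro x hx hxT
    have hbad : ¬ good u v (T - x.1.1) x.1.1 x.2.1 := (mem_filter.1 hx).2
    obtain ⟨n, hn⟩ : ∃ n, T - x.1.1 = n + 1 := ⟨T - x.1.1 - 1, by omega⟩
    rw [hn] at hbad
    have hbad' : ¬ m x.1.1 < 2 * ((range (m x.1.1)).filter fun i =>
        good u v n (x.1.1 + 1) (x.2.1 * m x.1.1 + i)).card := hbad
    have e1 := card_Chd_filter hm x hxT (fun k => good u v n (x.1.1 + 1) k)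
    have e2 := card_Chd_filter hm x hxT (fun _ => True)
    rw [filter_true, filter_true, card_range] at e2
    have key : ∀ k l ν : ℕ, k = n → l = x.1.1 + 1 →
        (good u v k l ν ↔ good u v n (x.1.1 + 1) ν) := by
      rintro k l ν rfl rfl
      rfl
    have e3 : Chd m T x ∩ (univ.filter fun x => ¬ good u v (T - x.1.1) x.1.1 x.2.1) =
        (Chd m T x).filter fun z => ¬ good u v n (x.1.1 + 1) z.2.1 := by
      ext z
      rw [mem_inter, mem_filter, mem_filter]
      constructor
      · rintro ⟨h1, -, h2⟩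
        refine ⟨h1, ?_⟩
        have h3 : z.1.1 = x.1.1 + 1 := by
          unfold Chd at h1
          exact (mem_filter.1 h1).2.1
        rw [key (T - z.1.1) z.1.1 z.2.1 (by omega) h3] at h2
        exact h2
      · rintro ⟨h1, h2⟩
        refine ⟨h1, mem_univ _, ?_⟩
        have h3 : z.1.1 = x.1.1 + 1 := by
          unfold Chd at h1
          exact (mem_filter.1 h1).2.1
        rw [key (T - z.1.1) z.1.1 z.2.1 (by omega) h3]
        exact h2
    have e4 := card_filter_add_card_filter_not (s := Chd m T x)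
      (fun z => good u v n (x.1.1 + 1) z.2.1)
    rw [e3]
    omega
  · intro x hx hA
    have hbad : ¬ good u v (T - x.1.1) x.1.1 x.2.1 := (mem_filter.1 hx).2
    have hxT : x.1.1 < T + 1 := x.1.2
    obtain ⟨y, hy1, hy2⟩ := bad_leaf u v hm (T - x.1.1) x.1.1 x.2.1 (by omega) x.2.2 hbad
    exact hy2 (hA y hy1)

end Pool.Agent.Work.MP_c13439_tree
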