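import Pool.Agent.Work.MP_c13439_tree.Interface

set_option autoImplicit false

/-!
# Block CODE: Reed-Solomon codes
-/

namespace Pool.Agent.Work.MP_c13439_tree

open Finset Pool.Agent.Work.MP_c13439_an

namespace CODEAux

open Polynomial

/-- Two coefficient vectors whose polynomials agree at `k` points are equal. -/
theorem key (n k q : ℕ) [Fact (Nat.Prime q)] (hnq : n ≤ q) (c c' : Fin k → ZMod q)
    (s : Finset (Fin n)) (hs : k ≤ s.card)
    (h : ∀ y ∈ s, eval ((y : ℕ) : ZMod q) (((degreeLTEquiv (ZMod q) k).symm c : (ZMod q)[X])) =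
      eval ((y : ℕ) : ZMod q) (((degreeLTEquiv (ZMod q) k).symm c' : (ZMod q)[X]))) :
    c = c' := by
  have hinj : Set.InjOn (fun y : Fin n => ((y : ℕ) : ZMod q)) (s : Set (Fin n)) := by
    intro a _ b _ hab
    have hab' : ((a : ℕ) : ZMod q) = ((b : ℕ) : ZMod q) := hab
    rw [ZMod.natCast_eq_natCast_iff'] at hab'
    rw [Nat.mod_eq_of_lt (lt_of_lt_of_le a.2 hnq), Nat.mod_eq_of_lt (lt_of_lt_of_le b.2 hnq)] at hab'
    exact Fin.ext hab'
  have hd : ∀ c : Fin k → ZMod q,
      (((degreeLTEquiv (ZMod q) k).symm c : (ZMod q)[X])).degree < (s.card : WithBot ℕ) := by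
    intro c
    have h1 := mem_degreeLT.1 ((degreeLTEquiv (ZMod q) k).symm c).2
    refine lt_of_lt_of_le h1 ?_
    exact_mod_cast hs
  have := eq_of_degrees_lt_of_eval_index_eq s hinj (hd c) (hd c') h
  have h2 : (degreeLTEquiv (ZMod q) k).symm c = (degreeLTEquiv (ZMod q) k).symm c' :=
    Subtype.ext this
  exact (degreeLTEquiv (ZMod q) k).symm.injective h2

end CODEAux

theorem blk_CODE : Stmt_CODE := by
  classical
  intro n k q hq hk hkn hnq
  haveI : Fact (Nat.Prime q) := ⟨hq⟩
  haveI : NeZero q := ⟨hq.ne_zero⟩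
  have hcard : Fintype.card (ZMod q) = q := ZMod.card q
  let e : ZMod q ≃ Fin q := Fintype.equivFinOfCardEq hcard
  let E : (Fin k → ZMod q) → (Fin n → Fin q) := fun c y =>
    e (Polynomial.eval ((y : ℕ) : ZMod q)
      (((Polynomial.degreeLTEquiv (ZMod q) k).symm c : Polynomial (ZMod q))))
  have hagree : ∀ c c', c ≠ c' → (univ.filter fun y => E c y = E c' y).card < k := by
    intro c c' hcc
    by_contra hlt
    refine hcc (CODEAux.key n k q hnq c c' (univ.filter fun y => E c y = E c' y)
      (not_lt.1 hlt) ?_)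
    intro y hy
    exact e.injective (mem_filter.1 hy).2
  have hinj : Function.Injective E := by
    intro c c' hE
    by_contra hcc
    have h1 := hagree c c' hcc
    rw [hE] at h1
    simp only [filter_true, card_univ, Fintype.card_fin] at h1
    omega
  refine ⟨univ.image E, ?_, ?_⟩
  · rw [card_image_of_injective _ hinj, card_univ, Fintype.card_fun, hcard, Fintype.card_fin]
  · intro u hu v hv huv
    obtain ⟨c, _, rfl⟩ := mem_image.1 hu
    obtain ⟨c', _, rfl⟩ := mem_image.1 hv
    exact hagree c c' (fun h => huv (by rw [h]))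

end Pool.Agent.Work.MP_c13439_tree
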