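import Mathlib
import Pool.Agent.Work.MP_c13439_an.Defs

set_option autoImplicit false

/-!
# Pietsch's pointwise duality conjecture for entropy numbers is false: definitions and blocks

Every block `X` is a proposition `Stmt_X`; its proof on paper is in its comment.
-/

namespace Pool.Agent.Work.MP_c13439_tree

open Finset Pool.Agent.Work.MP_c13439_an

/-- A finite tree of nodes `N` acting on words `W`: `A ν u v` says that `u` and `v` agree
below the node `ν`. -/
structure Sys (W N : Type) where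
  /-- the height -/
  T : ℕ
  /-- the level of a node -/
  lev : N → ℕ
  /-- agreement of two words below a node -/
  A : N → W → W → Prop
  /-- agreement is an equivalence relation -/
  eqv : ∀ ν, Equivalence (A ν)
  /-- the children of a node -/
  ch : N → Finset N
  /-- a node of level `< T` has children -/
  ne : ∀ ν, lev ν < T → (ch ν).Nonempty
  /-- levels of children -/
  lev_ch : ∀ ν κ, κ ∈ ch ν → lev κ = lev ν + 1
  /-- agreement is inherited by children -/
  A_ch : ∀ ν κ u v, κ ∈ ch ν → A ν u v → A κ u v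

section

variable {W N : Type} [DecidableEq N]

/-- A set of nodes is valid if each of its nodes of level `< T` has at least half of its children
in the set. -/
def Valid (S : Sys W N) (β : Finset N) : Prop :=
  ∀ ν ∈ β, S.lev ν < S.T → (S.ch ν).card ≤ 2 * (S.ch ν ∩ β).card

/-- The index set of the tests. -/
def Om (S : Sys W N) : Type := W × {β : Finset N // Valid S β}

noncomputable instance [Fintype W] [Fintype N] (S : Sys W N) : Fintype (Om S) := by
  classical
  unfold Om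
  infer_instance

/-- The test `(u, β)` hits `v` at level `t`: `u` and `v` agree below a node of `β` of level
at most `t`. -/
def Hit (S : Sys W N) (ω : Om S) (t : ℕ) (v : W) : Prop :=
  ∃ ν ∈ ω.2.1, S.lev ν ≤ t ∧ S.A ν ω.1 v

open Classical in
/-- The kernel: `(1/T)` times the number of levels `t < T` at which `ω` hits `v`. -/
noncomputable def ker (S : Sys W N) (ω : Om S) (v : W) : ℝ :=
  (∑ t ∈ range S.T, if Hit S ω t v then (1 : ℝ) else 0) / S.T

end

/-- The nodes of level `< T`. -/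
abbrev Inn {W N : Type} (S : Sys W N) : Type := {ν : N // S.lev ν < S.T}

/-- The labels `(ν, k, i)`: a node of level `< T`, the number `k < K ν` of a heavy content of `ν`,
the number `i < c` of a picked child. -/
abbrev Lab {W N : Type} (S : Sys W N) (K : N → ℕ) (c : ℕ) : Type :=
  (ν : Inn S) × (Fin (K ν.1) × Fin c)

/-! ### PICK (greedy choice of children)
`V` finite, `C` a nonempty finite set (the children), `Ω'` a finite set of pairs with weights
`w ≥ 0`, every `x` has a set `b x` containing at least half of `C`. Then there are `c` elements of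
`C` such that the weight of the `x` with none of them in `b x` is at most `2^(-c)` of the total
weight. Proof: induction on `c`; for the remaining weight function `w' x = w x` if no pick is in
`b x`, else `0`, `∑_κ∈C ∑_x w' x [κ ∈ b x] ≥ (|C|/2) ∑ w'`, so some `κ ∈ C` has
`∑_x w' x [κ ∈ b x] ≥ (1/2) ∑ w'`. (30 - 60 lines) -/
open Classical in
def Stmt_PICK : Prop :=
  ∀ (X V : Type) [Fintype X] (C : Finset V) (b : X → Finset V) (w : X → ℝ) (c : ℕ),
    C.Nonempty → (∀ x, 0 ≤ w x) → (∀ x, 0 < w x → C.card ≤ 2 * (C ∩ b x).card) →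
    ∃ pk : Fin c → V, (∀ i, pk i ∈ C) ∧
      (∑ x, if (∀ i, pk i ∉ b x) then w x else 0) ≤ (1 / 2 : ℝ) ^ c * ∑ x, w x

/-! ### HEAVY
`R` an equivalence relation on the finite type `W`, `f : X → W`, weights `w ≥ 0` with sum `≤ 1`,
`K ≥ 1`. There are `K` words such that every `v` whose class has weight `≥ 1/K` (or `> 0` and
`≥ 1/K`) is related to one of them. Proof: the classes with weight `≥ 1/K` are disjoint, so there
are at most `K` of them; choose one representative of each. (40 - 80 lines) -/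
open Classical in
def Stmt_HEAVY : Prop :=
  ∀ (X W : Type) [Fintype X] [Fintype W] [Nonempty W] (R : W → W → Prop), Equivalence R →
    ∀ (f : X → W) (w : X → ℝ) (K : ℕ), 0 < K → (∀ x, 0 ≤ w x) → ∑ x, w x ≤ 1 →
    ∃ h : Fin K → W, ∀ v : W, (1 / K : ℝ) ≤ (∑ x, if R (f x) v then w x else 0) →
      ∃ k, R (h k) v

section

variable {W N : Type} [Fintype W] [Fintype N] [DecidableEq N]

open Classical in
/-- `a_t(v)`: the weight of the tests which hit `v` at level `t`. -/
noncomputable def aa (S : Sys W N) (w : Om S → ℝ) (t : ℕ) (v : W) : ℝ :=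
  ∑ ω, if Hit S ω t v then w ω else 0

/-- The type of a test: the labels `(ν, k, i)` with `ν ∈ β`, content number `k` of `ν` equal to
that of `u`, and the picked child in `β`. -/
def Typ (S : Sys W N) (K : N → ℕ) (c : ℕ) (h : (ν : Inn S) → Fin (K ν.1) → W)
    (pk : (ν : Inn S) → Fin (K ν.1) → Fin c → N) (ω : Om S) (l : Lab S K c) : Prop :=
  l.1.1 ∈ ω.2.1 ∧ S.A l.1.1 (h l.1 l.2.1) ω.1 ∧ pk l.1 l.2.1 l.2.2 ∈ ω.2.1

open Classical in
/-- The recorded approximation of `a_t(v)`. -/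
noncomputable def aahat (S : Sys W N) (K : N → ℕ) (c : ℕ) (h : (ν : Inn S) → Fin (K ν.1) → W)
    (pk : (ν : Inn S) → Fin (K ν.1) → Fin c → N) (w : Om S → ℝ) (t : ℕ) (v : W) : ℝ :=
  ∑ ω, if (∃ l : Lab S K c, Typ S K c h pk ω l ∧ S.lev l.1.1 ≤ t ∧
      S.A (pk l.1 l.2.1 l.2.2) (h l.1 l.2.1) v) then w ω else 0

end

/-! ### TWO (the two-sided estimate)
For every weight `w ≥ 0` with sum `≤ 1` there are representatives `h` of the heavy contents and
picks `pk` (children) with `a_t - ∑ 1/K ν - ∑ K ν / 2^c ≤ ahat_t ≤ a_(t+1)` for all `t < T`.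
Proof. `h`: HEAVY for each `ν`, with `f ω = ω.1` and the weights `w ω` if `ν ∈ ω.2.1`, else `0`.
`pk`: PICK for each `(ν, k)`, with `C = ch ν`, `b ω = ω.2.1` and the weights `w ω` if `ν ∈ ω.2.1`
and `A ν (h ν k) ω.1`, else `0` (validity of `ω.2` gives the half condition).
Right inequality: if `l = (ν, k, i)` is in the type of `ω` and `A (pk l) (h ν k) v`, then
`A ν (h ν k) ω.1`, hence `A (pk l) (h ν k) ω.1`, hence `A (pk l) ω.1 v`, and `pk l ∈ ω.2.1` has
level `lev ν + 1 ≤ t + 1`.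
Left inequality: let `ω` hit `v` at level `t` by the node `ν`. Either (1) the weight
`∑_{ω' : ν ∈ β', A ν u' v} w ω' < 1/K ν`: for fixed `v` the total weight of such `ω` is
`≤ ∑_ν 1/K ν`; or there is `k` with `A ν (h ν k) v`, then also `A ν (h ν k) ω.1`; either (2) no
`pk ν k i` is in `ω.2.1`: total weight `≤ ∑_{ν, k} 2^(-c)`; or (3) `(ν, k, i)` is in the type of
`ω` and `A (pk ν k i) (h ν k) v`. (100 - 200 lines) -/
def Stmt_TWO : Prop :=
  ∀ (W N : Type) [Fintype W] [Fintype N] [DecidableEq N] [Nonempty W] (S : Sys W N)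
    (K : N → ℕ) (c : ℕ), (∀ ν, 0 < K ν) →
    ∀ w : Om S → ℝ, (∀ ω, 0 ≤ w ω) → ∑ ω, w ω ≤ 1 →
    ∃ (h : (ν : Inn S) → Fin (K ν.1) → W) (pk : (ν : Inn S) → Fin (K ν.1) → Fin c → N),
      (∀ ν k i, pk ν k i ∈ S.ch ν.1) ∧
      ∀ t < S.T, ∀ v : W,
        aa S w t v - (∑ ν : Inn S, (1 / K ν.1 : ℝ)) - (∑ ν : Inn S, (K ν.1 : ℝ)) * (1 / 2) ^ c
            ≤ aahat S K c h pk w t v ∧
        aahat S K c h pk w t v ≤ aa S w (t + 1) v

/-! ### TEL (from the levels to the kernel)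
With `x v = ∑ ω, w ω * ker S ω v = (1/T) ∑_{t<T} a_t(v)` and `xhat v = (1/T) ∑_{t<T} ahat_t(v)`:
`x - e ≤ xhat ≤ x + (∑ w)/T` if `a_t - e ≤ ahat_t ≤ a_(t+1)` for `t < T` (telescoping:
`∑_{t<T} a_(t+1) - ∑_{t<T} a_t = a_T - a_0 ≤ ∑ w`). Here `ahat` is any function.
(20 - 50 lines) -/
def Stmt_TEL : Prop :=
  ∀ (W N : Type) [Fintype W] [Fintype N] [DecidableEq N] (S : Sys W N) (w : Om S → ℝ) (e : ℝ)
    (ah : ℕ → W → ℝ), 0 < S.T → (∀ ω, 0 ≤ w ω) → 0 ≤ e →
    (∀ t < S.T, ∀ v, aa S w t v - e ≤ ah t v ∧ ah t v ≤ aa S w (t + 1) v) →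
    ∀ v, (∑ ω, w ω * ker S ω v) - e ≤ (∑ t ∈ range S.T, ah t v) / S.T ∧
      (∑ t ∈ range S.T, ah t v) / S.T ≤ (∑ ω, w ω * ker S ω v) + (∑ ω, w ω) / S.T

/-! ### NET (counting)
There is a finite family of functions on `W`, of cardinality at most
`(∏_ν (∑_{κ ∈ ch ν} q κ)^(K ν * c)) * (g + 1)^(2^|Lab|)`, `q κ` (any upper bound for) the number of
classes of `A κ`, such that for all `h`, `pk` (picks are children), `w ≥ 0`, `∑ w ≤ 1` the function
`xhat = (1/T) ∑_{t<T} ahat_t` satisfies `xhat - 2^|Lab|/g ≤ F j ≤ xhat` for some member `F j`.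
Proof. `ahat_t(v) = ∑_{L ⊆ Lab} lam L * [∃ l ∈ L, lev l.1 ≤ t, A (pk l) (h l) v]` with
`lam L = ∑_{ω : {l : Typ ω l} = L} w ω ∈ [0, 1]`. Replace `lam L` by `⌊g lam L⌋/g` (at most `g + 1`
values for each of the `2^|Lab|` sets `L`), and `(pk l, h l)` by `pk l ∈ ch ν` together with the
class of `h l` for `A (pk l)`: at most `∑_{κ ∈ ch ν} q κ` possibilities for each label
`l = (ν, k, i)`. Index type of the family:
`((l : Lab) → (κ : {κ // κ ∈ ch l.1}) × Quotient (A κ)) × (Finset Lab → Fin (g + 1))`.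
(100 - 180 lines) -/
def Stmt_NET : Prop :=
  ∀ (W N : Type) [Fintype W] [Fintype N] [DecidableEq N] (S : Sys W N)
    (K : N → ℕ) (c g : ℕ) (q : N → ℕ), 0 < g →
    (∀ κ, ∀ s : Finset W, (∀ u ∈ s, ∀ v ∈ s, S.A κ u v → u = v) → s.card ≤ q κ) →
    ∃ (J : Type) (_ : Fintype J) (F : J → W → ℝ),
      Fintype.card J ≤ (∏ ν : Inn S, (∑ κ ∈ S.ch ν.1, q κ) ^ (K ν.1 * c)) *
        (g + 1) ^ (2 ^ (∑ ν : Inn S, K ν.1 * c)) ∧
      ∀ (h : (ν : Inn S) → Fin (K ν.1) → W) (pk : (ν : Inn S) → Fin (K ν.1) → Fin c → N)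
        (w : Om S → ℝ), (∀ ν k i, pk ν k i ∈ S.ch ν.1) → (∀ ω, 0 ≤ w ω) → ∑ ω, w ω ≤ 1 →
        ∃ j : J, ∀ v : W,
          (∑ t ∈ range S.T, aahat S K c h pk w t v) / S.T
              - (2 : ℝ) ^ (∑ ν : Inn S, K ν.1 * c) / g ≤ F j v ∧
          F j v ≤ (∑ t ∈ range S.T, aahat S K c h pk w t v) / S.T

/-! ### COV (covering of the unit ball, real weights of any sign)
From TWO, TEL, NET, for the positive and the negative part of `w` (which both have sum `≤ 1`, and
whose sums add up to `≤ 1`): difference of two members of the family. (60 - 100 lines) -/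
def Stmt_COV : Prop :=
  ∀ (W N : Type) [Fintype W] [Fintype N] [DecidableEq N] [Nonempty W] (S : Sys W N)
    (K : N → ℕ) (c g : ℕ) (q : N → ℕ), 0 < g → 0 < S.T → (∀ ν, 0 < K ν) →
    (∀ κ, ∀ s : Finset W, (∀ u ∈ s, ∀ v ∈ s, S.A κ u v → u = v) → s.card ≤ q κ) →
    ∃ (J : Type) (_ : Fintype J) (F : J → W → ℝ),
      Fintype.card J ≤ ((∏ ν : Inn S, (∑ κ ∈ S.ch ν.1, q κ) ^ (K ν.1 * c)) *
        (g + 1) ^ (2 ^ (∑ ν : Inn S, K ν.1 * c))) ^ 2 ∧
      ∀ w : Om S → ℝ, ∑ ω, |w ω| ≤ 1 → ∃ j : J, ∀ v : W,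
        |(∑ ω, w ω * ker S ω v) - F j v| ≤ 1 / S.T + (∑ ν : Inn S, (1 / K ν.1 : ℝ))
          + (∑ ν : Inn S, (K ν.1 : ℝ)) * (1 / 2) ^ c + (2 : ℝ) ^ (∑ ν : Inn S, K ν.1 * c) / g

/-! ## The concrete tree -/

/-- `R m t = m 0 * ... * m (t - 1)`, the number of nodes of level `t`. -/
def R (m : ℕ → ℕ) (t : ℕ) : ℕ := ∏ i ∈ range t, m i

/-- The number of leaves below a node of level `t` in the tree of height `T`. -/
def bb (m : ℕ → ℕ) (T t : ℕ) : ℕ := ∏ i ∈ Ico t T, m i

/-- The nodes: pairs (level `≤ T`, number `< R m t`). -/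
abbrev Nd (m : ℕ → ℕ) (T : ℕ) : Type := (t : Fin (T + 1)) × Fin (R m t)

/-- The words over `F`. -/
abbrev Wd (m : ℕ → ℕ) (T : ℕ) (F : Type) : Type := Fin (R m T) → F

/-- Agreement below a node: the leaves below `⟨t, ν⟩` are the `y` with `y / bb m T t = ν`. -/
def Agr (m : ℕ → ℕ) (T : ℕ) (F : Type) (x : Nd m T) (u v : Wd m T F) : Prop :=
  ∀ y : Fin (R m T), y.1 / bb m T x.1.1 = x.2.1 → u y = v y

open Classical in
/-- The children of `⟨t, ν⟩`: the `⟨t + 1, κ⟩` with `κ / m t = ν`. -/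
noncomputable def Chd (m : ℕ → ℕ) (T : ℕ) (x : Nd m T) : Finset (Nd m T) :=
  univ.filter fun z => z.1.1 = x.1.1 + 1 ∧ z.2.1 / m x.1.1 = x.2.1

/-! ### TREE
The concrete tree is a system (`S.T = T`, `S.lev x = x.1`, `S.A = Agr`, `S.ch = Chd`), and
(a) a node of level `t < T` has exactly `m t` children;
(b) a set of words which pairwise disagree below `x` has at most `|F|^(bb m T t)` elements
    (`t` the level of `x`; the fibre `{y : y / bb = ν}` has exactly `bb m T t` elements).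
Arithmetic: `bb m T t = m t * bb m T (t+1)`, `R m t * bb m T t = R m T`,
`y / bb m T (t+1) / m t = y / bb m T t`. (100 - 180 lines) -/
def Stmt_TREE : Prop :=
  ∀ (m : ℕ → ℕ) (T : ℕ) (F : Type) [Fintype F] [DecidableEq F], (∀ t, 0 < m t) →
    ∃ S : Sys (Wd m T F) (Nd m T), S.T = T ∧ (∀ x, S.lev x = x.1.1) ∧ S.A = Agr m T F ∧
      S.ch = Chd m T ∧
      (∀ x : Nd m T, x.1.1 < T → (Chd m T x).card = m x.1.1) ∧
      (∀ x : Nd m T, ∀ s : Finset (Wd m T F),
        (∀ u ∈ s, ∀ v ∈ s, Agr m T F x u v → u = v) → s.card ≤ (Fintype.card F) ^ (bb m T x.1.1))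

/-! ### BAD (separation)
If `2^T * |{y : u y = v y}| < R m T` there is a set `β` of nodes such that: `⟨0, 0⟩ ∈ β`, every
node of `β` of level `< T` has at least half of its children in `β`, and for every `x ∈ β` the
words `u, v` do not agree below `x`.
Proof. `β = {x : ¬ Good x}`, where a leaf (level `T`) is good iff `u = v` there and a node of level
`t < T` is good iff more than half of its children are good, i.e. `m t < 2 * #good children`
(define `Good` by recursion on `T - t`, or define `g(x)` = number of ... as you like). By induction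
on `T - t`: a good node of level `t` has at least `bb m T t / 2^(T-t)` leaves with `u = v` below
it: `bb m T t ≤ 2^(T-t) * #`. So the root is bad. A bad node of level `< T` has at least half of its
children bad, in particular a bad child (`m t > 0`); by induction there is a leaf with `u ≠ v`
below every bad node. (120 - 200 lines) -/
def Stmt_BAD : Prop :=
  ∀ (m : ℕ → ℕ) (T : ℕ) (F : Type) [DecidableEq F], (∀ t, 0 < m t) →
    ∀ u v : Wd m T F, 2 ^ T * (univ.filter fun y => u y = v y).card < R m T →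
    ∃ β : Finset (Nd m T), (∃ x ∈ β, x.1.1 = 0) ∧
      (∀ x ∈ β, x.1.1 < T → (Chd m T x).card ≤ 2 * (Chd m T x ∩ β).card) ∧
      ∀ x ∈ β, ¬ Agr m T F x u v

/-! ### CODE (Reed-Solomon)
For every `n`, `k ≤ n` and every prime `q ≥ n` there are `q^k` functions `Fin n → ZMod q`, two
different ones agree in fewer than `k` places (if `0 < k`). Proof: polynomials of degree `< k`,
evaluated at the distinct points `0, ..., n - 1`; a nonzero polynomial of degree `< k` has `< k`
roots. (40 - 80 lines) -/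
def Stmt_CODE : Prop :=
  ∀ (n k q : ℕ), Nat.Prime q → 0 < k → k ≤ n → n ≤ q →
    ∃ C : Finset (Fin n → Fin q), C.card = q ^ k ∧
      ∀ u ∈ C, ∀ v ∈ C, u ≠ v → (univ.filter fun y => u y = v y).card < k

/-! ### PAR (parameters)
With `m t = 2^(a 2^t)` we have `R m t = 2^(a (2^t - 1))`, `bb m T t * R m t = R m T`. Put
`K t = T s R_t` (as a function of the level), `c = a 2^(T+1) + T^2 s^2`. For given `T, s, B ≥ 1`
there is `a ≥ 1` such that
(1) `∑_{t<T} R_t / K_t ≤ 1/s`; (2) `(∑_{t<T} R_t K_t) * 2^(-c) ≤ 1/s`;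
(3) with `E = ∑_{t<T} R_t K_t c bb_(t+1)` : `2^T * B * (E + 1) ≤ R m T`.
Proof. (1) is equality up to `∑ 1/(Ts)`. (2) `∑ R_t K_t = T s ∑ R_t^2 ≤ T^2 s 2^(a 2^(T+1))` and
`s * T^2 s ≤ 2^(T^2 s^2)`. (3) `R_t K_t c bb_(t+1) = T s c R_t^2 R_T / R_(t+1)
= T s c R_T / 2^a` since `R_(t+1) = 2^a R_t^2`; so `E = T^2 s c R_T / 2^a`, and
`2^a / (2^T B) ≥ T^2 s c + 1` for large `a` (also `2^a ≤ R_T` if `T ≥ 1`). (60 - 120 lines) -/
def Stmt_PAR : Prop :=
  ∀ (T s B : ℕ), 0 < T → 0 < s → 0 < B → ∃ (m : ℕ → ℕ) (K : ℕ → ℕ) (c : ℕ),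
    (∀ t, 0 < m t) ∧ (∀ t, 0 < K t) ∧
    (∑ t ∈ range T, (R m t : ℝ) / K t ≤ 1 / s) ∧
    (∑ t ∈ range T, (R m t : ℝ) * K t) * (1 / 2) ^ c ≤ 1 / s ∧
    2 ^ T * B * ((∑ t ∈ range T, R m t * K t * c * bb m T (t + 1)) + 1) ≤ R m T

/-! ### CORE
For every `η > 0` and `B` there are a finite kernel `y : Om → Z → [0,1]`, `n`, a family of `2^n`
real functions on `Z` which is an `η`-net of `{∑ w y : ∑ |w| ≤ 1}` in the sup norm, and more than
`2^(B (n + 1))` points of `Z` any two of which are separated by a test with values `1`, `0`.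
Proof. `T, s` with `1/T + 3/s ≤ η`; `m, K, c` from PAR (with `2 B'`, see below, instead of `B`);
`S` from TREE over `F = Fin q`, `K x = K (level)`, `g = s * 2^(∑ K c)`; the number of members of the
family of COV is at most `((∏_{t<T} (m_t q^(bb_(t+1)))^(R_t K_t c)) * (g+1)^(2^..))^2 =
const * q^(2E)` where `const` and `E` do not depend on `q`. `n` = the least integer with
`card J ≤ 2^n`, so `2^(n-1) < card J` or `n = 0`. Code (CODE) of dimension
`k = ⌈R_T / 2^T⌉` (so `2^T * (k-1) < R_T`, two words agree in `≤ k - 1` places, BAD applies), of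
cardinality `q^k`; PAR with `B' = 4 B` gives `k ≥ 4 B (E + 1)`, hence
`2^(B(n+1)) ≤ (4 const)^B q^(2 B E) < q^k` for a prime `q` large enough
(`q ≥ R_T`, `q > (4 const)^B + 1`). The test for `u ≠ v` in the code is `(u, β)`, `β` from BAD:
`ker = 1` at `u` (the node of level `0`), `0` at `v`. (150 - 250 lines) -/
def Stmt_CORE : Prop :=
  ∀ (η : ℝ) (B : ℕ), 0 < η → ∃ (O Z : Type) (_ : Fintype O) (_ : Fintype Z) (y : O → Z → ℝ)
    (n : ℕ) (F : Fin (2 ^ n) → Z → ℝ) (C : Fin (2 ^ (B * (n + 1)) + 1) → Z),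
    (∀ ω z, 0 ≤ y ω z ∧ y ω z ≤ 1) ∧
    (∀ w : O → ℝ, ∑ ω, |w ω| ≤ 1 → ∃ j, ∀ z, |(∑ ω, w ω * y ω z) - F j z| ≤ η) ∧
    (∀ i j, i ≠ j → ∃ ω, y ω (C i) = 1 ∧ y ω (C j) = 0)

/-! ## Operators -/

section Operators

variable (𝕜 : Type) [RCLike 𝕜]

/-- The operator `l_1(O) → l_infty(Z)` with kernel `y`. -/
noncomputable def opT {O Z : Type} [Fintype O] [Fintype Z] (y : O → Z → ℝ) :
    (PiLp 1 (fun _ : O => 𝕜)) →L[𝕜] (Z → 𝕜) :=
  LinearMap.toContinuousLinearMap
    { toFun := fun x z => ∑ ω, x ω * (y ω z : 𝕜)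
      map_add' := by
        intro x x'
        funext z
        simp [add_mul, Finset.sum_add_distrib]
      map_smul' := by
        intro r x
        funext z
        simp [Finset.mul_sum, mul_assoc] }

end Operators

/-! ### OPU (upper bounds). `y : O → Z → [0,1]`, `F` an `η`-net as in CORE with `2^n` members.
(a) `e_{2n}(opT y) ≤ 2 η` (index `2 n`, i.e. `2^(2n)` balls): `x = x1 + i x2` with real `x1, x2`,
`∑ |x1| ≤ 1`, `∑ |x2| ≤ 1`; centres `F j1 + i F j2`.
(b) for the transposed kernel `yt z ω = y ω z` the same bound for the ADJOINT of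
`opT yt : l_1(Z) → l_infty(O)`: for a functional `f` of norm `≤ 1` on `O → 𝕜` put
`f_ω = f (e_ω)`, `∑ |f_ω| ≤ 1`; `(opT yt)* f` is the functional `x ↦ ∑_z x_z ∑_ω f_ω y ω z` on
`l_1(Z)`, and the functional `x ↦ ∑_z x_z g_z` has norm `≤ sup |g_z|`. (150 - 250 lines) -/
def Stmt_OPU : Prop :=
  ∀ (𝕜 : Type) [RCLike 𝕜] (O Z : Type) [Fintype O] [Fintype Z] (y : O → Z → ℝ) (η : ℝ) (n : ℕ)
    (F : Fin (2 ^ n) → Z → ℝ), 0 < η →
    (∀ w : O → ℝ, ∑ ω, |w ω| ≤ 1 → ∃ j, ∀ z, |(∑ ω, w ω * y ω z) - F j z| ≤ η) →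
    entropyNumber (opT 𝕜 y) (2 * n) ≤ 2 * η ∧
    entropyNumber (adjointMap (opT 𝕜 (fun z ω => y ω z))) (2 * n) ≤ 2 * η

/-! ### OPL (lower bounds). If more than `2^M` points `C i` are pairwise separated by tests
(values `1`, `0`), then (a) `e(adjoint of opT y)` and (b) `e(opT yt)` with `2^M` balls are
`≥ 1/2`: (a) the evaluations at the points `C i` are functionals of norm `≤ 1` on `Z → 𝕜`, and
`‖(opT y)*(ev_i - ev_j)‖ ≥ |(ev_i - ev_j)(opT y e_ω)| = |y ω (C i) - y ω (C j)| = 1`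
(`e_ω` the unit vector, norm `1` in `l_1`); pigeonhole: two of them in one ball of radius `ε`
gives `1 ≤ 2 ε`. (b) the same with the unit vectors `e_{C i}` of `l_1(Z)` and the sup norm.
Note that `y ω z` in `[0,1]` is not needed. The set of admissible `ε` in the definition of
`entropyNumber` has to be nonempty for `le_csInf`: large `ε`. (120 - 200 lines) -/
def Stmt_OPL : Prop :=
  ∀ (𝕜 : Type) [RCLike 𝕜] (O Z : Type) [Fintype O] [Fintype Z] (y : O → Z → ℝ) (M : ℕ)
    (C : Fin (2 ^ M + 1) → Z), (∀ i j, i ≠ j → ∃ ω, y ω (C i) = 1 ∧ y ω (C j) = 0) →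
    1 / 2 ≤ entropyNumber (adjointMap (opT 𝕜 y)) M ∧
    1 / 2 ≤ entropyNumber (opT 𝕜 (fun z ω => y ω z)) M

end Pool.Agent.Work.MP_c13439_tree
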