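import Mathlib
import Pool.Agent.Work.MP_c13439_tree.Interface

set_option autoImplicit false

/-!
# Block CORE
-/

namespace Pool.Agent.Work.MP_c13439_tree

open Finset

namespace CoreBlk

/-- Products over the inner nodes. -/
lemma prod_inn {M : Type} [CommMonoid M] (m : ℕ → ℕ) (T : ℕ) (F : Type)
    (S : Sys (Wd m T F) (Nd m T)) (hT : S.T = T) (hlev : ∀ x, S.lev x = x.1.1) (f : ℕ → M) :
    ∏ ν : Inn S, f ν.1.1.1 = ∏ t ∈ range T, (f t) ^ (R m t) := by
  classical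
  have h1 : ∏ ν : Inn S, f ν.1.1.1
      = ∏ ν ∈ (univ : Finset (Nd m T)).filter (fun ν => S.lev ν < S.T), f ν.1.1 := by
    rw [Finset.prod_subtype ((univ : Finset (Nd m T)).filter (fun ν => S.lev ν < S.T))
      (p := fun ν => S.lev ν < S.T) (by intro x; simp) (fun ν => f ν.1.1)]
  rw [h1, Finset.prod_filter]
  have h2 : (∏ a : Nd m T, if S.lev a < S.T then f a.1.1 else 1)
      = ∏ a : Nd m T, (if a.1.1 < T then f a.1.1 else 1) := by
    refine Finset.prod_congr rfl fun a _ => ?_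
    rw [hlev, hT]
  rw [h2, Fintype.prod_sigma]
  have h3 : ∀ t : Fin (T + 1), (∏ _y : Fin (R m t), (if t.1 < T then f t.1 else 1))
      = (fun t : ℕ => (if t < T then f t else 1) ^ (R m t)) t.1 := by
    intro t
    simp
  rw [Finset.prod_congr rfl fun t _ => h3 t]
  rw [Fin.prod_univ_eq_prod_range (fun t : ℕ => (if t < T then f t else 1) ^ (R m t)) (T + 1)]
  rw [Finset.prod_range_succ]
  simp only [lt_irrefl, if_false, one_pow, mul_one]
  refine Finset.prod_congr rfl fun t ht => ?_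
  rw [if_pos (Finset.mem_range.1 ht)]

/-- Sums over the inner nodes. -/
lemma sum_inn {M : Type} [AddCommMonoid M] (m : ℕ → ℕ) (T : ℕ) (F : Type)
    (S : Sys (Wd m T F) (Nd m T)) (hT : S.T = T) (hlev : ∀ x, S.lev x = x.1.1) (f : ℕ → M) :
    ∑ ν : Inn S, f ν.1.1.1 = ∑ t ∈ range T, (R m t) • f t :=
  prod_inn (M := Multiplicative M) m T F S hT hlev f

/-- The kernel takes its values in `[0, 1]`. -/
lemma ker_mem {W N : Type} [DecidableEq N] (S : Sys W N) (ω : Om S) (v : W) :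
    0 ≤ ker S ω v ∧ ker S ω v ≤ 1 := by
  classical
  unfold ker
  constructor
  · refine div_nonneg (Finset.sum_nonneg fun t _ => ?_) (Nat.cast_nonneg _)
    split_ifs <;> norm_num
  · refine div_le_one_of_le₀ ?_ (Nat.cast_nonneg _)
    calc (∑ t ∈ range S.T, if Hit S ω t v then (1 : ℝ) else 0)
        ≤ ∑ t ∈ range S.T, (1 : ℝ) := by
          refine Finset.sum_le_sum fun t _ => ?_
          split_ifs <;> norm_num
      _ = S.T := by simp

lemma ker_one {W N : Type} [DecidableEq N] (S : Sys W N) (ω : Om S) (hT : 0 < S.T)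
    (x : N) (hx : x ∈ ω.2.1) (h0 : S.lev x = 0) : ker S ω ω.1 = 1 := by
  classical
  unfold ker
  have : (∑ t ∈ range S.T, if Hit S ω t ω.1 then (1 : ℝ) else 0) = ∑ t ∈ range S.T, (1 : ℝ) := by
    refine Finset.sum_congr rfl fun t _ => ?_
    rw [if_pos]
    exact ⟨x, hx, by omega, (S.eqv x).refl _⟩
  rw [this]
  have hT' : (S.T : ℝ) ≠ 0 := by exact_mod_cast hT.ne'
  simp [hT']

lemma ker_zero {W N : Type} [DecidableEq N] (S : Sys W N) (ω : Om S) (v : W)
    (h : ∀ x ∈ ω.2.1, ¬ S.A x ω.1 v) : ker S ω v = 0 := by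
  classical
  unfold ker
  have : (∑ t ∈ range S.T, if Hit S ω t v then (1 : ℝ) else 0) = 0 := by
    refine Finset.sum_eq_zero fun t _ => ?_
    rw [if_neg]
    rintro ⟨x, hx, _, hA⟩
    exact h x hx hA
  rw [this, zero_div]

/-- The number `n`. -/
lemma exists_n (X : ℕ) (hX : 0 < X) : ∃ n : ℕ, X ≤ 2 ^ n ∧ 2 ^ (n + 1) ≤ 4 * X := by
  refine ⟨Nat.clog 2 X, Nat.le_pow_clog (by norm_num) X, ?_⟩
  rcases Nat.lt_or_ge 1 X with h | h
  · have h1 : 2 ^ (Nat.clog 2 X - 1) < X := Nat.pow_pred_clog_lt_self (by norm_num) h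
    have h2 : 0 < Nat.clog 2 X := Nat.clog_pos (by norm_num) h
    have h3 : 2 ^ (Nat.clog 2 X + 1) = 4 * 2 ^ (Nat.clog 2 X - 1) := by
      obtain ⟨j, hj⟩ : ∃ j, Nat.clog 2 X = j + 1 := ⟨Nat.clog 2 X - 1, by omega⟩
      rw [hj]
      simp only [Nat.add_sub_cancel]
      ring
    rw [h3]
    omega
  · have hX1 : X = 1 := by omega
    subst hX1
    simp

end CoreBlk

open CoreBlk

theorem blk_CORE (hCOV : Stmt_COV) (hTREE : Stmt_TREE) (hBAD : Stmt_BAD) (hCODE : Stmt_CODE)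
    (hPAR : Stmt_PAR) : Stmt_CORE := by
  classical
  intro η B hη
  -- the numbers `T = s`
  obtain ⟨s, hs0, hs⟩ : ∃ s : ℕ, 0 < s ∧ 4 / (s : ℝ) ≤ η := by
    obtain ⟨s, hs⟩ := exists_nat_gt (4 / η)
    have hs' : 0 < (s : ℝ) := lt_trans (by positivity) hs
    refine ⟨s, by exact_mod_cast hs', ?_⟩
    rw [div_le_iff₀ hs']
    rw [div_lt_iff₀ hη] at hs
    linarith
  obtain ⟨m, K, c, hm, hK, hp1, hp2, hp3⟩ := hPAR s s (2 * B + 1) hs0 hs0 (by omega)
  set E : ℕ := ∑ t ∈ range s, R m t * K t * c * bb m s (t + 1) with hE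
  set L : ℕ := ∑ t ∈ range s, R m t * (K t * c) with hL
  set P : ℕ := ∏ t ∈ range s, (m t ^ (K t * c)) ^ (R m t) with hP
  set g : ℕ := s * 2 ^ L with hg
  set D : ℕ := P * (g + 1) ^ (2 ^ L) with hD
  have hP0 : 0 < P := Finset.prod_pos fun t _ => by
    have := hm t
    positivity
  have hg0 : 0 < g := by positivity
  have hD0 : 0 < D := by positivity
  -- the prime
  obtain ⟨q, hq, hqp⟩ := Nat.exists_infinite_primes (max (R m s) ((4 * D ^ 2) ^ B + 1))
  have hqR : R m s ≤ q := le_trans (le_max_left _ _) hq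
  have hqD : (4 * D ^ 2) ^ B + 1 ≤ q := le_trans (le_max_right _ _) hq
  have hq0 : 0 < q := hqp.pos
  obtain ⟨S, hST, hSlev, hSA, hSch, hcard, hsep⟩ := hTREE m s (Fin q) hm
  haveI : Nonempty (Fin q) := ⟨⟨0, hq0⟩⟩
  have hsumL : ∑ ν : Inn S, K ν.1.1.1 * c = L := by
    rw [sum_inn m s (Fin q) S hST hSlev (fun t => K t * c)]
    simp [hL]
  obtain ⟨J, hJ, F, hJcard, hF⟩ := hCOV (Wd m s (Fin q)) (Nd m s) S (fun x => K x.1.1) c g
    (fun x => q ^ bb m s x.1.1) hg0 (by rw [hST]; exact hs0) (fun ν => hK _) (by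
      intro κ u hu
      have := hsep κ u (by rw [hSA] at hu; exact hu)
      simpa using this)
  -- the cardinality of `J`
  have hprod : (∏ ν : Inn S, (∑ κ ∈ S.ch ν.1, q ^ bb m s κ.1.1) ^ (K ν.1.1.1 * c))
      = P * q ^ E := by
    have h1 : ∀ ν : Inn S, (∑ κ ∈ S.ch ν.1, q ^ bb m s κ.1.1) ^ (K ν.1.1.1 * c)
        = (fun t : ℕ => (m t * q ^ bb m s (t + 1)) ^ (K t * c)) ν.1.1.1 := by
      intro ν
      have h2 : ∑ κ ∈ S.ch ν.1, q ^ bb m s κ.1.1 = ∑ κ ∈ S.ch ν.1, q ^ bb m s (ν.1.1.1 + 1) := by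
        refine Finset.sum_congr rfl fun κ hκ => ?_
        have := S.lev_ch ν.1 κ hκ
        rw [hSlev, hSlev] at this
        rw [this]
      have hν : ν.1.1.1 < s := by
        have h := ν.2
        have h1 := hSlev ν.1
        rw [h1] at h
        omega
      rw [h2, Finset.sum_const, hSch, hcard ν.1 hν, smul_eq_mul]
    rw [Finset.prod_congr rfl fun ν _ => h1 ν]
    rw [prod_inn m s (Fin q) S hST hSlev (fun t : ℕ => (m t * q ^ bb m s (t + 1)) ^ (K t * c))]
    rw [hP, hE, ← Finset.prod_pow_eq_pow_sum, ← Finset.prod_mul_distrib]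
    refine Finset.prod_congr rfl fun t _ => ?_
    rw [mul_pow, mul_pow]
    congr 1
    rw [← pow_mul, ← pow_mul]
    congr 1
    ring
  have hJX : Fintype.card J ≤ (D * q ^ E) ^ 2 := by
    refine le_trans hJcard (le_of_eq ?_)
    simp only [hsumL]
    rw [hprod, hD]
    ring
  obtain ⟨n, hn1, hn2⟩ := exists_n ((D * q ^ E) ^ 2) (by positivity)
  -- the number of words
  have hbig : 2 ^ (B * (n + 1)) + 1 ≤ q ^ ((2 * B + 1) * (E + 1)) := by
    have h1 : 2 ^ (B * (n + 1)) ≤ (4 * D ^ 2) ^ B * q ^ (2 * B * E) := by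
      calc 2 ^ (B * (n + 1)) = (2 ^ (n + 1)) ^ B := by rw [← pow_mul]; congr 1; ring
        _ ≤ (4 * (D * q ^ E) ^ 2) ^ B := Nat.pow_le_pow_left hn2 _
        _ = (4 * D ^ 2) ^ B * q ^ (2 * B * E) := by
          rw [mul_pow D, ← mul_assoc, mul_pow (4 * D ^ 2), ← pow_mul, ← pow_mul]
          congr 2
          ring
    have h2 : q * q ^ (2 * B * E) ≤ q ^ ((2 * B + 1) * (E + 1)) := by
      rw [← pow_succ']
      refine Nat.pow_le_pow_right hq0 ?_
      nlinarith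
    have h3 : 1 ≤ q ^ (2 * B * E) := Nat.one_le_pow _ _ hq0
    calc 2 ^ (B * (n + 1)) + 1 ≤ (4 * D ^ 2) ^ B * q ^ (2 * B * E) + q ^ (2 * B * E) := by omega
      _ = ((4 * D ^ 2) ^ B + 1) * q ^ (2 * B * E) := by ring
      _ ≤ q * q ^ (2 * B * E) := Nat.mul_le_mul_right _ hqD
      _ ≤ _ := h2
  -- the code
  have hk0 : 0 < (2 * B + 1) * (E + 1) := by positivity
  have h2T : 2 ^ s * ((2 * B + 1) * (E + 1)) ≤ R m s := by
    calc 2 ^ s * ((2 * B + 1) * (E + 1)) = 2 ^ s * (2 * B + 1) * (E + 1) := by ring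
      _ ≤ R m s := hp3
  have hkR : (2 * B + 1) * (E + 1) ≤ R m s :=
    le_trans (Nat.le_mul_of_pos_left _ (by positivity)) h2T
  obtain ⟨𝒞, hCcard, hCsep⟩ := hCODE (R m s) ((2 * B + 1) * (E + 1)) q hqp hk0 hkR hqR
  obtain ⟨e⟩ : Nonempty (Fin (2 ^ (B * (n + 1)) + 1) ↪ {x // x ∈ 𝒞}) := by
    refine Function.Embedding.nonempty_of_card_le ?_
    rw [Fintype.card_fin, Fintype.card_coe, hCcard]
    exact hbig
  -- the family
  haveI : Nonempty J := by
    obtain ⟨j, _⟩ := hF (fun _ => 0) (by simp)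
    exact ⟨j⟩
  obtain ⟨φ⟩ : Nonempty (J ↪ Fin (2 ^ n)) := by
    refine Function.Embedding.nonempty_of_card_le ?_
    rw [Fintype.card_fin]
    exact le_trans hJX hn1
  refine ⟨Om S, Wd m s (Fin q), inferInstance, inferInstance, ker S, n,
    fun i => F (Function.invFun φ i), fun i => (e i).1, fun ω z => ker_mem S ω z, ?_, ?_⟩
  · intro w hw
    obtain ⟨j, hj⟩ := hF w hw
    obtain ⟨i, hi⟩ := Function.invFun_surjective φ.injective j
    refine ⟨i, fun z => ?_⟩
    change |(∑ ω, w ω * ker S ω z) - F (Function.invFun φ i) z| ≤ η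
    rw [hi]
    refine le_trans (hj z) ?_
    have e1 : (∑ ν : Inn S, (1 / (K ν.1.1.1 : ℝ))) ≤ 1 / s := by
      rw [sum_inn m s (Fin q) S hST hSlev (fun t => (1 / (K t : ℝ)))]
      refine le_trans (le_of_eq ?_) hp1
      refine Finset.sum_congr rfl fun t _ => ?_
      rw [nsmul_eq_mul]
      ring
    have e2 : (∑ ν : Inn S, (K ν.1.1.1 : ℝ)) * (1 / 2) ^ c ≤ 1 / s := by
      rw [sum_inn m s (Fin q) S hST hSlev (fun t => (K t : ℝ))]
      refine le_trans (le_of_eq ?_) hp2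
      congr 1
      refine Finset.sum_congr rfl fun t _ => ?_
      rw [nsmul_eq_mul]
    have e3 : (2 : ℝ) ^ (∑ ν : Inn S, K ν.1.1.1 * c) / g = 1 / s := by
      rw [hsumL, hg]
      push_cast
      have : (s : ℝ) ≠ 0 := by exact_mod_cast hs0.ne'
      field_simp
    have e4 : (1 : ℝ) / S.T = 1 / s := by rw [hST]
    have e5 : (1 : ℝ) / s + 1 / s + 1 / s + 1 / s = 4 / s := by ring
    rw [e3, e4]
    linarith
  · intro i j hij
    have hne : (e i).1 ≠ (e j).1 := fun h => hij (e.injective (Subtype.ext h))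
    have hag := hCsep (e i).1 (e i).2 (e j).1 (e j).2 hne
    obtain ⟨β, ⟨x, hx, hx0⟩, hβ1, hβ2⟩ := hBAD m s (Fin q) hm (e i).1 (e j).1 (by
      refine lt_of_lt_of_le ?_ h2T
      exact Nat.mul_lt_mul_of_pos_left hag (by positivity))
    have hval : Valid S β := by
      intro ν hν hlt
      rw [hSlev, hST] at hlt
      rw [hSch]
      exact hβ1 ν hν hlt
    let ω : Om S := ((e i).1, ⟨β, hval⟩)
    refine ⟨ω, ?_, ?_⟩
    · exact ker_one S ω (by rw [hST]; exact hs0) x hx (by rw [hSlev]; exact hx0)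
    · refine ker_zero S ω (e j).1 ?_
      intro y hy hA
      rw [hSA] at hA
      exact hβ2 y hy hA

end Pool.Agent.Work.MP_c13439_tree
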