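import Pool.Agent.Work.MP_c13439_tree.Interface

set_option autoImplicit false

/-!
# Block COV: covering of the unit ball
-/

namespace Pool.Agent.Work.MP_c13439_tree

open Finset

theorem blk_COV (hTWO : Stmt_TWO) (hTEL : Stmt_TEL) (hNET : Stmt_NET) : Stmt_COV := by
  intro W N _ _ _ _ S K c g q hg hT hK hq
  obtain ⟨J, hJ, F, hcard, hF⟩ := hNET W N S K c g q hg hq
  refine ⟨J × J, inferInstance, fun j v => F j.1 v - F j.2 v, ?_, ?_⟩
  · rw [Fintype.card_prod, ← pow_two]
    exact Nat.pow_le_pow_left hcard 2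
  · intro w hw
    set e : ℝ := (∑ ν : Inn S, (1 / K ν.1 : ℝ)) + (∑ ν : Inn S, (K ν.1 : ℝ)) * (1 / 2) ^ c with he
    set δ : ℝ := (2 : ℝ) ^ (∑ ν : Inn S, K ν.1 * c) / g with hδ
    have he0 : 0 ≤ e := by
      rw [he]
      positivity
    have hTr : (0 : ℝ) < S.T := by exact_mod_cast hT
    have one : ∀ w' : Om S → ℝ, (∀ ω, 0 ≤ w' ω) → ∑ ω, w' ω ≤ 1 → ∃ j : J, ∀ v : W,
        (∑ ω, w' ω * ker S ω v) - e - δ ≤ F j v ∧
        F j v ≤ (∑ ω, w' ω * ker S ω v) + (∑ ω, w' ω) / S.T := by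
      intro w' h0 h1
      obtain ⟨h, pk, hpk, hb⟩ := hTWO W N S K c hK w' h0 h1
      obtain ⟨j, hj⟩ := hF h pk w' hpk h0 h1
      have ht := hTEL W N S w' e (aahat S K c h pk w') hT h0 he0 (by
        intro t ht v
        obtain ⟨a1, a2⟩ := hb t ht v
        refine ⟨?_, a2⟩
        rw [he]
        linarith)
      refine ⟨j, fun v => ?_⟩
      obtain ⟨b1, b2⟩ := hj v
      obtain ⟨c1, c2⟩ := ht v
      constructor
      · linarith
      · linarith
    have hp0 : ∀ ω, 0 ≤ max (w ω) 0 := fun ω => le_max_right _ _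
    have hn0 : ∀ ω, 0 ≤ max (-w ω) 0 := fun ω => le_max_right _ _
    have habs : ∀ ω, max (w ω) 0 + max (-w ω) 0 = |w ω| := by
      intro ω
      rcases le_total 0 (w ω) with h | h
      · rw [max_eq_left h, max_eq_right (by linarith), abs_of_nonneg h, add_zero]
      · rw [max_eq_right h, max_eq_left (by linarith), abs_of_nonpos h, zero_add]
    have hsub : ∀ ω, max (w ω) 0 - max (-w ω) 0 = w ω := by
      intro ω
      rcases le_total 0 (w ω) with h | h
      · rw [max_eq_left h, max_eq_right (by linarith), sub_zero]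
      · rw [max_eq_right h, max_eq_left (by linarith), zero_sub, neg_neg]
    have hsum : (∑ ω, max (w ω) 0) + (∑ ω, max (-w ω) 0) = ∑ ω, |w ω| := by
      rw [← sum_add_distrib]
      exact sum_congr rfl fun ω _ => habs ω
    have hps : 0 ≤ ∑ ω, max (w ω) 0 := sum_nonneg fun ω _ => hp0 ω
    have hns : 0 ≤ ∑ ω, max (-w ω) 0 := sum_nonneg fun ω _ => hn0 ω
    obtain ⟨j1, h1⟩ := one (fun ω => max (w ω) 0) hp0 (by linarith)
    obtain ⟨j2, h2⟩ := one (fun ω => max (-w ω) 0) hn0 (by linarith)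
    refine ⟨(j1, j2), fun v => ?_⟩
    obtain ⟨a1, a2⟩ := h1 v
    obtain ⟨b1, b2⟩ := h2 v
    have hx : ∑ ω, w ω * ker S ω v =
        (∑ ω, max (w ω) 0 * ker S ω v) - ∑ ω, max (-w ω) 0 * ker S ω v := by
      rw [← sum_sub_distrib]
      refine sum_congr rfl fun ω _ => ?_
      rw [← sub_mul, hsub]
    have hT1 : (∑ ω, max (w ω) 0) / (S.T : ℝ) ≤ 1 / S.T :=
      div_le_div_of_nonneg_right (by linarith) hTr.le
    have hT2 : (∑ ω, max (-w ω) 0) / (S.T : ℝ) ≤ 1 / S.T :=
      div_le_div_of_nonneg_right (by linarith) hTr.le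
    rw [hx, abs_le]
    constructor
    · simp only
      linarith
    · simp only
      linarith

end Pool.Agent.Work.MP_c13439_tree
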