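import Pool.Agent.Work.MP_c13439_tree.Interface2

set_option autoImplicit false

/-!
# Block FIN: entropy numbers of operators between finite-dimensional spaces tend to zero
-/

namespace Pool.Agent.Work.MP_c13439_tree

open Finset Pool.Agent.Work.MP_c13439_an

namespace FINAux

theorem small {𝕜 X Y : Type*} [RCLike 𝕜] [NormedAddCommGroup X] [NormedSpace 𝕜 X]
    [NormedAddCommGroup Y] [NormedSpace 𝕜 Y] [FiniteDimensional 𝕜 Y]
    (S : X →L[𝕜] Y) (ε : ℝ) (hε : 0 < ε) : ∃ N : ℕ, entropyNumber S N ≤ ε := by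
  classical
  haveI : ProperSpace Y := FiniteDimensional.proper 𝕜 Y
  have hc : IsCompact (Metric.closedBall (0 : Y) ‖S‖) := isCompact_closedBall _ _
  obtain ⟨t, ht, hcov⟩ := (Metric.totallyBounded_iff.1 hc.totallyBounded) ε hε
  set t' : Finset Y := ht.toFinset with ht'
  have hcard : Fintype.card t' ≤ 2 ^ t'.card := by
    rw [Fintype.card_coe]
    exact (Nat.lt_two_pow_self).le
  obtain ⟨w, hw⟩ := reindex (E := Y) (2 ^ t'.card) hcard (fun i : t' => (i : Y))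
  refine ⟨t'.card, ent_le S _ ε hε w fun x hx => ?_⟩
  have h1 : S x ∈ Metric.closedBall (0 : Y) ‖S‖ := by
    rw [Metric.mem_closedBall, dist_zero_right]
    calc ‖S x‖ ≤ ‖S‖ * ‖x‖ := S.le_opNorm x
      _ ≤ ‖S‖ * 1 := mul_le_mul_of_nonneg_left hx (norm_nonneg _)
      _ = ‖S‖ := mul_one _
  obtain ⟨y, hy, hxy⟩ := Set.mem_iUnion₂.1 (hcov h1)
  have hyt : y ∈ t' := by rw [ht']; simpa using hy
  obtain ⟨j, hj⟩ := hw ⟨y, hyt⟩
  refine ⟨j, ?_⟩
  rw [hj]
  rw [Metric.mem_ball, dist_eq_norm] at hxy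
  exact hxy.le

end FINAux

theorem blk_FIN : Stmt_FIN := by
  intro 𝕜 _ X Y _ _ _ _ _ _ S ε hε
  obtain ⟨N₁, h₁⟩ := FINAux.small S ε hε
  haveI : FiniteDimensional 𝕜 (X →L[𝕜] 𝕜) := inferInstance
  obtain ⟨N₂, h₂⟩ := FINAux.small (adjointMap S) ε hε
  exact ⟨max N₁ N₂, (ent_anti S (le_max_left _ _)).trans h₁,
    (ent_anti (adjointMap S) (le_max_right _ _)).trans h₂⟩

end Pool.Agent.Work.MP_c13439_tree
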