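import Pool.Agent.Work.MP_c13439_tree.Interface

namespace Pool.Agent.Work.MP_c13439_tree

open Finset

theorem blk_HEAVY : Stmt_HEAVY := by
  classical
  intro X W _ _ _ R hR f w K hK hw hsum
  let s : Setoid W := ⟨R, hR⟩
  let Q := Quotient s
  -- weight of a class
  let wt : Q → ℝ := fun q => ∑ x, if (Quotient.mk s (f x)) = q then w x else 0
  let H : Finset Q := univ.filter fun q => (1 / K : ℝ) ≤ wt q
  have hK0 : (0 : ℝ) < K := by exact_mod_cast hK
  have htot : ∑ q : Q, wt q ≤ 1 := by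
    have : ∑ q : Q, wt q = ∑ x, w x := by
      simp only [wt]
      rw [Finset.sum_comm]
      refine Finset.sum_congr rfl fun x _ => ?_
      rw [Finset.sum_eq_single (Quotient.mk s (f x))]
      · rw [if_pos rfl]
      · intro b _ hb
        rw [if_neg (Ne.symm hb)]
      · intro h; exact absurd (Finset.mem_univ _) h
    rw [this]; exact hsum
  have hnn : ∀ q, 0 ≤ wt q := fun q => Finset.sum_nonneg fun x _ => by
    split_ifs
    · exact hw x
    · exact le_rfl
  have hcard : H.card ≤ K := by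
    have h1 : (H.card : ℝ) * (1 / K) ≤ 1 := by
      calc (H.card : ℝ) * (1 / K) = ∑ q ∈ H, (1 / K : ℝ) := by rw [Finset.sum_const, nsmul_eq_mul]
        _ ≤ ∑ q ∈ H, wt q := Finset.sum_le_sum fun q hq => (Finset.mem_filter.1 hq).2
        _ ≤ ∑ q : Q, wt q := Finset.sum_le_univ_sum_of_nonneg hnn
        _ ≤ 1 := htot
    have h2 : (H.card : ℝ) ≤ K := by
      rw [mul_one_div, div_le_one hK0] at h1; exact h1
    exact_mod_cast h2
  -- enumerate
  have : ∃ g : Fin K → Q, ∀ q ∈ H, ∃ k, g k = q := by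
    by_cases hne : H.Nonempty
    · obtain ⟨q0, hq0⟩ := hne
      let e := H.equivFin
      refine ⟨fun k => if h : k.1 < H.card then (e.symm ⟨k.1, h⟩).1 else q0, fun q hq => ?_⟩
      refine ⟨⟨(e ⟨q, hq⟩).1, lt_of_lt_of_le (e ⟨q, hq⟩).2 hcard⟩, ?_⟩
      simp
    · refine ⟨fun _ => Quotient.mk s (Classical.arbitrary W), fun q hq => ?_⟩
      exact (hne ⟨q, hq⟩).elim
  obtain ⟨g, hg⟩ := this
  refine ⟨fun k => (g k).out, fun v hv => ?_⟩
  have hvH : (Quotient.mk s v) ∈ H := by
    refine Finset.mem_filter.2 ⟨Finset.mem_univ _, ?_⟩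
    refine le_trans hv (le_of_eq ?_)
    refine Finset.sum_congr rfl fun x _ => ?_
    by_cases h : R (f x) v
    · rw [if_pos h, if_pos (Quotient.sound h)]
    · rw [if_neg h, if_neg (fun h' => h (Quotient.exact h'))]
  obtain ⟨k, hk⟩ := hg _ hvH
  refine ⟨k, ?_⟩
  have : (Quotient.mk s ((g k).out)) = Quotient.mk s v := by
    rw [Quotient.out_eq]; exact hk
  exact Quotient.exact this

end Pool.Agent.Work.MP_c13439_tree
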