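import Pool.Agent.Work.MP_c13439_tree.Interface2

set_option autoImplicit false

namespace Pool.Agent.Work.MP_c13439_tree

open Finset Pool.Agent.Work.MP_c13439_an

namespace IDEAL

section

variable {𝕜 X Y Z W : Type} [RCLike 𝕜] [NormedAddCommGroup X] [NormedSpace 𝕜 X]
  [NormedAddCommGroup Y] [NormedSpace 𝕜 Y] [NormedAddCommGroup Z] [NormedSpace 𝕜 Z]
  [NormedAddCommGroup W] [NormedSpace 𝕜 W]

theorem ideal (L : X →L[𝕜] Y) (S : Y →L[𝕜] Z) (R : Z →L[𝕜] W) (hL : ‖L‖ ≤ 1) (hR : ‖R‖ ≤ 1)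
    (n : ℕ) : entropyNumber ((R.comp S).comp L) n ≤ entropyNumber S n := by
  refine le_of_forall_gt_imp_ge_of_dense fun r hr => ?_
  have hr0 : 0 < r := lt_of_le_of_lt (ent_nonneg S n) hr
  obtain ⟨w, hw⟩ := ent_lt S n r hr
  refine ent_le _ n r hr0 (fun c => R (w c)) fun x hx => ?_
  have h1 : ‖L x‖ ≤ 1 := by
    have h2 := L.le_opNorm x
    have h3 : ‖L‖ * ‖x‖ ≤ 1 * 1 := mul_le_mul hL hx (norm_nonneg _) zero_le_one
    linarith
  obtain ⟨c, hc⟩ := hw (L x) h1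
  refine ⟨c, ?_⟩
  have h4 : ((R.comp S).comp L) x - R (w c) = R (S (L x) - w c) := by
    rw [map_sub]
    rfl
  rw [h4]
  have h5 := R.le_opNorm (S (L x) - w c)
  have h6 : ‖R‖ * ‖S (L x) - w c‖ ≤ 1 * r := mul_le_mul hR hc (norm_nonneg _) zero_le_one
  linarith

theorem adj_apply (T : X →L[𝕜] Y) (f : Y →L[𝕜] 𝕜) : adjointMap T f = f.comp T := rfl

theorem adj_norm (T : X →L[𝕜] Y) : ‖adjointMap T‖ ≤ ‖T‖ := by
  refine ContinuousLinearMap.opNorm_le_bound _ (norm_nonneg _) fun f => ?_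
  rw [adj_apply, mul_comm]
  exact ContinuousLinearMap.opNorm_comp_le f T

theorem adj_comp (L : X →L[𝕜] Y) (S : Y →L[𝕜] Z) (R : Z →L[𝕜] W) :
    adjointMap ((R.comp S).comp L) = ((adjointMap L).comp (adjointMap S)).comp (adjointMap R) := rfl

end

end IDEAL

theorem blk_IDEAL : Stmt_IDEAL := by
  intro 𝕜 _ X Y Z W _ _ _ _ _ _ _ _ L S R hL hR n
  refine ⟨IDEAL.ideal L S R hL hR n, ?_⟩
  rw [IDEAL.adj_comp]
  exact IDEAL.ideal _ _ _ ((IDEAL.adj_norm R).trans hR) ((IDEAL.adj_norm L).trans hL) n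

end Pool.Agent.Work.MP_c13439_tree
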