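import Mathlib
import Pool.Agent.Work.MP_c13439_tree.Interface
import Pool.Agent.Work.MP_c13439_an.Main

set_option autoImplicit false

/-!
# One compact operator which violates every pair of constants

Second part of the blocks. General facts about `entropyNumber` (`ent_nonneg`, `ent_le`, `ent_lt`,
`ent_anti`, `ent_bddBelow`, `ent_nonempty`) are in `Pool.Agent.Work.MP_c13439_an.Main`.
-/

namespace Pool.Agent.Work.MP_c13439_tree

open Finset Pool.Agent.Work.MP_c13439_an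

/-! ### IDEAL (ideal property)
`e_n(R S L) ≤ e_n(S)` for contractions `R`, `L`, and the same for the adjoints
(`(R S L)* = L* S* R*`, `‖R*‖ ≤ ‖R‖`). Proof: if `S(B) ⊆ ⋃ B(w_k, ε)`, then
`R S L (B) ⊆ R S (B) ⊆ ⋃ B(R w_k, ε)`. (40 - 80 lines) -/
def Stmt_IDEAL : Prop :=
  ∀ (𝕜 : Type) [RCLike 𝕜] (X Y Z W : Type) [NormedAddCommGroup X] [NormedSpace 𝕜 X]
    [NormedAddCommGroup Y] [NormedSpace 𝕜 Y] [NormedAddCommGroup Z] [NormedSpace 𝕜 Z]
    [NormedAddCommGroup W] [NormedSpace 𝕜 W]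
    (L : X →L[𝕜] Y) (S : Y →L[𝕜] Z) (R : Z →L[𝕜] W), ‖L‖ ≤ 1 → ‖R‖ ≤ 1 → ∀ n : ℕ,
      entropyNumber ((R.comp S).comp L) n ≤ entropyNumber S n ∧
      entropyNumber (adjointMap ((R.comp S).comp L)) n ≤ entropyNumber (adjointMap S) n

/-! ### ADD
`e_(m+n)(S + S') ≤ e_m(S) + e_n(S')`, `e_0(S) ≤ ‖S‖` (one ball), `e_n(r S) = r e_n(S)` for `r > 0`,
and the same three facts for the adjoints (`(S + S')* = S* + S'*`, `‖S*‖ ≤ ‖S‖`,
`(r S)* = r S*`, `r` real). Index: `2^m * 2^n = 2^(m+n)` centres `w_k + w'_l`. (80 - 140 lines) -/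
def Stmt_ADD : Prop :=
  ∀ (𝕜 : Type) [RCLike 𝕜] (X Y : Type) [NormedAddCommGroup X] [NormedSpace 𝕜 X]
    [NormedAddCommGroup Y] [NormedSpace 𝕜 Y],
    (∀ (S S' : X →L[𝕜] Y) (m n : ℕ),
      entropyNumber (S + S') (m + n) ≤ entropyNumber S m + entropyNumber S' n ∧
      entropyNumber (adjointMap (S + S')) (m + n) ≤
        entropyNumber (adjointMap S) m + entropyNumber (adjointMap S') n) ∧
    (∀ S : X →L[𝕜] Y, entropyNumber S 0 ≤ ‖S‖ ∧ entropyNumber (adjointMap S) 0 ≤ ‖S‖) ∧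
    (∀ (S : X →L[𝕜] Y) (r : ℝ) (n : ℕ), 0 < r →
      entropyNumber ((r : 𝕜) • S) n = r * entropyNumber S n ∧
      entropyNumber (adjointMap ((r : 𝕜) • S)) n = r * entropyNumber (adjointMap S) n)

/-! ### FIN
An operator between finite-dimensional spaces and its adjoint have entropy numbers tending to `0`
(the image of the unit ball is contained in a compact set, hence totally bounded; the duals are
finite-dimensional as well). (60 - 100 lines) -/
def Stmt_FIN : Prop :=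
  ∀ (𝕜 : Type) [RCLike 𝕜] (X Y : Type) [NormedAddCommGroup X] [NormedSpace 𝕜 X]
    [FiniteDimensional 𝕜 X] [NormedAddCommGroup Y] [NormedSpace 𝕜 Y] [FiniteDimensional 𝕜 Y]
    (S : X →L[𝕜] Y) (ε : ℝ), 0 < ε →
    ∃ N : ℕ, entropyNumber S N ≤ ε ∧ entropyNumber (adjointMap S) N ≤ ε

/-- A piece: an operator of norm at most one on a finite-dimensional space. -/
structure Pc (𝕜 : Type) [RCLike 𝕜] where
  /-- the space -/
  E : Type
  /-- its norm -/
  i1 : NormedAddCommGroup E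
  /-- its vector space structure -/
  i2 : NormedSpace 𝕜 E
  /-- it is finite-dimensional -/
  i3 : FiniteDimensional 𝕜 E
  /-- the operator -/
  A : E →L[𝕜] E
  /-- its norm is at most one -/
  le : ‖A‖ ≤ 1

attribute [instance] Pc.i1 Pc.i2 Pc.i3

/-! ### PIECE
From CORE (with `η / 2` and `2 B`), OPU, OPL: with `A0 = opT 𝕜 y : l_1(O) → (Z → 𝕜)` we get
`e_(2n)(A0) ≤ η` and `1/2 ≤ e(A0*)` at the index `2 B (n + 1) ≥ B (2 n + 1)`; the norm of `opT 𝕜 y` is
`≤ 1` because `0 ≤ y ≤ 1`. Put `E = l_1(O) × (Z → 𝕜)` (norm of `Prod`) and `A = inr ∘ A0 ∘ fst`; then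
`A0 = snd ∘ A ∘ inl`, and IDEAL (twice) says that `A` and `A0` (and the adjoints) have the same
entropy numbers. The second half is the same with the transposed kernel. (120 - 200 lines) -/
def Stmt_PIECE : Prop :=
  ∀ (𝕜 : Type) [RCLike 𝕜] (η : ℝ) (B : ℕ), 0 < η →
    (∃ (P : Pc 𝕜) (n : ℕ), entropyNumber P.A n ≤ η ∧
      1 / 2 ≤ entropyNumber (adjointMap P.A) (B * (n + 1))) ∧
    (∃ (P : Pc 𝕜) (n : ℕ), entropyNumber (adjointMap P.A) n ≤ η ∧
      1 / 2 ≤ entropyNumber P.A (B * (n + 1)))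

/-! ### SUMX (direct sums)
For every sequence of pieces there is a Banach space `X` with maps `ι k : E k → X`,
`π k : X → E k` of norm `≤ 1`, `π k ∘ ι k = id`, `π j ∘ ι k = 0` for `j ≠ k`. Take
`X = lp (fun k => (P k).E) 2` with `lp.singleContinuousLinearMap` and `lp.evalCLM`
(finite-dimensional spaces over `𝕜` are complete: `FiniteDimensional.complete 𝕜`).
(30 - 60 lines) -/
def Stmt_SUMX : Prop :=
  ∀ (𝕜 : Type) [RCLike 𝕜] (P : ℕ → Pc 𝕜),
    ∃ (X : Type) (_ : NormedAddCommGroup X) (_ : NormedSpace 𝕜 X) (_ : CompleteSpace X)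
      (ι : ∀ k, (P k).E →L[𝕜] X) (π : ∀ k, X →L[𝕜] (P k).E),
      (∀ k, ‖ι k‖ ≤ 1) ∧ (∀ k, ‖π k‖ ≤ 1) ∧
      (∀ k, (π k).comp (ι k) = ContinuousLinearMap.id 𝕜 (P k).E) ∧
      (∀ j k, j ≠ k → (π j).comp (ι k) = 0)

/-! ### SEQ (dependent choice)
Strong recursion with choice. Proof: `∃ f, ∀ n, r n (fun m : Fin n => f m) (f n)`, `f n` defined by
`Nat.strongRec` as `choose (h n (fun m : Fin n => f m))`. (20 - 40 lines) -/
def Stmt_SEQ : Prop :=
  ∀ (α : Type 1) (r : (n : ℕ) → (Fin n → α) → α → Prop), (∀ n g, ∃ a, r n g a) →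
    ∃ f : ℕ → α, ∀ n, r n (fun m : Fin n => f m.1) (f n)

/-- The scales `1 / (k!)^2`. -/
noncomputable def lam (k : ℕ) : ℝ := 1 / ((Nat.factorial k : ℝ) ^ 2)

/-! ### SERIES (the operator `T = ∑ lam k ι k A k π k`)
Given the sum system of SUMX, `T` (a norm convergent series, `∑ lam k < ∞`) is compact (limit of
operators of finite rank: `isCompactOperator_of_tendsto`), and
(a) `lam j * e_n(A j) ≤ e_n(T)`, `lam j * e_n((A j)*) ≤ e_n(T*)`: IDEAL with
    `lam j A j = π j T ι j`, and ADD (scalars);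
(b) if `N : ℕ → ℕ` and `δ > 0` satisfy `e_(N k)(A k) ≤ δ` for `k < j`, then
    `e_(∑_{k<j} N k + n)(T) ≤ (∑_{k<j} lam k) δ + lam j e_n(A j) + ∑_{k>j} lam k
       ≤ 3 δ + lam j e_n(A j) + 4 lam j / (j + 1)^2`
    (ADD, IDEAL; `∑ lam k ≤ 3`; `lam (j + i) ≤ lam j / (j + 1)^2 * 2^(-(i-1))` or so for `i ≥ 1`); the
    same for the adjoints. (150 - 250 lines) -/
def Stmt_SERIES : Prop :=
  ∀ (𝕜 : Type) [RCLike 𝕜] (P : ℕ → Pc 𝕜) (X : Type) [NormedAddCommGroup X] [NormedSpace 𝕜 X]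
    [CompleteSpace X] (ι : ∀ k, (P k).E →L[𝕜] X) (π : ∀ k, X →L[𝕜] (P k).E),
    (∀ k, ‖ι k‖ ≤ 1) → (∀ k, ‖π k‖ ≤ 1) →
    (∀ k, (π k).comp (ι k) = ContinuousLinearMap.id 𝕜 (P k).E) →
    (∀ j k, j ≠ k → (π j).comp (ι k) = 0) →
    ∃ T : X →L[𝕜] X, IsCompactOperator T ∧
      (∀ j n, lam j * entropyNumber (P j).A n ≤ entropyNumber T n ∧
        lam j * entropyNumber (adjointMap (P j).A) n ≤ entropyNumber (adjointMap T) n) ∧
      (∀ (j n : ℕ) (N : ℕ → ℕ) (δ : ℝ), 0 < δ →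
        (∀ k < j, entropyNumber (P k).A (N k) ≤ δ) →
        entropyNumber T ((∑ k ∈ range j, N k) + n) ≤
          3 * δ + lam j * entropyNumber (P j).A n + 4 * lam j / (j + 1) ^ 2) ∧
      (∀ (j n : ℕ) (N : ℕ → ℕ) (δ : ℝ), 0 < δ →
        (∀ k < j, entropyNumber (adjointMap (P k).A) (N k) ≤ δ) →
        entropyNumber (adjointMap T) ((∑ k ∈ range j, N k) + n) ≤
          3 * δ + lam j * entropyNumber (adjointMap (P j).A) n + 4 * lam j / (j + 1) ^ 2)

/-! ### MAIN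
One compact operator on one Banach space which violates every pair of constants, in both
directions. Here `e_n` is `entropyNumber _ (n - 1)`.
Proof. SEQ with `α = Pc 𝕜 × ℕ` (the piece `P j` and its `n j`): given the pieces `k < j` take (FIN)
`N k` with `e_(N k)(A k) ≤ δ_j`, `e_(N k)((A k)*) ≤ δ_j` for `δ_j = lam j / (j + 1)`, put
`N = ∑_{k<j} N k`, and take `P j`, `n j` from PIECE with `η = 1/(j+1)`, `B = (j + 1) (N + 1)`, the
first kind if `j` is even, the second if `j` is odd. (The relation `r j g a` says: there are such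
`N k`.) Let `T` be the operator of SERIES. For even `j` and the number `n = N + n_j + 1`:
`e_n(T) = entropyNumber T (N + n_j) ≤ 3 lam j/(j+1) + lam j/(j+1) + 4 lam j/(j+1)^2 ≤ 8 lam j/(j+1)`,
and `(j+1) n ≤ B (n_j + 1)`, so
`e_((j+1) n)(T*) ≥ entropyNumber (adjointMap T) (B (n_j + 1)) ≥ lam j / 2`. Given `a, b` take `j`
even with `j + 1 ≥ b` and `j + 1 > 16 a`. Odd `j` for the other direction. (150 - 220 lines) -/
def Stmt_MAIN : Prop :=
  ∀ (𝕜 : Type) [RCLike 𝕜], ∃ (X : Type) (_ : NormedAddCommGroup X) (_ : NormedSpace 𝕜 X)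
    (_ : CompleteSpace X) (T : X →L[𝕜] X), IsCompactOperator T ∧
    ∀ (a : ℝ) (b : ℕ), 1 ≤ b →
      (∃ n : ℕ, 1 ≤ n ∧
        a * entropyNumber T (n - 1) < entropyNumber (adjointMap T) (b * n - 1)) ∧
      (∃ n : ℕ, 1 ≤ n ∧
        a * entropyNumber (adjointMap T) (n - 1) < entropyNumber T (b * n - 1))

end Pool.Agent.Work.MP_c13439_tree
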