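import Mathlib
import Pool.Agent.Work.MP_c13439_tree.Interface2

set_option autoImplicit false

/-!
# Block MAIN (helper64): one compact operator which violates every pair of constants
-/

namespace Pool.Agent.Work.MP_c13439_tree

open Finset Pool.Agent.Work.MP_c13439_an

namespace MainAux

theorem lam_pos (j : ℕ) : 0 < lam j := by
  unfold lam
  positivity

theorem fin_ineq (l : ℝ) (hl : 0 < l) (j : ℕ) (a x y : ℝ) (hx0 : 0 ≤ x)
    (hx : x ≤ 8 * l / ((j : ℝ) + 1)) (hy : l / 2 ≤ y) (ha : 16 * a < (j : ℝ) + 1) :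
    a * x < y := by
  have hj : (0 : ℝ) < (j : ℝ) + 1 := by positivity
  rcases le_or_gt a 0 with h | h
  · have : a * x ≤ 0 := mul_nonpos_of_nonpos_of_nonneg h hx0
    linarith
  · have h1 : a * x ≤ a * (8 * l / ((j : ℝ) + 1)) := mul_le_mul_of_nonneg_left hx h.le
    have h2 : a * (8 * l / ((j : ℝ) + 1)) < l / 2 := by
      rw [mul_div_assoc', div_lt_iff₀ hj]
      nlinarith
    linarith

theorem upper (l : ℝ) (hl : 0 < l) (j : ℕ) (e : ℝ) (he : e ≤ 1 / ((j : ℝ) + 1)) :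
    3 * (l / ((j : ℝ) + 1)) + l * e + 4 * l / ((j : ℝ) + 1) ^ 2 ≤ 8 * l / ((j : ℝ) + 1) := by
  have hj : (1 : ℝ) ≤ (j : ℝ) + 1 := by
    have : (0 : ℝ) ≤ (j : ℝ) := Nat.cast_nonneg j
    linarith
  have hj0 : (0 : ℝ) < (j : ℝ) + 1 := by linarith
  have h1 : l * e ≤ l / ((j : ℝ) + 1) := by
    calc l * e ≤ l * (1 / ((j : ℝ) + 1)) := mul_le_mul_of_nonneg_left he hl.le
      _ = l / ((j : ℝ) + 1) := by ring
  have h2 : 4 * l / ((j : ℝ) + 1) ^ 2 ≤ 4 * l / ((j : ℝ) + 1) := by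
    apply div_le_div_of_nonneg_left (by positivity) hj0
    calc (j : ℝ) + 1 = ((j : ℝ) + 1) * 1 := by ring
      _ ≤ ((j : ℝ) + 1) * ((j : ℝ) + 1) := mul_le_mul_of_nonneg_left hj hj0.le
      _ = ((j : ℝ) + 1) ^ 2 := by ring
  have h3 : 8 * l / ((j : ℝ) + 1) = 3 * (l / ((j : ℝ) + 1)) + l / ((j : ℝ) + 1) +
      4 * l / ((j : ℝ) + 1) := by ring
  rw [h3]
  linarith

theorem idx (b j M m : ℕ) (hb : b ≤ j + 1) :
    b * (M + m + 1) - 1 ≤ ((j + 1) * (M + 1)) * (m + 1) := by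
  have h1 : M + m + 1 ≤ (M + 1) * (m + 1) := by nlinarith
  calc b * (M + m + 1) - 1 ≤ b * (M + m + 1) := Nat.sub_le _ _
    _ ≤ (j + 1) * ((M + 1) * (m + 1)) := Nat.mul_le_mul hb h1
    _ = ((j + 1) * (M + 1)) * (m + 1) := by ring

/-- the relation of the recursion -/
def Rel (𝕜 : Type) [RCLike 𝕜] (j : ℕ) (g : Fin j → Pc 𝕜 × ℕ) (a : Pc 𝕜 × ℕ) : Prop :=
  ∃ N : ℕ → ℕ, (∀ (k : ℕ) (hk : k < j),
      entropyNumber (g ⟨k, hk⟩).1.A (N k) ≤ lam j / ((j : ℝ) + 1) ∧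
      entropyNumber (adjointMap (g ⟨k, hk⟩).1.A) (N k) ≤ lam j / ((j : ℝ) + 1)) ∧
    (Even j → entropyNumber a.1.A a.2 ≤ 1 / ((j : ℝ) + 1) ∧
      1 / 2 ≤ entropyNumber (adjointMap a.1.A)
        (((j + 1) * ((∑ k ∈ range j, N k) + 1)) * (a.2 + 1))) ∧
    (¬ Even j → entropyNumber (adjointMap a.1.A) a.2 ≤ 1 / ((j : ℝ) + 1) ∧
      1 / 2 ≤ entropyNumber a.1.A
        (((j + 1) * ((∑ k ∈ range j, N k) + 1)) * (a.2 + 1)))

theorem rel_ex (hFIN : Stmt_FIN) (hPIECE : Stmt_PIECE) (𝕜 : Type) [RCLike 𝕜] (j : ℕ)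
    (g : Fin j → Pc 𝕜 × ℕ) : ∃ a, Rel 𝕜 j g a := by
  have hδ : 0 < lam j / ((j : ℝ) + 1) := div_pos (lam_pos j) (by positivity)
  have h1 : ∀ k : ℕ, ∃ n : ℕ, ∀ hk : k < j,
      entropyNumber (g ⟨k, hk⟩).1.A n ≤ lam j / ((j : ℝ) + 1) ∧
      entropyNumber (adjointMap (g ⟨k, hk⟩).1.A) n ≤ lam j / ((j : ℝ) + 1) := by
    intro k
    by_cases hk : k < j
    · obtain ⟨n, hn⟩ := hFIN 𝕜 (g ⟨k, hk⟩).1.E (g ⟨k, hk⟩).1.E (g ⟨k, hk⟩).1.A _ hδ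
      exact ⟨n, fun _ => hn⟩
    · exact ⟨0, fun h => absurd h hk⟩
  choose N hN using h1
  obtain ⟨⟨P, n, h2, h3⟩, ⟨P', n', h4, h5⟩⟩ := hPIECE 𝕜 (1 / ((j : ℝ) + 1))
    ((j + 1) * ((∑ k ∈ range j, N k) + 1)) (by positivity)
  by_cases hj : Even j
  · exact ⟨(P, n), N, hN, fun _ => ⟨h2, h3⟩, fun h => absurd hj h⟩
  · exact ⟨(P', n'), N, hN, fun h => absurd h hj, fun _ => ⟨h4, h5⟩⟩

end MainAux

open MainAux

theorem blk_MAIN (hFIN : Stmt_FIN) (hPIECE : Stmt_PIECE) (hSUMX : Stmt_SUMX) (hSEQ : Stmt_SEQ)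
    (hSERIES : Stmt_SERIES) : Stmt_MAIN := by
  intro 𝕜 _
  obtain ⟨f, hf⟩ := hSEQ (Pc 𝕜 × ℕ) (Rel 𝕜) (rel_ex hFIN hPIECE 𝕜)
  obtain ⟨X, i1, i2, i3, ι, π, hι, hπ, hid, h0⟩ := hSUMX 𝕜 (fun k => (f k).1)
  obtain ⟨T, hT, ha, hb, hb'⟩ := hSERIES 𝕜 (fun k => (f k).1) X ι π hι hπ hid h0
  refine ⟨X, i1, i2, i3, T, hT, fun a b _ => ?_⟩
  obtain ⟨K, hK⟩ := exists_nat_gt (16 * a)
  constructor
  · -- an even index
    obtain ⟨j, hj, hjb, hja⟩ : ∃ j : ℕ, Even j ∧ b ≤ j + 1 ∧ 16 * a < (j : ℝ) + 1 := by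
      refine ⟨2 * (K + b), ⟨K + b, by ring⟩, by omega, ?_⟩
      push_cast
      have h1 : (0 : ℝ) ≤ (K : ℝ) := Nat.cast_nonneg K
      have h2 : (0 : ℝ) ≤ (b : ℝ) := Nat.cast_nonneg b
      linarith
    obtain ⟨N, hN, he, -⟩ := hf j
    obtain ⟨h1, h2⟩ := he hj
    refine ⟨(∑ k ∈ range j, N k) + (f j).2 + 1, by omega, ?_⟩
    have hlow := (ha j (((j + 1) * ((∑ k ∈ range j, N k) + 1)) * ((f j).2 + 1))).2
    have hup := hb j (f j).2 N (lam j / ((j : ℝ) + 1)) (div_pos (lam_pos j) (by positivity))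
      (fun k hk => (hN k hk).1)
    refine fin_ineq (lam j) (lam_pos j) j a _ _ (ent_nonneg _ _) ?_ ?_ hja
    · rw [Nat.add_sub_cancel]
      exact hup.trans (upper (lam j) (lam_pos j) j _ h1)
    · refine le_trans ?_ (ent_anti _ (idx b j _ (f j).2 hjb))
      refine le_trans ?_ hlow
      have := mul_le_mul_of_nonneg_left h2 (lam_pos j).le
      calc lam j / 2 = lam j * (1 / 2) := by ring
        _ ≤ _ := this
  · obtain ⟨j, hj, hjb, hja⟩ : ∃ j : ℕ, ¬ Even j ∧ b ≤ j + 1 ∧ 16 * a < (j : ℝ) + 1 := by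
      refine ⟨2 * (K + b) + 1, by simp, by omega, ?_⟩
      push_cast
      have h1 : (0 : ℝ) ≤ (K : ℝ) := Nat.cast_nonneg K
      have h2 : (0 : ℝ) ≤ (b : ℝ) := Nat.cast_nonneg b
      linarith
    obtain ⟨N, hN, -, he⟩ := hf j
    obtain ⟨h1, h2⟩ := he hj
    refine ⟨(∑ k ∈ range j, N k) + (f j).2 + 1, by omega, ?_⟩
    have hlow := (ha j (((j + 1) * ((∑ k ∈ range j, N k) + 1)) * ((f j).2 + 1))).1
    have hup := hb' j (f j).2 N (lam j / ((j : ℝ) + 1)) (div_pos (lam_pos j) (by positivity))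
      (fun k hk => (hN k hk).2)
    refine fin_ineq (lam j) (lam_pos j) j a _ _ (ent_nonneg _ _) ?_ ?_ hja
    · rw [Nat.add_sub_cancel]
      exact hup.trans (upper (lam j) (lam_pos j) j _ h1)
    · refine le_trans ?_ (ent_anti _ (idx b j _ (f j).2 hjb))
      refine le_trans ?_ hlow
      have := mul_le_mul_of_nonneg_left h2 (lam_pos j).le
      calc lam j / 2 = lam j * (1 / 2) := by ring
        _ ≤ _ := this

end Pool.Agent.Work.MP_c13439_tree
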