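import Pool.Agent.Work.MP_c13439_tree.Interface

set_option autoImplicit false

namespace Pool.Agent.Work.MP_c13439_tree

open Finset Pool.Agent.Work.MP_c13439_an

namespace NET

theorem divlem (T : ℕ) (a b e : ℝ) (he : 0 ≤ e) (h : a ≤ b + T * e) : a / T - e ≤ b / T := by
  rcases Nat.eq_zero_or_pos T with hT | hT
  · subst hT
    simp only [Nat.cast_zero, div_zero, zero_sub]
    linarith
  · have hT' : (0 : ℝ) < T := by exact_mod_cast hT
    rw [sub_le_iff_le_add, div_le_iff₀ hT', add_mul, div_mul_cancel₀ _ hT'.ne']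
    linarith

section

variable {W N : Type} [Fintype W] [Fintype N] [DecidableEq N]

/-- The classes of words below a node. -/
def std (S : Sys W N) (κ : N) : Setoid W := ⟨S.A κ, S.eqv κ⟩

/-- A child together with a class below it. -/
def Cc (S : Sys W N) (ν : N) : Type :=
  (κ : {κ : N // κ ∈ S.ch ν}) × Quotient (std S κ.1)

/-- The index type. -/
def JJ (S : Sys W N) (K : N → ℕ) (c g : ℕ) : Type :=
  ((l : Lab S K c) → Cc S l.1.1) × (Finset (Lab S K c) → Fin (g + 1))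

instance finCc (S : Sys W N) (ν : N) : Finite (Cc S ν) := by
  unfold Cc
  infer_instance

instance finJJ (S : Sys W N) (K : N → ℕ) (c g : ℕ) : Finite (JJ S K c g) := by
  unfold JJ
  infer_instance

omit [Fintype N] [DecidableEq N] in
theorem card_quot (S : Sys W N) (q : N → ℕ)
    (hq : ∀ κ, ∀ s : Finset W, (∀ u ∈ s, ∀ v ∈ s, S.A κ u v → u = v) → s.card ≤ q κ) (κ : N) :
    Nat.card (Quotient (std S κ)) ≤ q κ := by
  classical
  have hf : Fintype (Quotient (std S κ)) := Fintype.ofFinite _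
  let s : Finset W := (Finset.univ : Finset (Quotient (std S κ))).image Quotient.out
  have hs : s.card = Nat.card (Quotient (std S κ)) := by
    rw [Finset.card_image_of_injective _ Quotient.out_injective, Finset.card_univ,
      Nat.card_eq_fintype_card]
  rw [← hs]
  refine hq κ s ?_
  intro u hu v hv huv
  obtain ⟨a, _, rfl⟩ := Finset.mem_image.mp hu
  obtain ⟨b, _, rfl⟩ := Finset.mem_image.mp hv
  have : a = b := by
    rw [← Quotient.out_eq a, ← Quotient.out_eq b]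
    exact Quotient.sound huv
  rw [this]

theorem card_Cc (S : Sys W N) (q : N → ℕ)
    (hq : ∀ κ, ∀ s : Finset W, (∀ u ∈ s, ∀ v ∈ s, S.A κ u v → u = v) → s.card ≤ q κ) (ν : N) :
    Nat.card (Cc S ν) ≤ ∑ κ ∈ S.ch ν, q κ := by
  classical
  unfold Cc
  rw [Nat.card_sigma]
  calc ∑ κ : {κ : N // κ ∈ S.ch ν}, Nat.card (Quotient (std S κ.1))
      ≤ ∑ κ : {κ : N // κ ∈ S.ch ν}, q κ.1 :=
        Finset.sum_le_sum fun κ _ => card_quot S q hq κ.1
    _ = ∑ κ ∈ S.ch ν, q κ := by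
        rw [← Finset.sum_attach (S.ch ν)]
        rfl

omit [Fintype W] [DecidableEq N] in
theorem card_Lab (S : Sys W N) (K : N → ℕ) (c : ℕ) :
    Nat.card (Lab S K c) = ∑ ν : Inn S, K ν.1 * c := by
  unfold Lab
  rw [Nat.card_sigma]
  refine Finset.sum_congr rfl fun ν _ => ?_
  rw [Nat.card_prod, Nat.card_eq_fintype_card, Nat.card_eq_fintype_card, Fintype.card_fin,
    Fintype.card_fin]

theorem card_JJ (S : Sys W N) (K : N → ℕ) (c g : ℕ) (q : N → ℕ)
    (hq : ∀ κ, ∀ s : Finset W, (∀ u ∈ s, ∀ v ∈ s, S.A κ u v → u = v) → s.card ≤ q κ) :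
    Nat.card (JJ S K c g) ≤ (∏ ν : Inn S, (∑ κ ∈ S.ch ν.1, q κ) ^ (K ν.1 * c)) *
        (g + 1) ^ (2 ^ (∑ ν : Inn S, K ν.1 * c)) := by
  classical
  unfold JJ
  rw [Nat.card_prod, Nat.card_pi]
  refine Nat.mul_le_mul ?_ (le_of_eq ?_)
  · calc ∏ l : Lab S K c, Nat.card (Cc S l.1.1)
        ≤ ∏ l : Lab S K c, ∑ κ ∈ S.ch l.1.1, q κ :=
          Finset.prod_le_prod' fun l _ => card_Cc S q hq l.1.1
      _ = ∏ ν : Inn S, (∑ κ ∈ S.ch ν.1, q κ) ^ (K ν.1 * c) := by
          rw [Fintype.prod_sigma]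
          refine Finset.prod_congr rfl fun ν _ => ?_
          change ∏ _y : Fin (K ν.1) × Fin c, (∑ κ ∈ S.ch ν.1, q κ) = _
          rw [Finset.prod_const, Finset.card_univ, Fintype.card_prod, Fintype.card_fin,
            Fintype.card_fin]
  · rw [← card_Lab S K c, Nat.card_eq_fintype_card, Nat.card_eq_fintype_card, Fintype.card_fun,
      Fintype.card_fin, Fintype.card_finset]

open Classical in
/-- The members of the family, one level. -/
noncomputable def lv (S : Sys W N) (K : N → ℕ) (c : ℕ) (x : (l : Lab S K c) → Cc S l.1.1)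
    (y : Finset (Lab S K c) → ℝ) (t : ℕ) (v : W) : ℝ :=
  ∑ L : Finset (Lab S K c), if (∃ l ∈ L, S.lev l.1.1 ≤ t ∧
    (x l).2 = Quotient.mk (std S (x l).1.1) v) then y L else 0

/-- The members of the family. -/
noncomputable def FF (S : Sys W N) (K : N → ℕ) (c g : ℕ) (j : JJ S K c g) (v : W) : ℝ :=
  (∑ t ∈ range S.T, lv S K c j.1 (fun L => ((j.2 L : ℕ) : ℝ) / g) t v) / S.T

open Classical in
/-- The weight of the tests of a given type. -/
noncomputable def lam (S : Sys W N) (K : N → ℕ) (c : ℕ) (h : (ν : Inn S) → Fin (K ν.1) → W)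
    (pk : (ν : Inn S) → Fin (K ν.1) → Fin c → N) (w : Om S → ℝ) (L : Finset (Lab S K c)) : ℝ :=
  ∑ ω, if (Finset.univ.filter fun l => Typ S K c h pk ω l) = L then w ω else 0

theorem lam_nonneg (S : Sys W N) (K : N → ℕ) (c : ℕ) (h : (ν : Inn S) → Fin (K ν.1) → W)
    (pk : (ν : Inn S) → Fin (K ν.1) → Fin c → N) (w : Om S → ℝ) (hw : ∀ ω, 0 ≤ w ω)
    (L : Finset (Lab S K c)) : 0 ≤ lam S K c h pk w L := by
  classical
  unfold lam
  refine Finset.sum_nonneg fun ω _ => ?_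
  split_ifs
  · exact hw ω
  · exact le_rfl

theorem lam_le (S : Sys W N) (K : N → ℕ) (c : ℕ) (h : (ν : Inn S) → Fin (K ν.1) → W)
    (pk : (ν : Inn S) → Fin (K ν.1) → Fin c → N) (w : Om S → ℝ) (hw : ∀ ω, 0 ≤ w ω)
    (L : Finset (Lab S K c)) : lam S K c h pk w L ≤ ∑ ω, w ω := by
  classical
  unfold lam
  refine Finset.sum_le_sum fun ω _ => ?_
  split_ifs
  · exact le_rfl
  · exact hw ω

theorem aahat_eq (S : Sys W N) (K : N → ℕ) (c : ℕ) (h : (ν : Inn S) → Fin (K ν.1) → W)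
    (pk : (ν : Inn S) → Fin (K ν.1) → Fin c → N) (w : Om S → ℝ)
    (hpk : ∀ ν k i, pk ν k i ∈ S.ch ν.1) (t : ℕ) (v : W) :
    aahat S K c h pk w t v =
      lv S K c (fun l => ⟨⟨pk l.1 l.2.1 l.2.2, hpk l.1 l.2.1 l.2.2⟩,
        Quotient.mk (std S (pk l.1 l.2.1 l.2.2)) (h l.1 l.2.1)⟩) (lam S K c h pk w) t v := by
  classical
  unfold aahat lv lam
  have h1 : ∀ L : Finset (Lab S K c),
      (if (∃ l ∈ L, S.lev l.1.1 ≤ t ∧
        (Quotient.mk (std S (pk l.1 l.2.1 l.2.2)) (h l.1 l.2.1)) =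
          Quotient.mk (std S (pk l.1 l.2.1 l.2.2)) v) then
        (∑ ω, if (Finset.univ.filter fun l => Typ S K c h pk ω l) = L then w ω else 0) else 0) =
      ∑ ω, if (Finset.univ.filter fun l => Typ S K c h pk ω l) = L then
        (if (∃ l ∈ L, S.lev l.1.1 ≤ t ∧ S.A (pk l.1 l.2.1 l.2.2) (h l.1 l.2.1) v) then w ω else 0)
        else 0 := by
    intro L
    have h2 : (∃ l ∈ L, S.lev l.1.1 ≤ t ∧
        (Quotient.mk (std S (pk l.1 l.2.1 l.2.2)) (h l.1 l.2.1)) =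
          Quotient.mk (std S (pk l.1 l.2.1 l.2.2)) v) ↔
        (∃ l ∈ L, S.lev l.1.1 ≤ t ∧ S.A (pk l.1 l.2.1 l.2.2) (h l.1 l.2.1) v) := by
      constructor
      · rintro ⟨l, hl, ht, hq⟩
        exact ⟨l, hl, ht, Quotient.exact hq⟩
      · rintro ⟨l, hl, ht, hq⟩
        exact ⟨l, hl, ht, Quotient.sound hq⟩
    by_cases h3 : (∃ l ∈ L, S.lev l.1.1 ≤ t ∧ S.A (pk l.1 l.2.1 l.2.2) (h l.1 l.2.1) v)
    · rw [if_pos (h2.mpr h3)]
      exact Finset.sum_congr rfl fun ω _ => by rw [if_pos h3]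
    · rw [if_neg (fun hh => h3 (h2.mp hh))]
      symm
      refine Finset.sum_eq_zero fun ω _ => ?_
      rw [if_neg h3]
      split_ifs <;> rfl
  rw [Finset.sum_congr rfl fun L _ => h1 L, Finset.sum_comm]
  refine Finset.sum_congr rfl fun ω _ => ?_
  rw [Finset.sum_ite_eq]
  rw [if_pos (Finset.mem_univ _)]
  have h4 : (∃ l : Lab S K c, Typ S K c h pk ω l ∧ S.lev l.1.1 ≤ t ∧
      S.A (pk l.1 l.2.1 l.2.2) (h l.1 l.2.1) v) ↔
      (∃ l ∈ (Finset.univ.filter fun l => Typ S K c h pk ω l), S.lev l.1.1 ≤ t ∧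
      S.A (pk l.1 l.2.1 l.2.2) (h l.1 l.2.1) v) := by
    constructor
    · rintro ⟨l, h1, h2⟩
      exact ⟨l, Finset.mem_filter.mpr ⟨Finset.mem_univ _, h1⟩, h2⟩
    · rintro ⟨l, h1, h2⟩
      exact ⟨l, (Finset.mem_filter.mp h1).2, h2⟩
  by_cases h5 : (∃ l : Lab S K c, Typ S K c h pk ω l ∧ S.lev l.1.1 ≤ t ∧
      S.A (pk l.1 l.2.1 l.2.2) (h l.1 l.2.1) v)
  · rw [if_pos h5, if_pos (h4.mp h5)]
  · rw [if_neg h5, if_neg (fun hh => h5 (h4.mpr hh))]

omit [Fintype W] [DecidableEq N] in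
theorem lv_mono (S : Sys W N) (K : N → ℕ) (c : ℕ) (x : (l : Lab S K c) → Cc S l.1.1)
    (y z : Finset (Lab S K c) → ℝ) (hyz : ∀ L, y L ≤ z L) (t : ℕ) (v : W) :
    lv S K c x y t v ≤ lv S K c x z t v := by
  classical
  unfold lv
  refine Finset.sum_le_sum fun L _ => ?_
  split_ifs
  · exact hyz L
  · exact le_rfl

theorem lv_err (S : Sys W N) (K : N → ℕ) (c : ℕ) (x : (l : Lab S K c) → Cc S l.1.1)
    (y z : Finset (Lab S K c) → ℝ) (e : ℝ) (he : 0 ≤ e) (hyz : ∀ L, z L ≤ y L + e) (t : ℕ)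
    (v : W) :
    lv S K c x z t v ≤ lv S K c x y t v + (2 : ℝ) ^ (∑ ν : Inn S, K ν.1 * c) * e := by
  classical
  have h0 : (2 : ℝ) ^ (∑ ν : Inn S, K ν.1 * c) * e = ∑ _L : Finset (Lab S K c), e := by
    rw [Finset.sum_const, Finset.card_univ, Fintype.card_finset, ← card_Lab S K c,
      Nat.card_eq_fintype_card, nsmul_eq_mul]
    push_cast
    rfl
  rw [h0]
  unfold lv
  rw [← Finset.sum_add_distrib]
  refine Finset.sum_le_sum fun L _ => ?_
  split_ifs
  · exact hyz L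
  · linarith

end

end NET

theorem blk_NET : Stmt_NET := by
  intro W N _ _ _ S K c g q hg hq
  classical
  have hfin : Fintype (NET.JJ S K c g) := Fintype.ofFinite _
  refine ⟨NET.JJ S K c g, hfin, NET.FF S K c g, ?_, ?_⟩
  · rw [← Nat.card_eq_fintype_card]
    exact NET.card_JJ S K c g q hq
  · intro h pk w hpk hw hw1
    have hg' : (0 : ℝ) < g := by exact_mod_cast hg
    have hfl : ∀ L, ⌊(g : ℝ) * NET.lam S K c h pk w L⌋₊ < g + 1 := by
      intro L
      have h1 : (g : ℝ) * NET.lam S K c h pk w L ≤ g := by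
        have := (NET.lam_le S K c h pk w hw L).trans hw1
        nlinarith
      have h2 : ⌊(g : ℝ) * NET.lam S K c h pk w L⌋₊ ≤ ⌊(g : ℝ)⌋₊ := Nat.floor_le_floor h1
      rw [Nat.floor_natCast] at h2
      omega
    refine ⟨(fun l => ⟨⟨pk l.1 l.2.1 l.2.2, hpk l.1 l.2.1 l.2.2⟩,
        Quotient.mk (NET.std S (pk l.1 l.2.1 l.2.2)) (h l.1 l.2.1)⟩,
        fun L => ⟨⌊(g : ℝ) * NET.lam S K c h pk w L⌋₊, hfl L⟩), ?_⟩
    intro v
    have hlow : ∀ L, ((⌊(g : ℝ) * NET.lam S K c h pk w L⌋₊ : ℕ) : ℝ) / g ≤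
        NET.lam S K c h pk w L := by
      intro L
      rw [div_le_iff₀ hg', mul_comm (NET.lam S K c h pk w L) (g : ℝ)]
      exact Nat.floor_le (mul_nonneg hg'.le (NET.lam_nonneg S K c h pk w hw L))
    have hup : ∀ L, NET.lam S K c h pk w L ≤
        ((⌊(g : ℝ) * NET.lam S K c h pk w L⌋₊ : ℕ) : ℝ) / g + 1 / g := by
      intro L
      rw [← add_div, le_div_iff₀ hg', mul_comm (NET.lam S K c h pk w L) (g : ℝ)]
      exact (Nat.lt_floor_add_one _).le
    constructor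
    · unfold NET.FF
      have h1 : ∑ t ∈ range S.T, aahat S K c h pk w t v ≤
          ∑ t ∈ range S.T, (NET.lv S K c (fun l => ⟨⟨pk l.1 l.2.1 l.2.2, hpk l.1 l.2.1 l.2.2⟩,
            Quotient.mk (NET.std S (pk l.1 l.2.1 l.2.2)) (h l.1 l.2.1)⟩)
            (fun L => ((⌊(g : ℝ) * NET.lam S K c h pk w L⌋₊ : ℕ) : ℝ) / g) t v +
            (2 : ℝ) ^ (∑ ν : Inn S, K ν.1 * c) * (1 / g)) := by
        refine Finset.sum_le_sum fun t _ => ?_
        rw [NET.aahat_eq S K c h pk w hpk t v]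
        exact NET.lv_err S K c _ _ _ _ (by positivity) hup t v
      rw [Finset.sum_add_distrib, Finset.sum_const, Finset.card_range, nsmul_eq_mul] at h1
      refine NET.divlem S.T _ _ _ (by positivity) (h1.trans (le_of_eq ?_))
      ring
    · unfold NET.FF
      refine div_le_div_of_nonneg_right ?_ (Nat.cast_nonneg _)
      refine Finset.sum_le_sum fun t _ => ?_
      rw [NET.aahat_eq S K c h pk w hpk t v]
      exact NET.lv_mono S K c _ _ _ hlow t v

end Pool.Agent.Work.MP_c13439_tree
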