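import Pool.Agent.Work.MP_c13439_tree.Interface

set_option autoImplicit false

/-! Block OPL: lower bounds for the entropy numbers. -/

namespace Pool.Agent.Work.MP_c13439_tree

open Finset Pool.Agent.Work.MP_c13439_an

namespace OPLAux

section

variable {𝕜 : Type} [RCLike 𝕜]

theorem le_ent {Z W : Type} [NormedAddCommGroup Z] [NormedSpace 𝕜 Z]
    [NormedAddCommGroup W] [NormedSpace 𝕜 W] (S : Z →L[𝕜] W) (M : ℕ)
    (x : Fin (2 ^ M + 1) → Z) (hx : ∀ i, ‖x i‖ ≤ 1)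
    (hS : ∀ i j, i ≠ j → 1 ≤ ‖S (x i) - S (x j)‖) :
    1 / 2 ≤ entropyNumber S M := by
  apply le_csInf
  · refine ⟨‖S‖ + 1, by positivity, fun _ => 0, ?_⟩
    rintro _ ⟨z, hz, rfl⟩
    have hz' : ‖z‖ ≤ 1 := by simpa using hz
    refine Set.mem_iUnion.2 ⟨⟨0, by positivity⟩, ?_⟩
    rw [mem_closedBall_zero_iff]
    calc ‖S z‖ ≤ ‖S‖ * ‖z‖ := S.le_opNorm z
      _ ≤ ‖S‖ * 1 := mul_le_mul_of_nonneg_left hz' (norm_nonneg _)
      _ ≤ ‖S‖ + 1 := by linarith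
  · rintro ε ⟨_, w, hw⟩
    have h1 : ∀ i, ∃ k, S (x i) ∈ Metric.closedBall (w k) ε := by
      intro i
      have hi : S (x i) ∈ S '' Metric.closedBall (0 : Z) 1 :=
        ⟨x i, by rw [mem_closedBall_zero_iff]; exact hx i, rfl⟩
      exact Set.mem_iUnion.1 (hw hi)
    choose k hk using h1
    obtain ⟨i, j, hij, hkij⟩ := Fintype.exists_ne_map_eq_of_card_lt k (by simp)
    have h2 := hk i
    have h3 := hk j
    rw [← hkij] at h3
    rw [Metric.mem_closedBall] at h2 h3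
    have h4 : dist (S (x i)) (S (x j)) ≤ ε + ε := by
      calc dist (S (x i)) (S (x j)) ≤ dist (S (x i)) (w (k i)) + dist (w (k i)) (S (x j)) :=
            dist_triangle _ _ _
        _ ≤ ε + ε := by rw [dist_comm (w (k i))]; exact add_le_add h2 h3
    have h5 := hS i j hij
    rw [← dist_eq_norm] at h5
    linarith

theorem norm_l1 {O : Type} [Fintype O] (x : PiLp 1 (fun _ : O => 𝕜)) : ‖x‖ = ∑ ω, ‖x ω‖ := by
  rw [PiLp.norm_eq_sum (by norm_num)]
  simp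

theorem opT_apply {O Z : Type} [Fintype O] [Fintype Z] (y : O → Z → ℝ)
    (x : PiLp 1 (fun _ : O => 𝕜)) (z : Z) : opT 𝕜 y x z = ∑ ω, x ω * (y ω z : 𝕜) := rfl

/-- The unit vector. -/
noncomputable def uv {O : Type} [DecidableEq O] (ω : O) : PiLp 1 (fun _ : O => 𝕜) :=
  WithLp.toLp 1 (Pi.single ω (1 : 𝕜))

theorem uv_apply {O : Type} [DecidableEq O] (ω o : O) :
    (uv ω : PiLp 1 (fun _ : O => 𝕜)) o = if o = ω then 1 else 0 := by
  unfold uv
  exact Pi.single_apply ω (1 : 𝕜) o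

theorem norm_uv {O : Type} [Fintype O] [DecidableEq O] (ω : O) :
    ‖(uv ω : PiLp 1 (fun _ : O => 𝕜))‖ = 1 := by
  rw [norm_l1]
  simp_rw [uv_apply]
  rw [Finset.sum_eq_single ω]
  · simp
  · intro b _ hb
    simp [hb]
  · intro h
    exact absurd (Finset.mem_univ ω) h

theorem opT_uv {O Z : Type} [Fintype O] [Fintype Z] [DecidableEq O] (y : O → Z → ℝ) (ω : O)
    (z : Z) : opT 𝕜 y (uv ω) z = (y ω z : 𝕜) := by
  rw [opT_apply]
  simp_rw [uv_apply]
  simp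

end

end OPLAux

open OPLAux in
theorem blk_OPL : Stmt_OPL := by
  intro 𝕜 _ O Z _ _ y M C hC
  classical
  constructor
  · refine le_ent _ M (fun i => (ContinuousLinearMap.proj (C i) : (Z → 𝕜) →L[𝕜] 𝕜)) ?_ ?_
    · intro i
      refine ContinuousLinearMap.opNorm_le_bound _ zero_le_one fun f => ?_
      rw [one_mul]
      exact norm_le_pi_norm f (C i)
    · intro i j hij
      obtain ⟨ω, h1, h0⟩ := hC i j hij
      have e : (adjointMap (opT 𝕜 y) (ContinuousLinearMap.proj (C i) : (Z → 𝕜) →L[𝕜] 𝕜)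
          - adjointMap (opT 𝕜 y) (ContinuousLinearMap.proj (C j) : (Z → 𝕜) →L[𝕜] 𝕜) :
          (PiLp 1 (fun _ : O => 𝕜)) →L[𝕜] 𝕜) (uv ω) = 1 := by
        have e1 : adjointMap (opT 𝕜 y) (ContinuousLinearMap.proj (C i) : (Z → 𝕜) →L[𝕜] 𝕜)
            (uv ω) = opT 𝕜 y (uv ω) (C i) := rfl
        have e2 : adjointMap (opT 𝕜 y) (ContinuousLinearMap.proj (C j) : (Z → 𝕜) →L[𝕜] 𝕜)
            (uv ω) = opT 𝕜 y (uv ω) (C j) := rfl
        rw [sub_apply, e1, e2, opT_uv, opT_uv, h1, h0]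
        simp
      have h := ContinuousLinearMap.le_opNorm
        (adjointMap (opT 𝕜 y) (ContinuousLinearMap.proj (C i) : (Z → 𝕜) →L[𝕜] 𝕜)
          - adjointMap (opT 𝕜 y) (ContinuousLinearMap.proj (C j) : (Z → 𝕜) →L[𝕜] 𝕜) :
          (PiLp 1 (fun _ : O => 𝕜)) →L[𝕜] 𝕜) (uv ω)
      rw [e, norm_uv, norm_one, mul_one] at h
      exact h
  · refine le_ent _ M (fun i => (uv (C i) : PiLp 1 (fun _ : Z => 𝕜))) ?_ ?_
    · intro i
      exact (norm_uv (C i)).le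
    · intro i j hij
      obtain ⟨ω, h1, h0⟩ := hC i j hij
      have h := norm_le_pi_norm (opT 𝕜 (fun z ω => y ω z) (uv (C i))
        - opT 𝕜 (fun z ω => y ω z) (uv (C j))) ω
      rw [Pi.sub_apply, opT_uv, opT_uv, h1, h0] at h
      simpa using h

end Pool.Agent.Work.MP_c13439_tree
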