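import Pool.Agent.Work.MP_c13439_tree.Interface

set_option autoImplicit false

/-!
# Block PAR: the parameters
-/

namespace Pool.Agent.Work.MP_c13439_tree

open Finset Pool.Agent.Work.MP_c13439_an

namespace PARAux

theorem four_pow (D : ℕ) : D * (2 * D + 1) ≤ 4 ^ D := by
  induction D with
  | zero => simp
  | succ D ih =>
    rcases Nat.eq_zero_or_pos D with h | h
    · subst h; norm_num
    · have h2 : (D + 1) * (2 * (D + 1) + 1) ≤ 4 * (D * (2 * D + 1)) := by nlinarith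
      calc (D + 1) * (2 * (D + 1) + 1) ≤ 4 * (D * (2 * D + 1)) := h2
        _ ≤ 4 * 4 ^ D := Nat.mul_le_mul_left _ ih
        _ = 4 ^ (D + 1) := by rw [pow_succ]; ring

/-- the branching numbers -/
def mm (a : ℕ) (t : ℕ) : ℕ := 2 ^ (a * 2 ^ t)

theorem R_mm (a t : ℕ) : R (mm a) t * 2 ^ a = 2 ^ (a * 2 ^ t) := by
  induction t with
  | zero => simp [R]
  | succ t ih =>
    have h1 : R (mm a) (t + 1) = R (mm a) t * mm a t := by
      unfold R; rw [prod_range_succ]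
    rw [h1]
    calc R (mm a) t * mm a t * 2 ^ a = (R (mm a) t * 2 ^ a) * mm a t := by ring
      _ = 2 ^ (a * 2 ^ t) * 2 ^ (a * 2 ^ t) := by rw [ih]; rfl
      _ = 2 ^ (a * 2 ^ (t + 1)) := by rw [← pow_add]; ring_nf

theorem R_pos (a t : ℕ) : 0 < R (mm a) t := by
  unfold R
  exact prod_pos fun i _ => Nat.pos_of_ne_zero (by unfold mm; positivity)

theorem R_succ (a t : ℕ) : R (mm a) (t + 1) = 2 ^ a * R (mm a) t ^ 2 := by
  have h1 : R (mm a) (t + 1) = R (mm a) t * mm a t := by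
    unfold R; rw [prod_range_succ]
  rw [h1]
  have h2 : mm a t = R (mm a) t * 2 ^ a := by rw [R_mm]; rfl
  rw [h2]; ring

theorem R_mul_bb (m : ℕ → ℕ) (T t : ℕ) (h : t ≤ T) : R m t * bb m T t = R m T := by
  unfold R bb
  exact prod_range_mul_prod_Ico _ h

end PARAux

theorem blk_PAR : Stmt_PAR := by
  intro T s B hT hs hB
  set D : ℕ := 2 ^ T * B * (T ^ 2 * s * 2 ^ (T + 1) + T ^ 2 * s * (T ^ 2 * s ^ 2) + 1) with hD
  set a : ℕ := 2 * D with ha
  set c : ℕ := a * 2 ^ (T + 1) + T ^ 2 * s ^ 2 with hc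
  have hbig : 2 ^ T * B * (T ^ 2 * s * c + 1) ≤ 2 ^ a := by
    have h1 : D * (2 * D + 1) ≤ 2 ^ a := by
      have := PARAux.four_pow D
      rw [ha, pow_mul]
      exact this
    refine le_trans ?_ h1
    rw [hD]
    have h2 : T ^ 2 * s * c + 1 ≤
        (T ^ 2 * s * 2 ^ (T + 1) + T ^ 2 * s * (T ^ 2 * s ^ 2) + 1) * (2 * D + 1) := by
      rw [hc, ← ha]
      have e1 : T ^ 2 * s * (a * 2 ^ (T + 1) + T ^ 2 * s ^ 2) + 1 =
        (T ^ 2 * s * 2 ^ (T + 1)) * a + (T ^ 2 * s * (T ^ 2 * s ^ 2) + 1) := by ring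
      rw [e1]
      have e2 : (T ^ 2 * s * 2 ^ (T + 1) + T ^ 2 * s * (T ^ 2 * s ^ 2) + 1) * (a + 1) =
        (T ^ 2 * s * 2 ^ (T + 1)) * a + (T ^ 2 * s * (T ^ 2 * s ^ 2) + 1)
          + ((T ^ 2 * s * 2 ^ (T + 1)) + (T ^ 2 * s * (T ^ 2 * s ^ 2) + 1) * a) := by ring
      rw [e2]
      exact Nat.le_add_right _ _
    calc 2 ^ T * B * (T ^ 2 * s * c + 1) ≤ 2 ^ T * B *
        ((T ^ 2 * s * 2 ^ (T + 1) + T ^ 2 * s * (T ^ 2 * s ^ 2) + 1) * (2 * D + 1)) :=
          Nat.mul_le_mul_left _ h2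
      _ = _ := by rw [← hD]; rw [hD]; ring
  refine ⟨PARAux.mm a, fun t => T * s * R (PARAux.mm a) t, c, ?_, ?_, ?_, ?_, ?_⟩
  · intro t; unfold PARAux.mm; positivity
  · intro t
    have := PARAux.R_pos a t
    positivity
  · -- (1)
    have h1 : ∀ t ∈ range T, (R (PARAux.mm a) t : ℝ) / ((T * s * R (PARAux.mm a) t : ℕ) : ℝ)
        = 1 / ((T : ℝ) * s) := by
      intro t _
      have hR : (0 : ℝ) < R (PARAux.mm a) t := by exact_mod_cast PARAux.R_pos a t
      have hT' : (0 : ℝ) < T := by exact_mod_cast hT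
      have hs' : (0 : ℝ) < s := by exact_mod_cast hs
      push_cast
      field_simp
    rw [sum_congr rfl h1, sum_const, card_range, nsmul_eq_mul]
    have hT' : (0 : ℝ) < T := by exact_mod_cast hT
    have hs' : (0 : ℝ) < s := by exact_mod_cast hs
    apply le_of_eq
    field_simp
  · -- (2)
    have h1 : (∑ t ∈ range T, (R (PARAux.mm a) t : ℝ) * ((T * s * R (PARAux.mm a) t : ℕ) : ℝ))
        ≤ T * ((T * s) * 2 ^ (a * 2 ^ (T + 1))) := by
      have h2 : ∀ t ∈ range T, (R (PARAux.mm a) t : ℝ) * ((T * s * R (PARAux.mm a) t : ℕ) : ℝ)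
          ≤ (T * s) * 2 ^ (a * 2 ^ (T + 1)) := by
        intro t ht
        have hR : R (PARAux.mm a) t ≤ 2 ^ (a * 2 ^ T) := by
          have h3 := PARAux.R_mm a t
          have h4 : R (PARAux.mm a) t ≤ 2 ^ (a * 2 ^ t) := by
            rw [← h3]
            exact Nat.le_mul_of_pos_right _ (by positivity)
          refine le_trans h4 (Nat.pow_le_pow_right (by norm_num) ?_)
          exact Nat.mul_le_mul_left _ (Nat.pow_le_pow_right (by norm_num) (mem_range.1 ht).le)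
        have hR' : (R (PARAux.mm a) t : ℝ) ≤ 2 ^ (a * 2 ^ T) := by exact_mod_cast hR
        have hR0 : (0 : ℝ) ≤ R (PARAux.mm a) t := by positivity
        have h5 : (R (PARAux.mm a) t : ℝ) * R (PARAux.mm a) t ≤ 2 ^ (a * 2 ^ (T + 1)) := by
          calc (R (PARAux.mm a) t : ℝ) * R (PARAux.mm a) t
              ≤ 2 ^ (a * 2 ^ T) * 2 ^ (a * 2 ^ T) := mul_le_mul hR' hR' hR0 (by positivity)
            _ = 2 ^ (a * 2 ^ (T + 1)) := by rw [← pow_add]; ring_nf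
        push_cast
        calc (R (PARAux.mm a) t : ℝ) * (T * s * R (PARAux.mm a) t)
            = (T * s) * ((R (PARAux.mm a) t : ℝ) * R (PARAux.mm a) t) := by ring
          _ ≤ (T * s) * 2 ^ (a * 2 ^ (T + 1)) := mul_le_mul_of_nonneg_left h5 (by positivity)
      refine le_trans (sum_le_sum h2) ?_
      rw [sum_const, card_range, nsmul_eq_mul]
    have h3 : (T : ℝ) ^ 2 * s ^ 2 ≤ 2 ^ (T ^ 2 * s ^ 2) := by
      have : T ^ 2 * s ^ 2 ≤ 2 ^ (T ^ 2 * s ^ 2) := (Nat.lt_two_pow_self).le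
      exact_mod_cast this
    have hs' : (0 : ℝ) < s := by exact_mod_cast hs
    have hpc : (0 : ℝ) < (1 / 2 : ℝ) ^ c := by positivity
    have hc2 : ((2 : ℝ) ^ (a * 2 ^ (T + 1)) * 2 ^ (T ^ 2 * s ^ 2)) * (1 / 2 : ℝ) ^ c = 1 := by
      rw [← pow_add, ← hc, ← mul_pow]
      norm_num
    rw [le_div_iff₀ hs']
    calc (∑ t ∈ range T, (R (PARAux.mm a) t : ℝ) * ((T * s * R (PARAux.mm a) t : ℕ) : ℝ))
          * (1 / 2) ^ c * s
        ≤ (T * ((T * s) * 2 ^ (a * 2 ^ (T + 1)))) * (1 / 2) ^ c * s := by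
          gcongr
      _ = (2 ^ (a * 2 ^ (T + 1)) * ((T : ℝ) ^ 2 * s ^ 2)) * (1 / 2) ^ c := by ring
      _ ≤ (2 ^ (a * 2 ^ (T + 1)) * 2 ^ (T ^ 2 * s ^ 2)) * (1 / 2) ^ c := by gcongr
      _ = 1 := hc2
  · -- (3)
    have h1 : 2 ^ a * (∑ t ∈ range T, R (PARAux.mm a) t * (T * s * R (PARAux.mm a) t) * c *
        bb (PARAux.mm a) T (t + 1)) = T ^ 2 * s * c * R (PARAux.mm a) T := by
      rw [mul_sum]
      have h2 : ∀ t ∈ range T, 2 ^ a * (R (PARAux.mm a) t * (T * s * R (PARAux.mm a) t) * c *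
        bb (PARAux.mm a) T (t + 1)) = T * s * c * R (PARAux.mm a) T := by
        intro t ht
        have h3 := PARAux.R_mul_bb (PARAux.mm a) T (t + 1) (mem_range.1 ht)
        rw [PARAux.R_succ] at h3
        calc 2 ^ a * (R (PARAux.mm a) t * (T * s * R (PARAux.mm a) t) * c *
            bb (PARAux.mm a) T (t + 1))
            = T * s * c * (2 ^ a * R (PARAux.mm a) t ^ 2 * bb (PARAux.mm a) T (t + 1)) := by ring
          _ = T * s * c * R (PARAux.mm a) T := by rw [h3]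
      rw [sum_congr rfl h2, sum_const, card_range, smul_eq_mul]
      ring
    have h4 : 2 ^ a ≤ R (PARAux.mm a) T := by
      obtain ⟨t, rfl⟩ : ∃ t, T = t + 1 := ⟨T - 1, by omega⟩
      rw [PARAux.R_succ]
      exact Nat.le_mul_of_pos_right _ (pow_pos (PARAux.R_pos a t) 2)
    have h5 : 0 < 2 ^ a := by positivity
    refine Nat.le_of_mul_le_mul_left ?_ h5
    calc 2 ^ a * (2 ^ T * B * ((∑ t ∈ range T, R (PARAux.mm a) t *
          (T * s * R (PARAux.mm a) t) * c * bb (PARAux.mm a) T (t + 1)) + 1))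
        = 2 ^ T * B * (2 ^ a * (∑ t ∈ range T, R (PARAux.mm a) t *
          (T * s * R (PARAux.mm a) t) * c * bb (PARAux.mm a) T (t + 1)) + 2 ^ a) := by ring
      _ = 2 ^ T * B * (T ^ 2 * s * c * R (PARAux.mm a) T + 2 ^ a) := by rw [h1]
      _ ≤ 2 ^ T * B * (T ^ 2 * s * c * R (PARAux.mm a) T + R (PARAux.mm a) T) := by gcongr
      _ = (2 ^ T * B * (T ^ 2 * s * c + 1)) * R (PARAux.mm a) T := by ring
      _ ≤ 2 ^ a * R (PARAux.mm a) T := Nat.mul_le_mul_right _ hbig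

end Pool.Agent.Work.MP_c13439_tree
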