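import Pool.Agent.Work.MP_c13439_tree.Interface

set_option autoImplicit false

/-!
# Block PICK: greedy choice of children
-/

namespace Pool.Agent.Work.MP_c13439_tree

open Finset

open Classical in
theorem pick_step {X V : Type} [Fintype X] (C : Finset V) (b : X → Finset V) (w : X → ℝ)
    (hC : C.Nonempty) (hw : ∀ x, 0 ≤ w x) (hb : ∀ x, 0 < w x → C.card ≤ 2 * (C ∩ b x).card) :
    ∃ κ ∈ C, (∑ x, if κ ∉ b x then w x else 0) ≤ (1 / 2 : ℝ) * ∑ x, w x := by
  refine Finset.exists_le_of_sum_le hC ?_
  rw [Finset.sum_comm, Finset.sum_const, nsmul_eq_mul]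
  have h1 : ∀ x ∈ (Finset.univ : Finset X), (∑ κ ∈ C, if κ ∉ b x then w x else 0) ≤
      (C.card : ℝ) * ((1 / 2 : ℝ) * w x) := by
    intro x _
    rw [← Finset.sum_filter, Finset.sum_const, nsmul_eq_mul]
    rcases (hw x).eq_or_lt with h0 | h0
    · rw [← h0]
      simp
    · have h2 := hb x h0
      have h3 : (C.filter fun κ => κ ∈ b x) = C ∩ b x := Finset.filter_mem_eq_inter
      have h4 := Finset.card_filter_add_card_filter_not (s := C) (fun κ => κ ∈ b x)
      rw [h3] at h4
      have h5 : 2 * (C.filter fun κ => κ ∉ b x).card ≤ C.card := by omega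
      have h6 : (2 : ℝ) * ((C.filter fun κ => κ ∉ b x).card : ℝ) ≤ (C.card : ℝ) := by
        exact_mod_cast h5
      have h7 := mul_le_mul_of_nonneg_right h6 h0.le
      linarith
  refine le_trans (Finset.sum_le_sum h1) (le_of_eq ?_)
  rw [← Finset.mul_sum, ← Finset.mul_sum]

open Classical in
theorem blk_PICK : Stmt_PICK := by
  intro X V _ C b w c hC hw hb
  induction c with
  | zero =>
    refine ⟨fun i => i.elim0, fun i => i.elim0, ?_⟩
    rw [pow_zero, one_mul]
    refine Finset.sum_le_sum fun x _ => ?_
    split_ifs
    · exact le_rfl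
    · exact hw x
  | succ c ih =>
    obtain ⟨pk, h1, h2⟩ := ih
    obtain ⟨κ, hκ, h3⟩ := pick_step C b (fun x => if (∀ i, pk i ∉ b x) then w x else 0) hC
      (fun x => by
        show (0 : ℝ) ≤ if (∀ i, pk i ∉ b x) then w x else 0
        split_ifs
        · exact hw x
        · exact le_rfl)
      (fun x hx => by
        have hx' : (0 : ℝ) < if (∀ i, pk i ∉ b x) then w x else 0 := hx
        by_cases hq : ∀ i, pk i ∉ b x
        · rw [if_pos hq] at hx'
          exact hb x hx'
        · rw [if_neg hq] at hx'
          exact absurd hx' (lt_irrefl _))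
    refine ⟨Fin.cons (α := fun _ => V) κ pk, ?_, ?_⟩
    · intro i
      refine Fin.cases ?_ (fun j => ?_) i
      · rw [Fin.cons_zero]
        exact hκ
      · rw [Fin.cons_succ]
        exact h1 j
    · have h4 : ∀ x, (if (∀ i, (Fin.cons (α := fun _ => V) κ pk : Fin (c + 1) → V) i ∉ b x)
          then w x else 0) = if κ ∉ b x then (if (∀ i, pk i ∉ b x) then w x else 0) else 0 := by
        intro x
        by_cases ha : κ ∈ b x
        · rw [if_neg (not_not.2 ha), if_neg]
          intro hcon
          have := hcon 0
          rw [Fin.cons_zero] at this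
          exact this ha
        · rw [if_pos ha]
          by_cases hq : ∀ i, pk i ∉ b x
          · rw [if_pos hq, if_pos]
            intro i
            refine Fin.cases ?_ (fun j => ?_) i
            · rw [Fin.cons_zero]
              exact ha
            · rw [Fin.cons_succ]
              exact hq j
          · rw [if_neg hq, if_neg]
            intro hcon
            apply hq
            intro j
            have := hcon j.succ
            rwa [Fin.cons_succ] at this
      rw [Finset.sum_congr rfl fun x _ => h4 x]
      refine le_trans h3 ?_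
      rw [pow_succ']
      have h5 := mul_le_mul_of_nonneg_left h2 (by norm_num : (0 : ℝ) ≤ 1 / 2)
      linarith

end Pool.Agent.Work.MP_c13439_tree
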