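import Mathlib
import Pool.Agent.Work.MP_c13439_tree.Interface2

set_option autoImplicit false

namespace Pool.Agent.Work.MP_c13439_tree

open Finset Pool.Agent.Work.MP_c13439_an

namespace PIECEAux

theorem norm_opT_le (𝕜 : Type) [RCLike 𝕜] {O Z : Type} [Fintype O] [Fintype Z] (y : O → Z → ℝ)
    (hy : ∀ ω z, 0 ≤ y ω z ∧ y ω z ≤ 1) : ‖opT 𝕜 y‖ ≤ 1 := by
  refine ContinuousLinearMap.opNorm_le_bound _ zero_le_one fun x => ?_
  rw [one_mul]
  refine (pi_norm_le_iff_of_nonneg (norm_nonneg _)).2 fun z => ?_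
  have h1 : (opT 𝕜 y) x z = ∑ ω, x ω * (y ω z : 𝕜) := rfl
  rw [h1]
  refine (norm_sum_le _ _).trans ?_
  rw [PiLp.norm_eq_of_L1]
  refine Finset.sum_le_sum fun ω _ => ?_
  rw [norm_mul, RCLike.norm_ofReal, abs_of_nonneg (hy ω z).1]
  exact mul_le_of_le_one_right (norm_nonneg _) (hy ω z).2

/-- An operator between finite-dimensional spaces as an operator on one space. -/
theorem same (hI : Stmt_IDEAL) (𝕜 : Type) [RCLike 𝕜] (X Y : Type) [NormedAddCommGroup X]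
    [NormedSpace 𝕜 X] [FiniteDimensional 𝕜 X] [NormedAddCommGroup Y] [NormedSpace 𝕜 Y]
    [FiniteDimensional 𝕜 Y] (A0 : X →L[𝕜] Y) (h0 : ‖A0‖ ≤ 1) :
    ∃ P : Pc 𝕜, (∀ n, entropyNumber P.A n = entropyNumber A0 n) ∧
      ∀ n, entropyNumber (adjointMap P.A) n = entropyNumber (adjointMap A0) n := by
  have hl : ‖ContinuousLinearMap.inl 𝕜 X Y‖ ≤ 1 :=
    ContinuousLinearMap.opNorm_le_bound _ zero_le_one fun x => by
      simp [Prod.norm_def]
  have hr : ‖ContinuousLinearMap.inr 𝕜 X Y‖ ≤ 1 :=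
    ContinuousLinearMap.opNorm_le_bound _ zero_le_one fun x => by
      simp [Prod.norm_def]
  have hf : ‖ContinuousLinearMap.fst 𝕜 X Y‖ ≤ 1 :=
    ContinuousLinearMap.opNorm_le_bound _ zero_le_one fun x => by
      rw [one_mul]; exact norm_fst_le x
  have hs : ‖ContinuousLinearMap.snd 𝕜 X Y‖ ≤ 1 :=
    ContinuousLinearMap.opNorm_le_bound _ zero_le_one fun x => by
      rw [one_mul]; exact norm_snd_le x
  let A : (X × Y) →L[𝕜] (X × Y) :=
    ((ContinuousLinearMap.inr 𝕜 X Y).comp A0).comp (ContinuousLinearMap.fst 𝕜 X Y)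
  have hA : ‖A‖ ≤ 1 := by
    refine (ContinuousLinearMap.opNorm_comp_le _ _).trans ?_
    refine mul_le_one₀ ((ContinuousLinearMap.opNorm_comp_le _ _).trans ?_) (norm_nonneg _) hf
    exact mul_le_one₀ hr (norm_nonneg _) h0
  have hback : ((ContinuousLinearMap.snd 𝕜 X Y).comp A).comp (ContinuousLinearMap.inl 𝕜 X Y)
      = A0 := by
    ext x
    simp [A]
  refine ⟨⟨X × Y, inferInstance, inferInstance, inferInstance, A, hA⟩, fun n => ?_, fun n => ?_⟩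
  · refine le_antisymm (hI 𝕜 (X × Y) X Y (X × Y) _ A0 _ hf hr n).1 ?_
    have := (hI 𝕜 X (X × Y) (X × Y) Y _ A _ hl hs n).1
    rw [hback] at this
    exact this
  · refine le_antisymm (hI 𝕜 (X × Y) X Y (X × Y) _ A0 _ hf hr n).2 ?_
    have := (hI 𝕜 X (X × Y) (X × Y) Y _ A _ hl hs n).2
    rw [hback] at this
    exact this

end PIECEAux

open PIECEAux in
theorem blk_PIECE (hC : Stmt_CORE) (hU : Stmt_OPU) (hL : Stmt_OPL) (hI : Stmt_IDEAL) :
    Stmt_PIECE := by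
  intro 𝕜 _ η B hη
  obtain ⟨O, Z, fO, fZ, y, n, F, C, hy, hcov, hsep⟩ := hC (η / 2) (2 * B) (by linarith)
  obtain ⟨u1, u2⟩ := hU 𝕜 O Z y (η / 2) n F (by linarith) hcov
  obtain ⟨l1, l2⟩ := hL 𝕜 O Z y ((2 * B) * (n + 1)) C hsep
  have hidx : B * (2 * n + 1) ≤ (2 * B) * (n + 1) := by
    have : B * (2 * n + 1) + B = (2 * B) * (n + 1) := by ring
    omega
  have e2 : 2 * (η / 2) = η := by ring
  constructor
  · obtain ⟨P, h1, h2⟩ := same hI 𝕜 _ _ (opT 𝕜 y) (norm_opT_le 𝕜 y hy)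
    refine ⟨P, 2 * n, ?_, ?_⟩
    · rw [h1, ← e2]; exact u1
    · rw [h2]; exact l1.trans (ent_anti _ hidx)
  · obtain ⟨P, h1, h2⟩ := same hI 𝕜 _ _ (opT 𝕜 (fun z ω => y ω z))
      (norm_opT_le 𝕜 (fun z ω => y ω z) fun z ω => hy ω z)
    refine ⟨P, 2 * n, ?_, ?_⟩
    · rw [h2, ← e2]; exact u2
    · rw [h1]; exact l2.trans (ent_anti _ hidx)

end Pool.Agent.Work.MP_c13439_tree
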