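import Pool.Agent.Work.MP_c13439_tree.Interface2

set_option autoImplicit false

/-!
# Block SEQ: dependent choice
-/

namespace Pool.Agent.Work.MP_c13439_tree

open Finset Pool.Agent.Work.MP_c13439_an

theorem blk_SEQ : Stmt_SEQ := by
  intro α r h
  choose F hF using h
  let f : ℕ → α := fun n =>
    Nat.strongRecOn (motive := fun _ => α) n (fun n ih => F n (fun m : Fin n => ih m.1 m.2))
  have hf : ∀ n, f n = F n (fun m : Fin n => f m.1) := by
    intro n
    exact Nat.strongRecOn_eq (motive := fun _ => α) _ n
  refine ⟨f, fun n => ?_⟩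
  have h1 := hF n (fun m : Fin n => f m.1)
  rw [← hf n] at h1
  exact h1

end Pool.Agent.Work.MP_c13439_tree
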