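import Pool.Agent.Work.MP_c13439_tree.Interface2

set_option autoImplicit false

namespace Pool.Agent.Work.MP_c13439_tree

open Finset Pool.Agent.Work.MP_c13439_an

namespace SERIES

theorem lam_pos (k : ℕ) : 0 < lam k := by
  unfold lam
  positivity

theorem lam_succ (k : ℕ) : lam (k + 1) = lam k / ((k : ℝ) + 1) ^ 2 := by
  unfold lam
  rw [Nat.factorial_succ]
  push_cast
  field_simp

theorem lam_add (j i : ℕ) : lam (j + 1 + i) ≤ lam j / ((j : ℝ) + 1) ^ 2 * (1 / 4) ^ i := by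
  induction i with
  | zero => rw [add_zero, pow_zero, mul_one, lam_succ]
  | succ i ih =>
    have h1 : lam (j + 1 + (i + 1)) = lam (j + 1 + i) / (((j + 1 + i : ℕ) : ℝ) + 1) ^ 2 :=
      lam_succ (j + 1 + i)
    have h2 : (4 : ℝ) ≤ (((j + 1 + i : ℕ) : ℝ) + 1) ^ 2 := by
      push_cast
      have hj : (0 : ℝ) ≤ (j : ℝ) := Nat.cast_nonneg j
      have hi : (0 : ℝ) ≤ (i : ℝ) := Nat.cast_nonneg i
      nlinarith
    have h3 : lam (j + 1 + i) / (((j + 1 + i : ℕ) : ℝ) + 1) ^ 2 ≤ lam (j + 1 + i) / 4 :=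
      div_le_div_of_nonneg_left (lam_pos _).le (by norm_num) h2
    have h4 : ((1 : ℝ) / 4) ^ (i + 1) = (1 / 4) ^ i * (1 / 4) := pow_succ _ _
    rw [h1, h4]
    linarith

theorem summable_tail (j : ℕ) : Summable fun i => lam (j + 1 + i) := by
  refine Summable.of_nonneg_of_le (fun i => (lam_pos _).le) (lam_add j) ?_
  exact (summable_geometric_of_lt_one (by norm_num) (by norm_num)).mul_left _

theorem summable_lam : Summable lam := by
  have h := summable_tail 0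
  have h2 : Summable fun i => lam (i + 1) := by
    refine h.congr fun i => ?_
    rw [zero_add, add_comm]
  exact (summable_nat_add_iff 1).1 h2

theorem tail_le (j : ℕ) : ∑' i, lam (j + 1 + i) ≤ 4 * lam j / ((j : ℝ) + 1) ^ 2 := by
  have h1 : ∑' i : ℕ, lam j / ((j : ℝ) + 1) ^ 2 * (1 / 4) ^ i =
      lam j / ((j : ℝ) + 1) ^ 2 * (4 / 3) := by
    rw [tsum_mul_left, tsum_geometric_of_lt_one (by norm_num) (by norm_num)]
    norm_num
  have h2 : ∑' i, lam (j + 1 + i) ≤ ∑' i : ℕ, lam j / ((j : ℝ) + 1) ^ 2 * (1 / 4) ^ i :=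
    (summable_tail j).tsum_le_tsum (lam_add j)
      ((summable_geometric_of_lt_one (by norm_num) (by norm_num)).mul_left _)
  rw [h1] at h2
  have h3 : 0 < lam j / ((j : ℝ) + 1) ^ 2 := div_pos (lam_pos j) (by positivity)
  calc _ ≤ lam j / ((j : ℝ) + 1) ^ 2 * (4 / 3) := h2
    _ ≤ lam j / ((j : ℝ) + 1) ^ 2 * 4 := by nlinarith
    _ = 4 * lam j / ((j : ℝ) + 1) ^ 2 := by ring

theorem sum_lam_le (j : ℕ) : ∑ k ∈ range j, lam k ≤ 3 := by
  have h1 : ∑ k ∈ range j, lam k ≤ ∑' k, lam k :=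
    summable_lam.sum_le_tsum _ fun i _ => (lam_pos i).le
  have h2 : ∑' k, lam k = lam 0 + ∑' k, lam (k + 1) := summable_lam.tsum_eq_zero_add
  have h3 : ∑' k, lam (k + 1) = ∑' i, lam (0 + 1 + i) := by
    refine tsum_congr fun i => ?_
    rw [zero_add, add_comm]
  have h4 : ∑' i, lam (0 + 1 + i) ≤ ∑' i : ℕ, lam 0 / (((0 : ℕ) : ℝ) + 1) ^ 2 * (1 / 4) ^ i :=
    (summable_tail 0).tsum_le_tsum (lam_add 0)
      ((summable_geometric_of_lt_one (by norm_num) (by norm_num)).mul_left _)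
  have h5 : ∑' i : ℕ, lam 0 / (((0 : ℕ) : ℝ) + 1) ^ 2 * (1 / 4) ^ i =
      lam 0 / (((0 : ℕ) : ℝ) + 1) ^ 2 * (4 / 3) := by
    rw [tsum_mul_left, tsum_geometric_of_lt_one (by norm_num) (by norm_num)]
    norm_num
  have h6 : lam 0 = 1 := by
    unfold lam
    norm_num
  rw [h5, h6] at h4
  rw [h2, h3, h6] at h1
  norm_num at h4
  linarith

section

variable {𝕜 : Type} [RCLike 𝕜] {X : Type} [NormedAddCommGroup X] [NormedSpace 𝕜 X]

theorem norm_term (r : ℝ) (hr : 0 ≤ r) (S : X →L[𝕜] X) (hS : ‖S‖ ≤ 1) : ‖(r : 𝕜) • S‖ ≤ r := by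
  rw [norm_smul, RCLike.norm_ofReal, abs_of_nonneg hr]
  calc r * ‖S‖ ≤ r * 1 := mul_le_mul_of_nonneg_left hS hr
    _ = r := mul_one r

variable [CompleteSpace X]

theorem summ (Q : ℕ → X →L[𝕜] X) (hQ : ∀ k, ‖Q k‖ ≤ 1) :
    Summable fun k => ((lam k : ℝ) : 𝕜) • Q k :=
  Summable.of_norm_bounded summable_lam fun k => norm_term _ (lam_pos k).le _ (hQ k)

/-- the generic upper bound -/
theorem generic (Q : ℕ → X →L[𝕜] X) (hQ : ∀ k, ‖Q k‖ ≤ 1) (e : (X →L[𝕜] X) → ℕ → ℝ)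
    (hadd : ∀ S S' m n, e (S + S') (m + n) ≤ e S m + e S' n) (h0 : ∀ S, e S 0 ≤ ‖S‖)
    (hs : ∀ S (r : ℝ) n, 0 < r → e ((r : 𝕜) • S) n = r * e S n)
    (j n : ℕ) (N : ℕ → ℕ) (δ : ℝ) (hδ : 0 < δ) (hN : ∀ k < j, e (Q k) (N k) ≤ δ) :
    e (∑' k, ((lam k : ℝ) : 𝕜) • Q k) ((∑ k ∈ range j, N k) + n) ≤
      3 * δ + lam j * e (Q j) n + 4 * lam j / (j + 1) ^ 2 := by
  have hsum := summ Q hQ
  have h1 : ∑' k, ((lam k : ℝ) : 𝕜) • Q k = (∑ k ∈ range j, ((lam k : ℝ) : 𝕜) • Q k) +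
      (((lam j : ℝ) : 𝕜) • Q j + ∑' i, ((lam (j + 1 + i) : ℝ) : 𝕜) • Q (j + 1 + i)) := by
    rw [← hsum.sum_add_tsum_nat_add (j + 1), Finset.sum_range_succ, add_assoc]
    congr 2
    refine tsum_congr fun i => ?_
    rw [add_comm i (j + 1)]
  have h2 : ‖∑' i, ((lam (j + 1 + i) : ℝ) : 𝕜) • Q (j + 1 + i)‖ ≤
      4 * lam j / ((j : ℝ) + 1) ^ 2 := by
    refine le_trans ?_ (tail_le j)
    exact tsum_of_norm_bounded (summable_tail j).hasSum
      fun i => norm_term _ (lam_pos _).le _ (hQ _)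
  have h3 : ∀ J ≤ j, e (∑ k ∈ range J, ((lam k : ℝ) : 𝕜) • Q k) (∑ k ∈ range J, N k) ≤
      (∑ k ∈ range J, lam k) * δ := by
    intro J
    induction J with
    | zero =>
      intro _
      simp only [range_zero, sum_empty, zero_mul]
      exact (h0 0).trans (by rw [norm_zero])
    | succ J ih =>
      intro hJ
      rw [Finset.sum_range_succ, Finset.sum_range_succ, Finset.sum_range_succ, add_mul]
      refine (hadd _ _ _ _).trans (add_le_add (ih (by omega)) ?_)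
      rw [hs _ _ _ (lam_pos J)]
      exact mul_le_mul_of_nonneg_left (hN J (by omega)) (lam_pos J).le
  rw [h1]
  have h4 : e (((lam j : ℝ) : 𝕜) • Q j + ∑' i, ((lam (j + 1 + i) : ℝ) : 𝕜) • Q (j + 1 + i))
      (n + 0) ≤ lam j * e (Q j) n + 4 * lam j / ((j : ℝ) + 1) ^ 2 := by
    refine (hadd _ _ _ _).trans (add_le_add ?_ ((h0 _).trans h2))
    rw [hs _ _ _ (lam_pos j)]
  rw [add_zero] at h4
  have h5 := hadd (∑ k ∈ range j, ((lam k : ℝ) : 𝕜) • Q k)
    (((lam j : ℝ) : 𝕜) • Q j + ∑' i, ((lam (j + 1 + i) : ℝ) : 𝕜) • Q (j + 1 + i))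
    (∑ k ∈ range j, N k) n
  have h6 := h3 j le_rfl
  have h7 : (∑ k ∈ range j, lam k) * δ ≤ 3 * δ := mul_le_mul_of_nonneg_right (sum_lam_le j) hδ.le
  linarith

theorem compact (Q : ℕ → X →L[𝕜] X) (hQ : ∀ k, ‖Q k‖ ≤ 1) (hc : ∀ k, IsCompactOperator (Q k)) :
    IsCompactOperator (∑' k, ((lam k : ℝ) : 𝕜) • Q k : X →L[𝕜] X) := by
  have h1 := (summ Q hQ).hasSum.tendsto_sum_nat
  refine isCompactOperator_of_tendsto h1 (Filter.Eventually.of_forall fun J => ?_)
  induction J with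
  | zero =>
    simp only [range_zero, sum_empty]
    exact isCompactOperator_zero
  | succ J ih =>
    rw [Finset.sum_range_succ]
    exact ih.add ((hc J).smul _)

end

end SERIES

open SERIES in
theorem blk_SERIES (hIDEAL : Stmt_IDEAL) (hADD : Stmt_ADD) : Stmt_SERIES := by
  intro 𝕜 _ P X _ _ _ ι π hι hπ hid hz
  have hQ : ∀ k, ‖((ι k).comp (P k).A).comp (π k)‖ ≤ 1 := by
    intro k
    have h1 := ContinuousLinearMap.opNorm_comp_le ((ι k).comp (P k).A) (π k)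
    have h2 := ContinuousLinearMap.opNorm_comp_le (ι k) (P k).A
    have h3 : ‖ι k‖ * ‖(P k).A‖ ≤ 1 * 1 :=
      mul_le_mul (hι k) (P k).le (norm_nonneg _) zero_le_one
    have h4 : ‖(ι k).comp (P k).A‖ * ‖π k‖ ≤ 1 * 1 :=
      mul_le_mul (by linarith) (hπ k) (norm_nonneg _) zero_le_one
    linarith
  have hc : ∀ k, IsCompactOperator (((ι k).comp (P k).A).comp (π k)) := by
    intro k
    have : ProperSpace (P k).E := FiniteDimensional.proper 𝕜 (P k).E
    have h1 : IsCompactOperator ((ι k).comp (P k).A) :=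
      isCompactOperator_of_locallyCompactSpace_rng ((ι k).comp (P k).A)
    exact h1.comp_clm (π k)
  obtain ⟨ha1, ha2, ha3⟩ := hADD 𝕜 X X
  refine ⟨∑' k, ((lam k : ℝ) : 𝕜) • (((ι k).comp (P k).A).comp (π k)), compact _ hQ hc, ?_, ?_, ?_⟩
  · intro j n
    have h1 : ((π j).comp (∑' k, ((lam k : ℝ) : 𝕜) • (((ι k).comp (P k).A).comp (π k)))).comp (ι j)
        = ((lam j : ℝ) : 𝕜) • (P j).A := by
      ext x
      have hs := summ (fun k => ((ι k).comp (P k).A).comp (π k)) hQ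
      have h2 : (∑' k, ((lam k : ℝ) : 𝕜) • (((ι k).comp (P k).A).comp (π k))) (ι j x) =
          ∑' k, (((lam k : ℝ) : 𝕜) • (((ι k).comp (P k).A).comp (π k))) (ι j x) :=
        (ContinuousLinearMap.apply 𝕜 X (ι j x)).map_tsum hs
      have h3 : ∑' k, (((lam k : ℝ) : 𝕜) • (((ι k).comp (P k).A).comp (π k))) (ι j x) =
          (((lam j : ℝ) : 𝕜) • (((ι j).comp (P j).A).comp (π j))) (ι j x) := by
        refine tsum_eq_single j fun k hk => ?_
        have h4 : π k (ι j x) = 0 := by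
          have := DFunLike.congr_fun (hz k j hk) x
          simpa using this
        rw [smul_apply, ContinuousLinearMap.comp_apply, h4, map_zero, smul_zero]
      have h5 : ∀ y, π j (ι j y) = y := by
        intro y
        have := DFunLike.congr_fun (hid j) y
        simpa using this
      rw [ContinuousLinearMap.comp_apply, ContinuousLinearMap.comp_apply, h2, h3,
        smul_apply, ContinuousLinearMap.comp_apply,
        ContinuousLinearMap.comp_apply, h5, map_smul, h5, smul_apply]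
    obtain ⟨hi1, hi2⟩ := hIDEAL 𝕜 (P j).E X X (P j).E (ι j)
      (∑' k, ((lam k : ℝ) : 𝕜) • (((ι k).comp (P k).A).comp (π k))) (π j) (hι j) (hπ j) n
    rw [h1] at hi1 hi2
    obtain ⟨_, _, hb3⟩ := hADD 𝕜 (P j).E (P j).E
    obtain ⟨hb4, hb5⟩ := hb3 (P j).A (lam j) n (lam_pos j)
    exact ⟨hb4 ▸ hi1, hb5 ▸ hi2⟩
  · intro j n N δ hδ hN
    have hid' := fun k m => (hIDEAL 𝕜 X (P k).E (P k).E X (π k) (P k).A (ι k) (hπ k) (hι k) m).1
    have h1 := generic (fun k => ((ι k).comp (P k).A).comp (π k)) hQ (fun S m => entropyNumber S m)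
      (fun S S' m n => (ha1 S S' m n).1) (fun S => (ha2 S).1) (fun S r n hr => (ha3 S r n hr).1)
      j n N δ hδ (fun k hk => (hid' k (N k)).trans (hN k hk))
    refine h1.trans ?_
    have h2 := mul_le_mul_of_nonneg_left (hid' j n) (lam_pos j).le
    linarith
  · intro j n N δ hδ hN
    have hid' := fun k m => (hIDEAL 𝕜 X (P k).E (P k).E X (π k) (P k).A (ι k) (hπ k) (hι k) m).2
    have h1 := generic (fun k => ((ι k).comp (P k).A).comp (π k)) hQ
      (fun S m => entropyNumber (adjointMap S) m)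
      (fun S S' m n => (ha1 S S' m n).2) (fun S => (ha2 S).2) (fun S r n hr => (ha3 S r n hr).2)
      j n N δ hδ (fun k hk => (hid' k (N k)).trans (hN k hk))
    refine h1.trans ?_
    have h2 := mul_le_mul_of_nonneg_left (hid' j n) (lam_pos j).le
    linarith

end Pool.Agent.Work.MP_c13439_tree
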