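import Mathlib
import Pool.Agent.Work.MP_c13439_tree.Interface2

set_option autoImplicit false

/-!
# Block SUMX
-/

namespace Pool.Agent.Work.MP_c13439_tree

open Finset

theorem blk_SUMX : Stmt_SUMX := by
  classical
  intro 𝕜 _ P
  haveI : Fact ((1 : ENNReal) ≤ 2) := ⟨by norm_num⟩
  haveI : ∀ k, CompleteSpace (P k).E := fun k => FiniteDimensional.complete 𝕜 (P k).E
  refine ⟨lp (fun k => (P k).E) 2, inferInstance, inferInstance, inferInstance,
    fun k => lp.singleContinuousLinearMap 𝕜 (fun k => (P k).E) 2 k,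
    fun k => lp.evalCLM 𝕜 (fun k => (P k).E) 2 k, ?_, ?_, ?_, ?_⟩
  · intro k
    refine ContinuousLinearMap.opNorm_le_bound _ zero_le_one fun x => ?_
    rw [lp.singleContinuousLinearMap_apply, lp.norm_single (by norm_num), one_mul]
  · intro k
    refine ContinuousLinearMap.opNorm_le_bound _ zero_le_one fun x => ?_
    rw [one_mul]
    exact lp.norm_apply_le_norm (by norm_num) x k
  · intro k
    ext x
    simp [lp.evalCLM]
  · intro j k hjk
    ext x
    simp [lp.evalCLM, hjk]

end Pool.Agent.Work.MP_c13439_tree
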