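import Pool.Agent.Work.MP_c13439_tree.Interface

set_option autoImplicit false

namespace Pool.Agent.Work.MP_c13439_tree

open Finset Pool.Agent.Work.MP_c13439_an

namespace TEL

section

variable {W N : Type} [Fintype W] [Fintype N] [DecidableEq N]

theorem sum_ker (S : Sys W N) (w : Om S → ℝ) (v : W) :
    ∑ ω, w ω * ker S ω v = (∑ t ∈ range S.T, aa S w t v) / S.T := by
  classical
  have h1 : ∀ ω : Om S, w ω * ker S ω v =
      (∑ t ∈ range S.T, if Hit S ω t v then w ω else 0) / S.T := by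
    intro ω
    unfold ker
    rw [← mul_div_assoc, Finset.mul_sum]
    refine congrArg (fun z : ℝ => z / (S.T : ℝ)) (Finset.sum_congr rfl fun t _ => ?_)
    by_cases h : Hit S ω t v
    · simp [h]
    · simp [h]
  rw [Finset.sum_congr rfl fun ω _ => h1 ω, ← Finset.sum_div, Finset.sum_comm]
  refine congrArg (fun z : ℝ => z / (S.T : ℝ)) (Finset.sum_congr rfl fun t _ => ?_)
  unfold aa
  rfl

theorem aa_nonneg (S : Sys W N) (w : Om S → ℝ) (hw : ∀ ω, 0 ≤ w ω) (t : ℕ) (v : W) :
    0 ≤ aa S w t v := by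
  classical
  unfold aa
  refine Finset.sum_nonneg fun ω _ => ?_
  split_ifs
  · exact hw ω
  · exact le_rfl

theorem aa_le (S : Sys W N) (w : Om S → ℝ) (hw : ∀ ω, 0 ≤ w ω) (t : ℕ) (v : W) :
    aa S w t v ≤ ∑ ω, w ω := by
  classical
  unfold aa
  refine Finset.sum_le_sum fun ω _ => ?_
  split_ifs
  · exact le_rfl
  · exact hw ω

end

end TEL

theorem blk_TEL : Stmt_TEL := by
  intro W N _ _ _ S w e ah hT hw he h v
  have hT' : (0 : ℝ) < S.T := by exact_mod_cast hT
  rw [TEL.sum_ker]
  constructor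
  · rw [sub_le_iff_le_add]
    have h1 : ∑ t ∈ range S.T, aa S w t v ≤ ∑ t ∈ range S.T, (ah t v + e) := by
      refine Finset.sum_le_sum fun t ht => ?_
      have := (h t (Finset.mem_range.mp ht) v).1
      linarith
    rw [Finset.sum_add_distrib, Finset.sum_const, Finset.card_range, nsmul_eq_mul] at h1
    rw [div_le_iff₀ hT', add_mul, div_mul_cancel₀ _ hT'.ne']
    linarith
  · have h1 : ∑ t ∈ range S.T, ah t v ≤ ∑ t ∈ range S.T, aa S w (t + 1) v :=
      Finset.sum_le_sum fun t ht => (h t (Finset.mem_range.mp ht) v).2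
    have h2 : ∑ t ∈ range S.T, (aa S w (t + 1) v - aa S w t v) = aa S w S.T v - aa S w 0 v :=
      Finset.sum_range_sub (fun t => aa S w t v) S.T
    rw [Finset.sum_sub_distrib] at h2
    have h3 := TEL.aa_nonneg S w hw 0 v
    have h4 := TEL.aa_le S w hw S.T v
    rw [← add_div]
    refine div_le_div_of_nonneg_right ?_ hT'.le
    linarith

end Pool.Agent.Work.MP_c13439_tree
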