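import Pool.Agent.Work.MP_c13439_tree.Interface

/-! Block TREE: the concrete tree is a system. -/

namespace Pool.Agent.Work.MP_c13439_tree

open Finset Pool.Agent.Work.MP_c13439_an

theorem tree_bb_succ (m : ℕ → ℕ) {T t : ℕ} (h : t < T) :
    bb m T t = m t * bb m T (t + 1) := by
  unfold bb
  exact Finset.prod_eq_prod_Ico_succ_bot h m

theorem tree_R_bb (m : ℕ → ℕ) {T t : ℕ} (h : t ≤ T) : R m t * bb m T t = R m T := by
  unfold R bb
  exact Finset.prod_range_mul_prod_Ico m h

theorem tree_R_succ (m : ℕ → ℕ) (t : ℕ) : R m (t + 1) = R m t * m t := by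
  unfold R
  exact Finset.prod_range_succ m t

theorem tree_bb_pos (m : ℕ → ℕ) (hm : ∀ t, 0 < m t) (T t : ℕ) : 0 < bb m T t := by
  unfold bb
  exact Finset.prod_pos fun i _ => hm i

theorem tree_card (m : ℕ → ℕ) (hm : ∀ t, 0 < m t) (T : ℕ) (x : Nd m T) (hx : x.1.1 < T) :
    (Chd m T x).card = m x.1.1 := by
  classical
  obtain ⟨⟨t, ht⟩, ⟨ν, hν⟩⟩ := x
  simp only at hx hν ⊢
  have hlt : ∀ i : Fin (m t), ν * m t + i.1 < R m (t + 1) := by
    intro i
    rw [tree_R_succ]
    have h1 : (ν + 1) * m t ≤ R m t * m t := Nat.mul_le_mul_right _ hν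
    have h2 := i.2
    have h3 : (ν + 1) * m t = ν * m t + m t := by ring
    omega
  have ht1 : t + 1 < T + 1 := by omega
  let f : Fin (m t) → Nd m T := fun i => ⟨⟨t + 1, ht1⟩, ⟨ν * m t + i.1, hlt i⟩⟩
  have hf : Function.Injective f := by
    intro i j hij
    have h1 : (⟨ν * m t + i.1, hlt i⟩ : Fin (R m (t + 1))) = ⟨ν * m t + j.1, hlt j⟩ := by
      have := (Sigma.mk.inj_iff.mp hij).2
      exact eq_of_heq this
    have h2 := congrArg Fin.val h1
    simp only at h2
    apply Fin.ext
    omega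
  have himg : Chd m T ⟨⟨t, ht⟩, ⟨ν, hν⟩⟩ = Finset.univ.image f := by
    ext z
    obtain ⟨⟨s, hs⟩, ⟨κ, hκ⟩⟩ := z
    simp only [Chd, Finset.mem_filter, Finset.mem_univ, true_and, Finset.mem_image]
    constructor
    · rintro ⟨h1, h2⟩
      subst h1
      refine ⟨⟨κ % m t, Nat.mod_lt _ (hm t)⟩, ?_⟩
      have h3 : ν * m t + κ % m t = κ := by
        rw [← h2, Nat.mul_comm]
        exact Nat.div_add_mod κ (m t)
      simp only [f]
      congr 1
      apply Fin.ext
      exact h3
    · rintro ⟨i, hi⟩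
      have h1 : s = t + 1 := by
        have := congrArg (fun z : Nd m T => z.1.1) hi
        simpa [f] using this.symm
      subst h1
      refine ⟨rfl, ?_⟩
      have h4 : (⟨ν * m t + i.1, hlt i⟩ : Fin (R m (t + 1))) = ⟨κ, hκ⟩ := by
        have := (Sigma.mk.inj_iff.mp hi).2
        exact eq_of_heq this
      have h5 := congrArg Fin.val h4
      simp only at h5
      rw [← h5, Nat.mul_comm ν, Nat.mul_add_div (hm t), Nat.div_eq_of_lt i.2, Nat.add_zero]
  rw [himg, Finset.card_image_of_injective _ hf, Finset.card_univ, Fintype.card_fin]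

theorem tree_words (m : ℕ → ℕ) (hm : ∀ t, 0 < m t) (T : ℕ) (F : Type) [Fintype F]
    [DecidableEq F] (x : Nd m T) (s : Finset (Wd m T F))
    (hs : ∀ u ∈ s, ∀ v ∈ s, Agr m T F x u v → u = v) :
    s.card ≤ (Fintype.card F) ^ (bb m T x.1.1) := by
  classical
  obtain ⟨⟨t, ht⟩, ⟨ν, hν⟩⟩ := x
  simp only at hν ⊢
  have htT : t ≤ T := by omega
  have hlt : ∀ i : Fin (bb m T t), ν * bb m T t + i.1 < R m T := by
    intro i
    rw [← tree_R_bb m htT]
    have h1 : (ν + 1) * bb m T t ≤ R m t * bb m T t := Nat.mul_le_mul_right _ hν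
    have h2 := i.2
    have h3 : (ν + 1) * bb m T t = ν * bb m T t + bb m T t := by ring
    omega
  let g : Wd m T F → (Fin (bb m T t) → F) := fun u i => u ⟨ν * bb m T t + i.1, hlt i⟩
  have hinj : Set.InjOn g (s : Set (Wd m T F)) := by
    intro u hu v hv huv
    apply hs u hu v hv
    intro y hy
    simp only at hy
    have hb := tree_bb_pos m hm T t
    have h1 := congrFun huv ⟨y.1 % bb m T t, Nat.mod_lt _ hb⟩
    simp only [g] at h1
    have h3 : ν * bb m T t + y.1 % bb m T t = y.1 := by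
      rw [← hy, Nat.mul_comm]
      exact Nat.div_add_mod y.1 (bb m T t)
    have h4 : (⟨ν * bb m T t + y.1 % bb m T t, hlt ⟨y.1 % bb m T t, Nat.mod_lt _ hb⟩⟩ :
        Fin (R m T)) = y := Fin.ext h3
    rw [h4] at h1
    exact h1
  have h := Finset.card_le_card_of_injOn (t := (Finset.univ : Finset (Fin (bb m T t) → F))) g
    (fun _ _ => Finset.mem_coe.mpr (Finset.mem_univ _)) hinj
  rw [Finset.card_univ, Fintype.card_fun, Fintype.card_fin] at h
  exact h

theorem blk_TREE : Stmt_TREE := by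
  classical
  intro m T F _ _ hm
  refine ⟨{ T := T
            lev := fun x => x.1.1
            A := Agr m T F
            eqv := ?_
            ch := Chd m T
            ne := ?_
            lev_ch := ?_
            A_ch := ?_ }, rfl, fun _ => rfl, rfl, rfl, ?_, ?_⟩
  · intro ν
    refine ⟨fun u y _ => rfl, fun h y hy => (h y hy).symm, fun h1 h2 y hy => ?_⟩
    exact (h1 y hy).trans (h2 y hy)
  · intro x hx
    rw [← Finset.card_pos, tree_card m hm T x hx]
    exact hm _
  · intro ν κ h
    simp only [Chd, Finset.mem_filter, Finset.mem_univ, true_and] at h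
    exact h.1
  · intro ν κ u v h huv y hy
    simp only [Chd, Finset.mem_filter, Finset.mem_univ, true_and] at h
    obtain ⟨h1, h2⟩ := h
    apply huv y
    have hκ : κ.1.1 < T + 1 := κ.1.2
    have hνT : ν.1.1 < T := by omega
    rw [tree_bb_succ m hνT, Nat.mul_comm, ← Nat.div_div_eq_div_mul, ← h1, hy, h2]
  · intro x hx
    exact tree_card m hm T x hx
  · intro x s hs
    exact tree_words m hm T F x s hs

end Pool.Agent.Work.MP_c13439_tree
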