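import Pool.Agent.Work.MP_c13439_tree.Interface

set_option autoImplicit false
set_option linter.unusedSectionVars false

/-!
# Block TWO: the two-sided estimate
-/

namespace Pool.Agent.Work.MP_c13439_tree

open Finset

namespace TwoAux

theorem inter_card {N : Type} (i1 i2 : DecidableEq N) (C B : Finset N) :
    (@Inter.inter _ (@Finset.instInter N i1) C B).card =
      (@Inter.inter _ (@Finset.instInter N i2) C B).card := by
  rw [Subsingleton.elim i1 i2]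

variable {W N : Type} [Fintype W] [Fintype N] [DecidableEq N]

open Classical in
/-- the weights of the tests through a node -/
noncomputable def wN (S : Sys W N) (w : Om S → ℝ) (ν : Inn S) (ω : Om S) : ℝ :=
  if ν.1 ∈ ω.2.1 then w ω else 0

open Classical in
/-- the weights of the tests through a node with a given content -/
noncomputable def wK (S : Sys W N) (w : Om S → ℝ) (ν : Inn S) (x : W) (ω : Om S) : ℝ :=
  if ν.1 ∈ ω.2.1 ∧ S.A ν.1 x ω.1 then w ω else 0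

omit [DecidableEq N] in
theorem term_nonneg {P : Prop} [Decidable P] {a : ℝ} (ha : 0 ≤ a) : 0 ≤ if P then a else 0 := by
  split_ifs
  · exact ha
  · exact le_rfl

theorem wN_nonneg (S : Sys W N) (w : Om S → ℝ) (hw : ∀ ω, 0 ≤ w ω) (ν : Inn S) (ω : Om S) :
    0 ≤ wN S w ν ω := by
  unfold wN
  split_ifs
  · exact hw ω
  · exact le_rfl

theorem wN_le (S : Sys W N) (w : Om S → ℝ) (hw : ∀ ω, 0 ≤ w ω) (ν : Inn S) (ω : Om S) :
    wN S w ν ω ≤ w ω := by
  unfold wN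
  split_ifs
  · exact le_rfl
  · exact hw ω

theorem wK_nonneg (S : Sys W N) (w : Om S → ℝ) (hw : ∀ ω, 0 ≤ w ω) (ν : Inn S) (x : W)
    (ω : Om S) : 0 ≤ wK S w ν x ω := by
  unfold wK
  split_ifs
  · exact hw ω
  · exact le_rfl

theorem wK_le (S : Sys W N) (w : Om S → ℝ) (hw : ∀ ω, 0 ≤ w ω) (ν : Inn S) (x : W)
    (ω : Om S) : wK S w ν x ω ≤ w ω := by
  unfold wK
  split_ifs
  · exact le_rfl
  · exact hw ω

open Classical in
theorem right_le (S : Sys W N) (K : N → ℕ) (c : ℕ) (w : Om S → ℝ) (hw : ∀ ω, 0 ≤ w ω)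
    (h : (ν : Inn S) → Fin (K ν.1) → W) (pk : (ν : Inn S) → Fin (K ν.1) → Fin c → N)
    (hpk : ∀ ν k i, pk ν k i ∈ S.ch ν.1) (t : ℕ) (v : W) :
    aahat S K c h pk w t v ≤ aa S w (t + 1) v := by
  unfold aahat aa
  refine Finset.sum_le_sum fun ω _ => ?_
  by_cases hl : ∃ l : Lab S K c, Typ S K c h pk ω l ∧ S.lev l.1.1 ≤ t ∧
      S.A (pk l.1 l.2.1 l.2.2) (h l.1 l.2.1) v
  · rw [if_pos hl]
    obtain ⟨l, ⟨_, hA, hmem⟩, hlev, hv⟩ := hl
    have hch := hpk l.1 l.2.1 l.2.2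
    have hHit : Hit S ω (t + 1) v := by
      refine ⟨pk l.1 l.2.1 l.2.2, hmem, ?_, ?_⟩
      · rw [S.lev_ch _ _ hch]
        omega
      · exact (S.eqv _).trans ((S.eqv _).symm (S.A_ch _ _ _ _ hch hA)) hv
    rw [if_pos hHit]
  · rw [if_neg hl]
    split_ifs
    · exact hw ω
    · exact le_rfl

open Classical in
theorem point_le (S : Sys W N) (K : N → ℕ) (c : ℕ) (w : Om S → ℝ) (hw : ∀ ω, 0 ≤ w ω)
    (h : (ν : Inn S) → Fin (K ν.1) → W) (pk : (ν : Inn S) → Fin (K ν.1) → Fin c → N)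
    (hpk : ∀ ν k i, pk ν k i ∈ S.ch ν.1) (t : ℕ) (ht : t < S.T) (v : W) (Lt : Inn S → Prop)
    (hL : ∀ ν, ¬ Lt ν → ∃ k, S.A ν.1 (h ν k) v) (ω : Om S) :
    (if Hit S ω t v then w ω else 0) ≤
      (if (∃ l : Lab S K c, Typ S K c h pk ω l ∧ S.lev l.1.1 ≤ t ∧
        S.A (pk l.1 l.2.1 l.2.2) (h l.1 l.2.1) v) then w ω else 0) +
      (∑ ν : Inn S, if Lt ν then (if S.A ν.1 ω.1 v then wN S w ν ω else 0) else 0) +
      ∑ ν : Inn S, ∑ k : Fin (K ν.1),
        if (∀ i, pk ν k i ∉ ω.2.1) then wK S w ν (h ν k) ω else 0 := by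
  have p1 : 0 ≤ (if (∃ l : Lab S K c, Typ S K c h pk ω l ∧ S.lev l.1.1 ≤ t ∧
        S.A (pk l.1 l.2.1 l.2.2) (h l.1 l.2.1) v) then w ω else 0) := term_nonneg (hw ω)
  have q2 : ∀ ν : Inn S, 0 ≤ if Lt ν then (if S.A ν.1 ω.1 v then wN S w ν ω else 0) else 0 :=
    fun ν => term_nonneg (term_nonneg (wN_nonneg S w hw ν ω))
  have q3 : ∀ (ν : Inn S) (k : Fin (K ν.1)),
      0 ≤ if (∀ i, pk ν k i ∉ ω.2.1) then wK S w ν (h ν k) ω else 0 :=
    fun ν k => term_nonneg (wK_nonneg S w hw ν (h ν k) ω)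
  have p2 : 0 ≤ ∑ ν : Inn S, if Lt ν then (if S.A ν.1 ω.1 v then wN S w ν ω else 0) else 0 :=
    Finset.sum_nonneg fun ν _ => q2 ν
  have p3 : 0 ≤ ∑ ν : Inn S, ∑ k : Fin (K ν.1),
        if (∀ i, pk ν k i ∉ ω.2.1) then wK S w ν (h ν k) ω else 0 :=
    Finset.sum_nonneg fun ν _ => Finset.sum_nonneg fun k _ => q3 ν k
  by_cases hH : Hit S ω t v
  · rw [if_pos hH]
    obtain ⟨n, hn, hlev, hA⟩ := hH
    have hnT : S.lev n < S.T := lt_of_le_of_lt hlev ht
    by_cases hlt : Lt ⟨n, hnT⟩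
    · have h1 := Finset.single_le_sum (f := fun ν : Inn S =>
        if Lt ν then (if S.A ν.1 ω.1 v then wN S w ν ω else 0) else 0)
        (fun ν _ => q2 ν) (Finset.mem_univ ⟨n, hnT⟩)
      simp only [if_pos hlt, if_pos hA] at h1
      have h2 : wN S w ⟨n, hnT⟩ ω = w ω := by
        unfold wN
        exact if_pos hn
      rw [h2] at h1
      linarith
    · obtain ⟨k, hk⟩ := hL ⟨n, hnT⟩ hlt
      have hk2 : S.A n (h ⟨n, hnT⟩ k) ω.1 := (S.eqv _).trans hk ((S.eqv _).symm hA)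
      by_cases hp : ∀ i, pk ⟨n, hnT⟩ k i ∉ ω.2.1
      · have h1 := Finset.single_le_sum (f := fun ν : Inn S => ∑ k : Fin (K ν.1),
          if (∀ i, pk ν k i ∉ ω.2.1) then wK S w ν (h ν k) ω else 0)
          (fun ν _ => Finset.sum_nonneg fun k _ => q3 ν k) (Finset.mem_univ ⟨n, hnT⟩)
        have h3 := Finset.single_le_sum (f := fun k : Fin (K n) =>
          if (∀ i, pk ⟨n, hnT⟩ k i ∉ ω.2.1) then wK S w ⟨n, hnT⟩ (h ⟨n, hnT⟩ k) ω else 0)
          (fun k _ => q3 ⟨n, hnT⟩ k) (Finset.mem_univ k)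
        simp only [if_pos hp] at h3
        have h2 : wK S w ⟨n, hnT⟩ (h ⟨n, hnT⟩ k) ω = w ω := by
          unfold wK
          exact if_pos ⟨hn, hk2⟩
        rw [h2] at h3
        have h4 := le_trans h3 h1
        linarith
      · push Not at hp
        obtain ⟨i, hi⟩ := hp
        have hl : ∃ l : Lab S K c, Typ S K c h pk ω l ∧ S.lev l.1.1 ≤ t ∧
            S.A (pk l.1 l.2.1 l.2.2) (h l.1 l.2.1) v :=
          ⟨⟨⟨n, hnT⟩, (k, i)⟩, ⟨hn, hk2, hi⟩, hlev,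
            S.A_ch _ _ _ _ (hpk ⟨n, hnT⟩ k i) hk⟩
        rw [if_pos hl]
        linarith
  · rw [if_neg hH]
    linarith

end TwoAux

open TwoAux in
open Classical in
theorem blk_TWO (hPICK : Stmt_PICK) (hHEAVY : Stmt_HEAVY) : Stmt_TWO := by
  intro W N _ _ _ _ S K c hK w hw hw1
  have hH : ∀ ν : Inn S, ∃ h : Fin (K ν.1) → W, ∀ v : W,
      (1 / K ν.1 : ℝ) ≤ (∑ ω : Om S, if S.A ν.1 ω.1 v then wN S w ν ω else 0) →
      ∃ k, S.A ν.1 (h k) v := fun ν =>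
    hHEAVY (Om S) W (S.A ν.1) (S.eqv ν.1) (fun ω => ω.1) (wN S w ν) (K ν.1) (hK ν.1)
      (fun ω => wN_nonneg S w hw ν ω)
      (le_trans (Finset.sum_le_sum fun ω _ => wN_le S w hw ν ω) hw1)
  choose h hh using hH
  have hP : ∀ (ν : Inn S) (k : Fin (K ν.1)), ∃ p : Fin c → N, (∀ i, p i ∈ S.ch ν.1) ∧
      (∑ ω : Om S, if (∀ i, p i ∉ ω.2.1) then wK S w ν (h ν k) ω else 0) ≤
        (1 / 2 : ℝ) ^ c * ∑ ω : Om S, wK S w ν (h ν k) ω := by
    intro ν k
    obtain ⟨p, hp1, hp2⟩ := hPICK (Om S) N (S.ch ν.1) (fun ω => ω.2.1) (wK S w ν (h ν k)) c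
      (S.ne ν.1 ν.2) (fun ω => wK_nonneg S w hw ν (h ν k) ω)
      (fun ω hω => by
        have hmem : ν.1 ∈ ω.2.1 := by
          by_contra hcon
          have h0 : wK S w ν (h ν k) ω = 0 := by
            unfold wK
            exact if_neg fun hq => hcon hq.1
          rw [h0] at hω
          exact lt_irrefl _ hω
        have hval := ω.2.2 ν.1 hmem ν.2
        rw [inter_card _ (fun a b => Classical.propDecidable (a = b))] at hval
        exact hval)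
    refine ⟨p, hp1, le_trans (le_of_eq ?_) hp2⟩
    refine Finset.sum_congr rfl fun ω _ => ?_
    by_cases hq : ∀ i, p i ∉ ω.2.1
    · rw [if_pos hq, if_pos hq]
    · rw [if_neg hq, if_neg hq]
  choose pk hpk1 hpk2 using hP
  refine ⟨h, pk, hpk1, ?_⟩
  intro t ht v
  refine ⟨?_, right_le S K c w hw h pk hpk1 t v⟩
  have hpt := Finset.sum_le_sum fun ω (_ : ω ∈ (Finset.univ : Finset (Om S))) =>
    point_le S K c w hw h pk hpk1 t ht v
      (fun ν => (∑ ω : Om S, if S.A ν.1 ω.1 v then wN S w ν ω else 0) < (1 / K ν.1 : ℝ))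
      (fun ν hν => hh ν v (not_lt.1 hν)) ω
  rw [Finset.sum_add_distrib, Finset.sum_add_distrib] at hpt
  have e1 : (∑ ω : Om S, ∑ ν : Inn S,
      if (∑ ω : Om S, if S.A ν.1 ω.1 v then wN S w ν ω else 0) < (1 / K ν.1 : ℝ) then
        (if S.A ν.1 ω.1 v then wN S w ν ω else 0) else 0) ≤ ∑ ν : Inn S, (1 / K ν.1 : ℝ) := by
    rw [Finset.sum_comm]
    refine Finset.sum_le_sum fun ν _ => ?_
    by_cases hlt : (∑ ω : Om S, if S.A ν.1 ω.1 v then wN S w ν ω else 0) < (1 / K ν.1 : ℝ)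
    · simp only [if_pos hlt]
      exact hlt.le
    · simp only [if_neg hlt, Finset.sum_const_zero]
      positivity
  have e2 : (∑ ω : Om S, ∑ ν : Inn S, ∑ k : Fin (K ν.1),
      if (∀ i, pk ν k i ∉ ω.2.1) then wK S w ν (h ν k) ω else 0) ≤
      (∑ ν : Inn S, (K ν.1 : ℝ)) * (1 / 2) ^ c := by
    rw [Finset.sum_comm, Finset.sum_mul]
    refine Finset.sum_le_sum fun ν _ => ?_
    rw [Finset.sum_comm]
    have e3 : ∀ k ∈ (Finset.univ : Finset (Fin (K ν.1))),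
        (∑ ω : Om S, if (∀ i, pk ν k i ∉ ω.2.1) then wK S w ν (h ν k) ω else 0) ≤
        (1 / 2 : ℝ) ^ c := by
      intro k _
      refine le_trans (hpk2 ν k) ?_
      have e4 : ∑ ω : Om S, wK S w ν (h ν k) ω ≤ 1 :=
        le_trans (Finset.sum_le_sum fun ω _ => wK_le S w hw ν (h ν k) ω) hw1
      have e5 := mul_le_mul_of_nonneg_left e4 (by positivity : (0 : ℝ) ≤ (1 / 2 : ℝ) ^ c)
      linarith
    refine le_trans (Finset.sum_le_sum e3) (le_of_eq ?_)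
    rw [Finset.sum_const, Finset.card_univ, Fintype.card_fin, nsmul_eq_mul]
  have e6 : aa S w t v ≤ aahat S K c h pk w t v + (∑ ν : Inn S, (1 / K ν.1 : ℝ)) +
      (∑ ν : Inn S, (K ν.1 : ℝ)) * (1 / 2) ^ c := by
    unfold aa aahat
    linarith
  linarith

end Pool.Agent.Work.MP_c13439_tree
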