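import Pool.Agent.Work.MP_c13439_tree.Interface

set_option autoImplicit false

namespace Pool.Agent.Work.MP_c13439_tree

open Finset Pool.Agent.Work.MP_c13439_an

namespace OPUAux

section

variable {𝕜 : Type} [RCLike 𝕜]

theorem ent_le {Z W : Type} [NormedAddCommGroup Z] [NormedSpace 𝕜 Z]
    [NormedAddCommGroup W] [NormedSpace 𝕜 W] (S : Z →L[𝕜] W) (n : ℕ) (r : ℝ) (hr : 0 < r)
    (w : Fin (2 ^ n) → W) (h : ∀ x : Z, ‖x‖ ≤ 1 → ∃ k, ‖S x - w k‖ ≤ r) :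
    entropyNumber S n ≤ r := by
  apply csInf_le
  · exact ⟨0, fun ε hε => hε.1.le⟩
  · refine ⟨hr, w, ?_⟩
    rintro _ ⟨x, hx, rfl⟩
    have hx' : ‖x‖ ≤ 1 := by simpa using hx
    obtain ⟨k, hk⟩ := h x hx'
    refine Set.mem_iUnion.2 ⟨k, ?_⟩
    rw [Metric.mem_closedBall, dist_eq_norm]
    exact hk

/-- The index equivalence. -/
def pr (n : ℕ) : Fin (2 ^ (2 * n)) ≃ Fin (2 ^ n) × Fin (2 ^ n) :=
  (finCongr (by rw [two_mul, pow_add])).trans finProdFinEquiv.symm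

/-- The centres. -/
noncomputable def cen {Z : Type} {n : ℕ} (F : Fin (2 ^ n) → Z → ℝ) (p : Fin (2 ^ (2 * n)))
    (z : Z) : 𝕜 :=
  (F (pr n p).1 z : 𝕜) + (F (pr n p).2 z : 𝕜) * RCLike.I

theorem norm_I_le : ‖(RCLike.I : 𝕜)‖ ≤ 1 := by
  rcases eq_or_ne (RCLike.I : 𝕜) 0 with h | h
  · rw [h, norm_zero]; exact zero_le_one
  · rw [RCLike.norm_I_of_ne_zero h]

theorem approx {O Z : Type} [Fintype O] (y : O → Z → ℝ) (η : ℝ) (n : ℕ)
    (F : Fin (2 ^ n) → Z → ℝ)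
    (hF : ∀ w : O → ℝ, ∑ ω, |w ω| ≤ 1 → ∃ j, ∀ z, |(∑ ω, w ω * y ω z) - F j z| ≤ η)
    (a : O → 𝕜) (ha : ∑ ω, ‖a ω‖ ≤ 1) :
    ∃ p : Fin (2 ^ (2 * n)), ∀ z, ‖(∑ ω, a ω * (y ω z : 𝕜)) - cen F p z‖ ≤ 2 * η := by
  obtain ⟨j1, h1⟩ := hF (fun ω => RCLike.re (a ω))
    (le_trans (Finset.sum_le_sum fun ω _ => RCLike.abs_re_le_norm (a ω)) ha)
  obtain ⟨j2, h2⟩ := hF (fun ω => RCLike.im (a ω))
    (le_trans (Finset.sum_le_sum fun ω _ => RCLike.abs_im_le_norm (a ω)) ha)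
  refine ⟨(pr n).symm (j1, j2), fun z => ?_⟩
  have hη : 0 ≤ η := le_trans (abs_nonneg _) (h1 z)
  have key : (∑ ω, a ω * (y ω z : 𝕜)) - cen F ((pr n).symm (j1, j2)) z
      = (((∑ ω, RCLike.re (a ω) * y ω z) - F j1 z : ℝ) : 𝕜)
        + (((∑ ω, RCLike.im (a ω) * y ω z) - F j2 z : ℝ) : 𝕜) * RCLike.I := by
    have e1 : (∑ ω, a ω * (y ω z : 𝕜))
        = (∑ ω, (RCLike.re (a ω) : 𝕜) * (y ω z : 𝕜))
          + (∑ ω, (RCLike.im (a ω) : 𝕜) * (y ω z : 𝕜)) * RCLike.I := by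
      rw [Finset.sum_mul, ← Finset.sum_add_distrib]
      refine Finset.sum_congr rfl fun ω _ => ?_
      nth_rewrite 1 [← RCLike.re_add_im (a ω)]
      ring
    rw [e1]
    unfold cen
    rw [Equiv.apply_symm_apply]
    push_cast
    ring
  rw [key]
  calc _ ≤ ‖(((∑ ω, RCLike.re (a ω) * y ω z) - F j1 z : ℝ) : 𝕜)‖
        + ‖(((∑ ω, RCLike.im (a ω) * y ω z) - F j2 z : ℝ) : 𝕜) * RCLike.I‖ := norm_add_le _ _
    _ ≤ η + η * 1 := by
        refine add_le_add ?_ ?_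
        · rw [RCLike.norm_ofReal]; exact h1 z
        · rw [norm_mul, RCLike.norm_ofReal]
          exact mul_le_mul (h2 z) norm_I_le (norm_nonneg _) hη
    _ = 2 * η := by ring

theorem norm_l1 {O : Type} [Fintype O] (x : PiLp 1 (fun _ : O => 𝕜)) : ‖x‖ = ∑ ω, ‖x ω‖ := by
  rw [PiLp.norm_eq_sum (by norm_num)]
  simp

theorem sum_norm_le {O : Type} [Fintype O] [DecidableEq O] (f : (O → 𝕜) →L[𝕜] 𝕜) :
    ∑ ω, ‖f (Pi.single ω 1)‖ ≤ ‖f‖ := by
  let g : O → 𝕜 := fun ω =>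
    if f (Pi.single ω 1) = 0 then 0 else
      (starRingEnd 𝕜) (f (Pi.single ω 1)) / (‖f (Pi.single ω 1)‖ : 𝕜)
  have hg : ‖g‖ ≤ 1 := by
    refine (pi_norm_le_iff_of_nonneg zero_le_one).2 fun ω => ?_
    by_cases h : f (Pi.single ω 1) = 0
    · simp [g, h]
    · have h' : ‖f (Pi.single ω 1)‖ ≠ 0 := norm_ne_zero_iff.2 h
      simp only [g, if_neg h]
      rw [norm_div, RCLike.norm_conj, RCLike.norm_ofReal, abs_of_nonneg (norm_nonneg _),
        div_self h']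
  have hfg : f g = ((∑ ω, ‖f (Pi.single ω 1)‖ : ℝ) : 𝕜) := by
    have e : g = ∑ ω, g ω • (Pi.single ω (1 : 𝕜) : O → 𝕜) := by
      funext o
      simp [Finset.sum_apply, Pi.single_apply]
    rw [e, map_sum]
    push_cast
    refine Finset.sum_congr rfl fun ω _ => ?_
    rw [map_smul, smul_eq_mul]
    by_cases h : f (Pi.single ω 1) = 0
    · simp [h]
    · have h' : ((‖f (Pi.single ω 1)‖ : ℝ) : 𝕜) ≠ 0 := by
        exact_mod_cast norm_ne_zero_iff.2 h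
      simp only [g, if_neg h]
      rw [div_mul_eq_mul_div, RCLike.conj_mul, sq, mul_div_assoc, div_self h', mul_one]
  have h0 : 0 ≤ ∑ ω, ‖f (Pi.single ω 1)‖ := Finset.sum_nonneg fun _ _ => norm_nonneg _
  calc ∑ ω, ‖f (Pi.single ω 1)‖ = ‖f g‖ := by
        rw [hfg, RCLike.norm_ofReal, abs_of_nonneg h0]
    _ ≤ ‖f‖ * ‖g‖ := f.le_opNorm g
    _ ≤ ‖f‖ * 1 := mul_le_mul_of_nonneg_left hg (norm_nonneg _)
    _ = ‖f‖ := mul_one _

/-- The functional with the coefficients `c`. -/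
noncomputable def fn {Z : Type} [Fintype Z] (c : Z → 𝕜) : (PiLp 1 (fun _ : Z => 𝕜)) →L[𝕜] 𝕜 :=
  LinearMap.toContinuousLinearMap
    { toFun := fun x => ∑ z, x z * c z
      map_add' := by
        intro x x'
        simp [add_mul, Finset.sum_add_distrib]
      map_smul' := by
        intro r x
        simp [Finset.mul_sum, mul_assoc] }

theorem fn_apply {Z : Type} [Fintype Z] (c : Z → 𝕜) (x : PiLp 1 (fun _ : Z => 𝕜)) :
    fn c x = ∑ z, x z * c z := rfl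

theorem opT_apply {O Z : Type} [Fintype O] [Fintype Z] (y : O → Z → ℝ)
    (x : PiLp 1 (fun _ : O => 𝕜)) (z : Z) : opT 𝕜 y x z = ∑ ω, x ω * (y ω z : 𝕜) := rfl

end

end OPUAux

open OPUAux in
theorem blk_OPU : Stmt_OPU := by
  intro 𝕜 _ O Z _ _ y η n F hη hF
  classical
  constructor
  · refine ent_le _ _ _ (by positivity) (cen F) fun x hx => ?_
    rw [norm_l1] at hx
    obtain ⟨p, hp⟩ := approx y η n F hF (fun ω => x ω) hx
    refine ⟨p, (pi_norm_le_iff_of_nonneg (by positivity)).2 fun z => ?_⟩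
    rw [Pi.sub_apply, opT_apply]
    exact hp z
  · refine ent_le _ _ _ (by positivity) (fun p => fn (cen F p)) fun f hf => ?_
    obtain ⟨p, hp⟩ := approx y η n F hF (fun ω => f (Pi.single ω 1))
      (le_trans (sum_norm_le f) hf)
    refine ⟨p, ContinuousLinearMap.opNorm_le_bound _ (by positivity) fun x => ?_⟩
    have e : (adjointMap (opT 𝕜 (fun z ω => y ω z)) f - fn (cen F p) :
        (PiLp 1 (fun _ : Z => 𝕜)) →L[𝕜] 𝕜) x
        = ∑ z, x z * ((∑ ω, f (Pi.single ω 1) * (y ω z : 𝕜)) - cen F p z) := by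
      have e0 : adjointMap (opT 𝕜 (fun z ω => y ω z)) f x
          = f (opT 𝕜 (fun z ω => y ω z) x) := rfl
      have e1 : opT 𝕜 (fun z ω => y ω z) x
          = ∑ ω, (∑ z, x z * (y ω z : 𝕜)) • (Pi.single ω (1 : 𝕜) : O → 𝕜) := by
        funext o
        rw [opT_apply]
        simp [Finset.sum_apply, Pi.single_apply]
      rw [sub_apply, e0, e1, map_sum, fn_apply]
      simp_rw [mul_sub, Finset.sum_sub_distrib, map_smul, smul_eq_mul, Finset.sum_mul,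
        Finset.mul_sum]
      rw [Finset.sum_comm]
      congr 1
      refine Finset.sum_congr rfl fun z _ => Finset.sum_congr rfl fun ω _ => ?_
      ring
    rw [e]
    calc _ ≤ ∑ z, ‖x z * ((∑ ω, f (Pi.single ω 1) * (y ω z : 𝕜)) - cen F p z)‖ :=
          norm_sum_le _ _
      _ ≤ ∑ z, 2 * η * ‖x z‖ := by
          refine Finset.sum_le_sum fun z _ => ?_
          rw [norm_mul, mul_comm]
          exact mul_le_mul_of_nonneg_right (hp z) (norm_nonneg _)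
      _ = 2 * η * ‖x‖ := by rw [norm_l1, Finset.mul_sum]

end Pool.Agent.Work.MP_c13439_tree
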